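import Mathlib

/-!
# Statements for the construction of dense sets with few representations over `F_p[t]`

`p` is a fixed large prime. All statements are self-contained.
-/

namespace Pool.Agent.H601.FP

/-- The irreducible polynomials of degree `m` over `F_p` with constant coefficient `1`. -/
def Pr (p : ℕ) (m : ℕ) : Set (Polynomial (ZMod p)) :=
  {f | Irreducible f ∧ f.natDegree = m ∧ f.coeff 0 = 1}

/-- The logarithmic derivative of a power series (with invertible constant coefficient). -/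
noncomputable def dlog {p : ℕ} [Fact p.Prime] (F : PowerSeries (ZMod p)) : PowerSeries (ZMod p) :=
  PowerSeries.derivative (ZMod p) F * F⁻¹

/-- The coefficients of the logarithmic derivative of a polynomial. -/
noncomputable def lc {p : ℕ} [Fact p.Prime] (f : Polynomial (ZMod p)) (i : ℕ) : ZMod p :=
  PowerSeries.coeff i (dlog (f : PowerSeries (ZMod p)))

/-- **Task 1** (number of primes). Proof: let `κ` be the field with `p ^ m` elements
(`GaloisField p m`). Elements of `κ` whose minimal polynomial over `F_p` has degree `e < m` satisfy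
`e ∣ m`, so `e ≤ m / 2`, and `θ ^ (p ^ e) = θ`: there are at most `∑ e ∈ Icc 1 (m/2), p ^ e ≤ p ^ m / 2`
of them (`p ≥ 5`). All the other elements have irreducible monic minimal polynomials of degree `m`,
each minimal polynomial has at most `m` roots in `κ`, so there are at least `p ^ m / (2 m)` monic
irreducible polynomials of degree `m`; their constant coefficients are not `0` (as `m ≥ 2`), and
`f ↦ C (f.coeff 0)⁻¹ * f` is injective on them (look at the leading coefficient) with values in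
`Pr p m`. (See library module `Pool.Graph.R_seed8.Y160.T3.IrrCount` for a similar proof.) -/
def S_count : Prop := ∀ (p : ℕ) [Fact p.Prime], 5 ≤ p → ∀ m : ℕ, 2 ≤ m →
  (Pr p m).Finite ∧ p ^ m ≤ 2 * m * (Pr p m).ncard

/-- **Task 2** (digits). Every power series `F` with constant coefficient `1` is a product
`∏ (1 - X ^ m) ^ (δ_m)` with `0 ≤ δ_m < p`, modulo every power of `X`, with the same digits `δ_m`.
Proof: define recursively `u_0 = F` and `δ_n ∈ {0, …, p-1}` with `δ_n = - coeff n u_{n-1}` in `ZMod p`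
and `u_n = u_{n-1} * ((1 - X ^ n) ^ δ_n)⁻¹`; then `u_n - 1` is divisible by `X ^ (n + 1)` and
`F = u_n * ∏_{m ∈ Icc 1 n} (1 - X ^ m) ^ δ_m`. -/
def S_digits : Prop := ∀ (p : ℕ) [Fact p.Prime],
  ∃ δ : PowerSeries (ZMod p) → ℕ → ℕ, (∀ F m, δ F m < p) ∧
    ∀ F : PowerSeries (ZMod p), PowerSeries.constantCoeff F = 1 → ∀ n : ℕ,
      PowerSeries.X ^ (n + 1) ∣
        F - ∏ m ∈ Finset.Icc 1 n, ((1 : PowerSeries (ZMod p)) - PowerSeries.X ^ m) ^ (δ F m)

/-- **Task 3** (uniqueness). Let `A ≡ ∏ (1 - X ^ m) ^ (s m)`, `B ≡ ∏ (1 - X ^ m) ^ (s' m)` modulo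
`X ^ (n + 1)` (`1 ≤ m ≤ n`), where `s m = s' m` if `p ∣ m` or `p m ≤ n`, and suppose `A' B ≡ A B'`
modulo `X ^ n`. Then `A ≡ B` modulo `X ^ (n + 1)`. Proof: it is enough that `s m ≡ s' m` modulo `p` for
the other `m`, because `(1 - X ^ m) ^ p = 1 - X ^ (p m) ≡ 1` modulo `X ^ (n + 1)` if `p m > n`.
Otherwise let `m₀ ≤ n` be the least exception, so `p ∤ m₀`; modulo `X ^ (m₀ + 1)` we have
`A ≡ C (1 - s m₀ X ^ m₀)` and `B ≡ C (1 - s' m₀ X ^ m₀)`, with the same `C` with constant coefficient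
`1` (use the least-ness and the previous remark for the factors `m < m₀`; for
the factors `m > m₀` they are `≡ 1`). So `A - B = (s' m₀ - s m₀) X ^ m₀ + O(X ^ (m₀ + 1))` and
`A' B - A B' = (A - B)' B - (A - B) B'` has the coefficient `m₀ (s' m₀ - s m₀) ≠ 0` at
`X ^ (m₀ - 1)`, a contradiction. -/
def S_uniq : Prop := ∀ (p : ℕ) [Fact p.Prime] (n : ℕ) (A B : PowerSeries (ZMod p)) (s s' : ℕ → ℕ),
  PowerSeries.X ^ (n + 1) ∣
    A - ∏ m ∈ Finset.Icc 1 n, ((1 : PowerSeries (ZMod p)) - PowerSeries.X ^ m) ^ (s m) →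
  PowerSeries.X ^ (n + 1) ∣
    B - ∏ m ∈ Finset.Icc 1 n, ((1 : PowerSeries (ZMod p)) - PowerSeries.X ^ m) ^ (s' m) →
  (∀ m, 1 ≤ m → m ≤ n → (p ∣ m ∨ p * m ≤ n) → s m = s' m) →
  PowerSeries.X ^ n ∣
    (PowerSeries.derivative (ZMod p) A * B - A * PowerSeries.derivative (ZMod p) B) →
  PowerSeries.X ^ (n + 1) ∣ A - B

open Classical in
/-- The vectors orthogonal to all `z t`. -/
noncomputable def ann {p n γ : ℕ} [Fact p.Prime] (z : Fin γ → Fin n → ZMod p) :
    Finset (Fin n → ZMod p) :=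
  Finset.univ.filter (fun a => ∀ t, ∑ i, a i * z t i = 0)

/-- **Task 4** (sum over tuples). Let `S` be a finite set with vectors `z x ≠ 0` in `F_p ^ n` such that
each vector occurs at most `F` times. Then the sum over all `γ`-tuples of `(|ann| / p ^ n) ^ m` is at
most `(|S| / p ^ m) (p ^ γ F + |S| / p ^ m) ^ (γ - 1)`. Proof: induction on the length of the tuple
(`Fin.snoc` or `Fin.cons`; prove the bound for the tuples of length `t + 1` from that for the length
`t`, with `p ^ γ` for fixed `γ ≥ t + 1`): if the last vector is in the span of the others (at most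
`p ^ t F ≤ p ^ γ F` elements of `S`: the span of `t` vectors has at most `p ^ t` elements) use
`|ann|` does not increase; otherwise there is `b` in the annihilator of the others with
`⟨b, z⟩ = 1`, and `|ann(new)| * p ≤ |ann(old)|` by the injection `(a, c) ↦ a + c b`. For `t = 1` the span
of the empty family is `0`, so all vectors are of the second kind. -/
def S_sum : Prop := ∀ (p : ℕ) [Fact p.Prime] (n γ m F : ℕ) (ι : Type) [Fintype ι] [DecidableEq ι]
  (z : ι → Fin n → ZMod p), 1 ≤ γ → (∀ x, z x ≠ 0) →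
  (∀ v : Fin n → ZMod p, (Finset.univ.filter (fun x => z x = v)).card ≤ F) →
  ∑ τ : Fin γ → ι, (((ann (fun t => z (τ t))).card : ℝ) / (p : ℝ) ^ n) ^ m ≤
    ((Fintype.card ι : ℝ) / (p : ℝ) ^ m) *
      ((p : ℝ) ^ γ * F + (Fintype.card ι : ℝ) / (p : ℝ) ^ m) ^ (γ - 1)

open Classical in
/-- **Task 5** (rows). The number of rows `a ∈ F_p ^ N` satisfying `γ` affine equations whose linear
parts involve the first `n` coordinates through the vectors `z t`: at most `|ann z| p ^ (N - n)`.
Proof: for fixed values of the last `N - n` coordinates the solutions in the first `n` coordinates are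
empty or a translate of `ann z`. -/
def S_row : Prop := ∀ (p : ℕ) [Fact p.Prime] (n N γ : ℕ) (hn : n ≤ N) (z : Fin γ → Fin n → ZMod p)
  (Z : Fin γ → Fin N → ZMod p) (u : Fin γ → ZMod p),
  (∀ t (i : Fin n), Z t (Fin.castLE hn i) = z t i) →
  (Finset.univ.filter (fun a : Fin N → ZMod p => ∀ t, u t + ∑ i, a i * Z t i = 0)).card ≤
    (ann z).card * p ^ (N - n)

/-- **Task 6** (fibres). Fix the product modulo `X ^ (n + 1)` and the first `n` coefficients of the
logarithmic derivative of `x`: there are at most `p ^ (n / p)` pairs. Proof: if `x`, `x̂` have the same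
coefficients `lc x i`, `i < n`, then the derivative of the power series `G = x / x̂` is divisible by
`X ^ n`, so `coeff j G = 0` for all `1 ≤ j ≤ n` with `p ∤ j`, and the residue of `x` modulo `X ^ (n + 1)`
is one of at most `p ^ (n / p)` (choose the coefficients of `G` at the multiples of `p` in `[1, n]`);
`x` is determined by its residue since its degree is `≤ n`, and `y` is determined by `x` since
`x y` is fixed modulo `X ^ (n + 1)`, `x` is invertible and `y` has degree `≤ n`. -/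
def S_fib : Prop := ∀ (p : ℕ) [Fact p.Prime] (n m₁ m₂ : ℕ), m₁ ≤ n → m₂ ≤ n →
  ∀ (W : Polynomial (ZMod p)) (v : ℕ → ZMod p),
  {z : Polynomial (ZMod p) × Polynomial (ZMod p) | z.1 ∈ Pr p m₁ ∧ z.2 ∈ Pr p m₂ ∧
    Polynomial.X ^ (n + 1) ∣ z.1 * z.2 - W ∧ ∀ i < n, lc z.1 i = v i}.ncard ≤ p ^ (n / p)

/-- **Task 7** (pairs with the same product modulo `X ^ (n + 1)`). If `m₁ ≠ m₂` and `W` has degree
`≤ m₁ + m₂` then there are at most `p ^ (m₁ + m₂ - n)` pairs. Proof: `x y - W = X ^ (n + 1) h` with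
`h` of degree `≤ m₁ + m₂ - n - 1` (at most `p ^ (m₁ + m₂ - n)` possibilities, also if `n ≥ m₁ + m₂`,
when `h = 0`), and `(x, y) ↦ x y` is injective on `Pr p m₁ × Pr p m₂`: unique factorisation, and
associated polynomials with the constant coefficient `1` are equal. Also: finiteness of the set. -/
def S_mult : Prop := ∀ (p : ℕ) [Fact p.Prime] (n m₁ m₂ : ℕ), m₁ ≠ m₂ →
  ∀ (W : Polynomial (ZMod p)), W.natDegree ≤ m₁ + m₂ →
  {z : Polynomial (ZMod p) × Polynomial (ZMod p) | z.1 ∈ Pr p m₁ ∧ z.2 ∈ Pr p m₂ ∧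
    Polynomial.X ^ (n + 1) ∣ z.1 * z.2 - W}.Finite ∧
  {z : Polynomial (ZMod p) × Polynomial (ZMod p) | z.1 ∈ Pr p m₁ ∧ z.2 ∈ Pr p m₂ ∧
    Polynomial.X ^ (n + 1) ∣ z.1 * z.2 - W}.ncard ≤ p ^ (m₁ + m₂ - n)

/-- **Task 8** (logarithmic derivatives). (a) `lc` is additive; (b) it depends on the power series
modulo `X ^ (n + 1)` only; (c) it separates the irreducible polynomials of degree `m` with constant
coefficient `1` if `2 m ≤ n`. Proof of (c): `x' y - x y'` is divisible by `X ^ n` and has degree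
`≤ 2 m - 1 < n`, so it is `0`, `x ∣ x' y`; since `x' ≠ 0` (perfect field, separable) has smaller degree,
`x ∣ y`, so `x`, `y` are associated and equal. -/
def S_lc : Prop := ∀ (p : ℕ) [Fact p.Prime],
  (∀ (f g : Polynomial (ZMod p)), f.coeff 0 = 1 → g.coeff 0 = 1 → ∀ i, lc (f * g) i = lc f i + lc g i) ∧
  (∀ (f g : Polynomial (ZMod p)) (n : ℕ), f.coeff 0 = 1 → g.coeff 0 = 1 →
    Polynomial.X ^ (n + 1) ∣ f - g → ∀ i < n, lc f i = lc g i) ∧
  (∀ (f g : Polynomial (ZMod p)) (n : ℕ), f.coeff 0 = 1 → g.coeff 0 = 1 →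
    (∀ i < n, lc f i = lc g i) → PowerSeries.X ^ n ∣
      (PowerSeries.derivative (ZMod p) (f : PowerSeries (ZMod p)) * (g : PowerSeries (ZMod p)) -
        (f : PowerSeries (ZMod p)) * PowerSeries.derivative (ZMod p) (g : PowerSeries (ZMod p)))) ∧
  (∀ (m n : ℕ) (f g : Polynomial (ZMod p)), 2 * m ≤ n → f ∈ Pr p m → g ∈ Pr p m →
    (∀ i < n, lc f i = lc g i) → f = g)

/-- **Task 9** (unique factorisation). If `x, x' ∈ Pr p m₁`, `y, y' ∈ Pr p m₂`, `m₁ + m₂ ≤ n` and
`x y ≡ x' y'` modulo `X ^ (n + 1)` then `x y = x' y'` and `(x, y) = (x', y')` or `(x, y) = (y', x')`. -/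
def S_pair : Prop := ∀ (p : ℕ) [Fact p.Prime] (n m₁ m₂ : ℕ), m₁ + m₂ ≤ n →
  ∀ x y x' y' : Polynomial (ZMod p), x ∈ Pr p m₁ → x' ∈ Pr p m₁ → y ∈ Pr p m₂ → y' ∈ Pr p m₂ →
  Polynomial.X ^ (n + 1) ∣ x * y - x' * y' → (x = x' ∧ y = y') ∨ (x = y' ∧ y = x')

end Pool.Agent.H601.FP
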