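import Pool.Agent.H601.FP.Def2

/-!
# From few bad elements to a `B_2[g]` set
-/

set_option autoImplicit false

namespace Pool.Agent.H695.FP

open Pool.Agent.H601.FP

/-- The set attached to `S`. -/
def AA (P : Prm) (S : St P.p) : Set ℕ :=
  {n | ∃ k x, 1 ≤ k ∧ x ∈ Pr P.p (P.d * k) ∧ ¬ Bad P S k x ∧ n = el P S k x}

/-- Data of one representation. -/
structure RD (P : Prm) (S : St P.p) (n : ℕ) (p : ℕ × ℕ) (k l : ℕ)
    (x y : Polynomial (ZMod P.p)) : Prop where
  hl1 : 1 ≤ l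
  hlk : l ≤ k
  hx : x ∈ Pr P.p (P.d * k)
  hy : y ∈ Pr P.p (P.d * l)
  hxB : ¬ Bad P S k x
  hs : el P S k x + el P S l y = n
  hp : (p.1 = el P S k x ∧ p.2 = el P S l y) ∨ (p.1 = el P S l y ∧ p.2 = el P S k x)
  hle : p.1 ≤ p.2

theorem exists_RD (P : Prm) (S : St P.p) (n : ℕ) (p : ℕ × ℕ) (hp : p ∈ RepF (AA P S) n) :
    ∃ k l x y, RD P S n p k l x y := by
  obtain ⟨⟨k, x, h1, h2, h3, h4⟩, ⟨l, y, g1, g2, g3, g4⟩, hle, hs⟩ := hp
  rcases le_total l k with h | h
  · exact ⟨k, l, x, y, ⟨g1, h, h2, g2, h3, by rw [← h4, ← g4]; exact hs, Or.inl ⟨h4, g4⟩, hle⟩⟩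
  · exact ⟨l, k, y, x, ⟨h1, h, g2, h2, g3, by rw [← h4, ← g4, add_comm]; exact hs,
      Or.inr ⟨h4, g4⟩, hle⟩⟩

theorem pair_eq {P : Prm} {S : St P.p} {n : ℕ} {p p' : ℕ × ℕ} {k l k' l' : ℕ}
    {x y x' y' : Polynomial (ZMod P.p)}
    (h : RD P S n p k l x y) (h' : RD P S n p' k' l' x' y')
    (e : (el P S k x = el P S k' x' ∧ el P S l y = el P S l' y') ∨
      (el P S k x = el P S l' y' ∧ el P S l y = el P S k' x')) : p = p' := by
  have h1 := h.hle
  have h2 := h'.hle
  have : p.1 = p'.1 ∧ p.2 = p'.2 := by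
    rcases h.hp with ⟨a1, a2⟩ | ⟨a1, a2⟩ <;> rcases h'.hp with ⟨b1, b2⟩ | ⟨b1, b2⟩ <;>
    rcases e with ⟨c1, c2⟩ | ⟨c1, c2⟩ <;>
    · rw [a1, a2] at h1
      rw [b1, b2] at h2
      rw [a1, a2, b1, b2]
      omega
  exact Prod.ext this.1 this.2

theorem RepF_finite (A : Set ℕ) (n : ℕ) : (RepF A n).Finite := by
  apply (Finset.finite_toSet (Finset.HasAntidiagonal.antidiagonal n)).subset
  rintro p ⟨_, _, _, h⟩
  rw [Finset.mem_coe, Finset.HasAntidiagonal.mem_antidiagonal]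
  exact h

theorem el_pos {P : Prm} (S : St P.p) {k : ℕ} (hk : 1 ≤ k) (f : Polynomial (ZMod P.p)) :
    0 < el P S k f := by
  have ha := pos_a P
  have hak : 0 < P.a * k := Nat.mul_pos ha hk
  have h0 : 0 < dg P S k f 0 * Wt P 0 := by
    have h1 := dg_zero P S k f 0
    rw [mul_zero, if_pos hak] at h1
    rw [h1]
    have hW : Wt P 0 = 1 := by
      unfold Wt
      rw [Finset.range_zero, Finset.prod_empty]
    rw [hW, mul_one]
    exact Nat.add_pos_left P.hp.pos _
  unfold el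
  exact lt_of_lt_of_le h0 (Finset.single_le_sum (f := fun i => dg P S k f i * Wt P i)
    (fun i _ => Nat.zero_le _) (Finset.mem_range.2 (by omega)))

/-- Equal sums give congruent products. -/
theorem dvd_of {P : Prm} (hDS : DS P) (hu : S_uniq) (hlc : S_lc) (hstr : S_str) (S : St P.p)
    {k l : ℕ} (hlk : l ≤ k) {x y x' y' : Polynomial (ZMod P.p)}
    (hx : x ∈ Pr P.p (P.d * k)) (hy : y ∈ Pr P.p (P.d * l))
    (hx' : x' ∈ Pr P.p (P.d * k)) (hy' : y' ∈ Pr P.p (P.d * l))
    (h : el P S k x + el P S l y = el P S k x' + el P S l y') :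
    Polynomial.X ^ (P.s * l + 1) ∣ x * y - x' * y' := by
  obtain ⟨_, _, h1, _, h3⟩ := sum_struct P S hlk hlk h
  apply hstr P hDS hu hlc S k l hlk x y x' y' hx.2.2 hy.2.2 hx'.2.2 hy'.2.2
  · intro j hj
    exact h1 j (lt_of_lt_of_le hj (Nat.mul_le_mul_right _ P.hsa))
  · exact h3

theorem el_inj {P : Prm} (hDS : DS P) (hu : S_uniq) (hlc : S_lc) (hpair : S_pair) (hstr : S_str)
    (S : St P.p) {k : ℕ} {x x' : Polynomial (ZMod P.p)}
    (hx : x ∈ Pr P.p (P.d * k)) (hx' : x' ∈ Pr P.p (P.d * k))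
    (h : el P S k x = el P S k x') : x = x' := by
  have h1 := dvd_of hDS hu hlc hstr S (le_refl k) hx hx hx' hx' (by rw [h])
  have h2 : P.d * k + P.d * k ≤ P.s * k := by
    have h3 := Nat.mul_le_mul_right k P.hds
    rw [two_mul, add_mul] at h3
    exact h3
  rcases hpair P.p (P.s * k) (P.d * k) (P.d * k) h2 x x x' x' hx hx' hx hx' h1 with h3 | h3
  · exact h3.1
  · exact h3.1

theorem RepF_le {P : Prm} (hDS : DS P) (hu : S_uniq) (hlc : S_lc) (hpair : S_pair)
    (hstr : S_str) (S : St P.p) (n : ℕ) : (RepF (AA P S) n).ncard ≤ P.g := by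
  classical
  by_contra hcon
  push Not at hcon
  have hfin := RepF_finite (AA P S) n
  have hcard : Fintype.card (Fin (P.g + 1)) ≤ Fintype.card hfin.toFinset := by
    rw [Fintype.card_fin, Fintype.card_coe, ← Set.ncard_eq_toFinset_card _ hfin]
    exact hcon
  obtain ⟨e⟩ := Function.Embedding.nonempty_of_card_le hcard
  have hmem : ∀ t, ((e t : hfin.toFinset) : ℕ × ℕ) ∈ RepF (AA P S) n := fun t =>
    hfin.mem_toFinset.1 (e t).2
  have hpinj : ∀ t t', ((e t : hfin.toFinset) : ℕ × ℕ) = ((e t' : hfin.toFinset) : ℕ × ℕ) →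
      t = t' := fun t t' h => e.injective (Subtype.ext h)
  choose k l x y r using fun t => exists_RD P S n _ (hmem t)
  have hkl : ∀ t, k t = k 0 ∧ l t = l 0 := by
    intro t
    obtain ⟨h1, h2, _⟩ := sum_struct P S (r t).hlk (r 0).hlk ((r t).hs.trans (r 0).hs.symm)
    exact ⟨h1, h2⟩
  have r' : ∀ t, RD P S n ((e t : hfin.toFinset) : ℕ × ℕ) (k 0) (l 0) (x t) (y t) := by
    intro t
    have h := r t
    rw [(hkl t).1, (hkl t).2] at h
    exact h
  clear r hkl
  generalize k 0 = K at r'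
  generalize l 0 = L at r'
  have hLK := (r' 0).hlk
  have hL1 := (r' 0).hl1
  have hsum : ∀ t t', el P S K (x t) + el P S L (y t) = el P S K (x t') + el P S L (y t') :=
    fun t t' => (r' t).hs.trans (r' t').hs.symm
  have ixe : ∀ t t', el P S K (x t) = el P S K (x t') → t = t' := by
    intro t t' h
    apply hpinj
    apply pair_eq (r' t) (r' t') (Or.inl ⟨h, ?_⟩)
    have h1 := hsum t t'
    omega
  have iye : ∀ t t', el P S L (y t) = el P S L (y t') → t = t' := by
    intro t t' h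
    apply hpinj
    apply pair_eq (r' t) (r' t') (Or.inl ⟨?_, h⟩)
    have h1 := hsum t t'
    omega
  have hg := P.hg
  by_cases hd : P.d * K + P.d * L ≤ P.s * L
  · have hex : ∃ t1 : Fin (P.g + 1), t1 ≠ 0 := by
      refine ⟨⟨1, by omega⟩, ?_⟩
      intro h
      have h1 := congrArg Fin.val h
      simp at h1
    obtain ⟨t1, ht1⟩ := hex
    have hdv := dvd_of hDS hu hlc hstr S hLK (r' t1).hx (r' t1).hy (r' 0).hx (r' 0).hy (hsum t1 0)
    rcases hpair P.p (P.s * L) (P.d * K) (P.d * L) hd (x t1) (y t1) (x 0) (y 0) (r' t1).hx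
      (r' 0).hx (r' t1).hy (r' 0).hy hdv with ⟨h1, _⟩ | ⟨h1, h2⟩
    · exact ht1 (ixe t1 0 (by rw [h1]))
    · have h3 : P.d * K = P.d * L := by
        rw [← (r' t1).hx.2.1, h1, (r' 0).hy.2.1]
      have h4 : K = L := Nat.eq_of_mul_eq_mul_left (by have := P.hd; omega) h3
      subst h4
      apply ht1
      apply hpinj
      exact pair_eq (r' t1) (r' 0) (Or.inr ⟨by rw [h1], by rw [h2]⟩)
  · push Not at hd
    have hlt : L < K := by
      rcases Nat.lt_or_ge L K with h | h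
      · exact h
      · exfalso
        have h1 : K = L := le_antisymm h hLK
        subst h1
        have h3 := Nat.mul_le_mul_right K P.hds
        rw [two_mul, add_mul] at h3
        omega
    apply (r' 0).hxB
    have hgam : gam P K L ≤ P.g := by
      unfold gam
      split_ifs
      · exact le_refl _
      · exact hg
    let ι : Fin (gam P K L) → Fin (P.g + 1) := fun t => ⟨t.1 + 1, by have := t.2; omega⟩
    have hι0 : ∀ t, ι t ≠ 0 := by
      intro t h
      have h1 := congrArg Fin.val h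
      simp [ι] at h1
    have hιi : ∀ t t', ι t = ι t' → t = t' := by
      intro t t' h
      have h1 : t.1 + 1 = t'.1 + 1 := congrArg Fin.val h
      apply Fin.ext
      omega
    refine ⟨L, y 0, fun t => x (ι t), fun t => y (ι t), ⟨hL1, hlt, ?_⟩, ?_⟩
    · rw [mul_add]
      exact hd
    · refine ⟨(r' 0).hx, (r' 0).hy, fun t => (r' _).hx, fun t => (r' _).hy, ?_, ?_, ?_, ?_, ?_, ?_,
        ?_⟩
      · intro t t' h
        exact hιi t t' (ixe _ _ (congrArg (el P S K) h))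
      · intro t t' h
        exact hιi t t' (iye _ _ (congrArg (el P S L) h))
      · intro t h
        exact hι0 t (ixe _ _ (congrArg (el P S K) h))
      · intro t h
        exact hι0 t (iye _ _ (congrArg (el P S L) h))
      · intro t
        exact dvd_of hDS hu hlc hstr S hLK (r' _).hx (r' _).hy (r' 0).hx (r' 0).hy (hsum _ 0)
      · intro j hj t
        exact (sum_struct P S hLK hLK (hsum (ι t) 0)).2.2.1 j hj
      · intro j hj1 hj2 t
        exact (sum_struct P S hLK hLK (hsum (ι t) 0)).2.2.2.1 j hj1 hj2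

/-- **S_core.** -/
theorem s_core : S_core := by
  intro P _ hDS hu hlc hpair hstr hfin hT
  obtain ⟨S, hS⟩ := hT
  refine ⟨AA P S, ?_, fun n => RepF_le hDS hu hlc hpair hstr S n, ?_⟩
  · rintro a ⟨k, x, h1, _, _, rfl⟩
    exact el_pos S h1 x
  · intro k hk N hN
    have h1 := hS k hk
    have hsub : (el P S k) '' (Pr P.p (P.d * k) \ {x | x ∈ Pr P.p (P.d * k) ∧ Bad P S k x}) ⊆
        AA P S ∩ Set.Icc 1 N := by
      rintro a ⟨x, ⟨hx, hxB⟩, rfl⟩
      refine ⟨⟨k, x, hk, hx, fun h => hxB ⟨hx, h⟩, rfl⟩, ?_, ?_⟩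
      · exact el_pos S hk x
      · exact (el_lt P S k x).le.trans hN
    have h2 := Set.ncard_le_ncard hsub ((Set.finite_Icc 1 N).inter_of_right _)
    have hinj : Set.InjOn (el P S k)
        (Pr P.p (P.d * k) \ {x | x ∈ Pr P.p (P.d * k) ∧ Bad P S k x}) := by
      intro x hx x' hx' he
      exact el_inj hDS hu hlc hpair hstr S hx.1 hx'.1 he
    have hss : {x | x ∈ Pr P.p (P.d * k) ∧ Bad P S k x} ⊆ Pr P.p (P.d * k) := fun x hx => hx.1
    have h3 := Set.ncard_sdiff_add_ncard_of_subset hss (hfin (P.d * k))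
    rw [hinj.ncard_image] at h2
    omega

end Pool.Agent.H695.FP
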