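import Pool.Agent.H601.FP.Fin
import Pool.Agent.H601.FP.SCore

open Filter

namespace Pool.Agent.H601.FP

/-- For every `g ≥ 1` and `c < 1 / 2 - 3 / (8 (2 g + 1))`: a set with at most `g` representations and counting
function `≥ N ^ c`. -/
theorem main (g : ℕ) (hg : 1 ≤ g) (c : ℝ) (hc0 : 0 < c) (hc : c < 1 / 2 - 3 / (8 * (2 * (g : ℝ) + 1))) :
    ∃ A : Set ℕ, (∀ a ∈ A, 0 < a) ∧
      (∀ n, {p : ℕ × ℕ | p.1 ∈ A ∧ p.2 ∈ A ∧ p.1 ≤ p.2 ∧ p.1 + p.2 = n}.ncard ≤ g) ∧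
      ∀ᶠ N : ℕ in atTop, (N : ℝ) ^ c ≤ ((A ∩ Set.Icc 1 N).ncard : ℝ) :=
  final Pool.Agent.H695.FP.s_core g hg c hc0 hc

end Pool.Agent.H601.FP
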