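import Pool.Agent.H601.FP.Def

/-! # Compactness (helper296, for helper601) -/

namespace Pool.Agent.H601.FP

namespace SCpt

theorem cont_DD (P : Prm) (k j : ℕ) (f : Polynomial (ZMod P.p)) :
    Continuous fun S : St P.p => DD P S k j f := by
  unfold DD
  by_cases h : j < P.s * k
  · simp only [h, if_true]
    unfold mix
    refine continuous_const.add (continuous_finsetSum _ fun i _ => ?_)
    have h1 : Continuous fun S : St P.p => S.1 j i :=
      (continuous_apply_apply j i).comp continuous_fst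
    exact h1.mul continuous_const
  · simp only [h, if_false]
    have h1 : Continuous fun S : St P.p => S.2 j f :=
      (continuous_apply_apply j f).comp continuous_snd
    exact h1

theorem isOpen_eq' {X Y : Type*} [TopologicalSpace X] [TopologicalSpace Y] [DiscreteTopology Y]
    {f g : X → Y} (hf : Continuous f) (hg : Continuous g) : IsOpen {x | f x = g x} :=
  (isOpen_discrete {z : Y × Y | z.1 = z.2}).preimage (hf.prodMk hg)

theorem isOpen_BadT (P : Prm) (k l : ℕ) (x0 y0 : Polynomial (ZMod P.p))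
    (x y : Fin (gam P k l) → Polynomial (ZMod P.p)) :
    IsOpen {S : St P.p | BadT P S k l x0 y0 x y} := by
  by_cases hne : ∃ S0 : St P.p, BadT P S0 k l x0 y0 x y
  · obtain ⟨S0, h0⟩ := hne
    have e : {S : St P.p | BadT P S k l x0 y0 x y} =
        (⋂ j ∈ Finset.range (P.a * l), ⋂ t : Fin (gam P k l), {S : St P.p |
          DD P S k j (x t) + DD P S l j (y t) = DD P S k j x0 + DD P S l j y0}) ∩
        (⋂ j ∈ (Finset.range (P.a * k)).filter (fun j => P.a * l ≤ j), ⋂ t : Fin (gam P k l),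
          {S : St P.p | DD P S k j (x t) = DD P S k j x0}) := by
      ext S
      simp only [Set.mem_ofPred_eq, Set.mem_inter_iff, Set.mem_iInter, Finset.mem_range,
        Finset.mem_filter]
      constructor
      · intro h
        exact ⟨fun j hj t => h.c1 j hj t, fun j hj t => h.c2 j hj.2 hj.1 t⟩
      · rintro ⟨h1, h2⟩
        exact ⟨h0.hx0, h0.hy0, h0.hx, h0.hy, h0.ix, h0.iy, h0.nx, h0.ny, h0.dv,
          fun j hj t => h1 j hj t, fun j hj1 hj2 t => h2 j ⟨hj2, hj1⟩ t⟩
    rw [e]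
    refine IsOpen.inter ?_ ?_
    · refine isOpen_biInter_finset fun j _ => isOpen_iInter_of_finite fun t => ?_
      exact isOpen_eq' ((cont_DD P k j _).add (cont_DD P l j _))
        ((cont_DD P k j _).add (cont_DD P l j _))
    · refine isOpen_biInter_finset fun j _ => isOpen_iInter_of_finite fun t => ?_
      exact isOpen_eq' (cont_DD P k j _) (cont_DD P k j _)
  · have e : {S : St P.p | BadT P S k l x0 y0 x y} = ∅ := by
      ext S
      simp only [Set.mem_ofPred_eq, Set.mem_empty_iff_false, iff_false]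
      exact fun h => hne ⟨S, h⟩
    rw [e]
    exact isOpen_empty

theorem isOpen_Bad (P : Prm) (k : ℕ) (x0 : Polynomial (ZMod P.p)) :
    IsOpen {S : St P.p | Bad P S k x0} := by
  have e : {S : St P.p | Bad P S k x0} = ⋃ (l : ℕ) (y0 : Polynomial (ZMod P.p))
      (x : Fin (gam P k l) → Polynomial (ZMod P.p)) (y : Fin (gam P k l) → Polynomial (ZMod P.p))
      (_ : Dang P k l), {S : St P.p | BadT P S k l x0 y0 x y} := by
    ext S
    simp only [Set.mem_ofPred_eq, Set.mem_iUnion, Bad, exists_prop]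
  rw [e]
  exact isOpen_iUnion fun l => isOpen_iUnion fun y0 => isOpen_iUnion fun x => isOpen_iUnion fun y =>
    isOpen_iUnion fun _ => isOpen_BadT P k l x0 y0 x y

/-- the set of the objects with few bad elements at the scale `k` -/
def CC (P : Prm) (k : ℕ) : Set (St P.p) :=
  {S | 2 * {x | x ∈ Pr P.p (P.d * k) ∧ Bad P S k x}.ncard ≤ (Pr P.p (P.d * k)).ncard}

theorem isClosed_CC (P : Prm) (k : ℕ) (hfin : (Pr P.p (P.d * k)).Finite) : IsClosed (CC P k) := by
  rw [← isOpen_compl_iff, isOpen_iff_forall_mem_open]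
  intro S hS
  have hS' : ¬ 2 * {x | x ∈ Pr P.p (P.d * k) ∧ Bad P S k x}.ncard ≤ (Pr P.p (P.d * k)).ncard := hS
  have hBf : {x | x ∈ Pr P.p (P.d * k) ∧ Bad P S k x}.Finite := hfin.subset fun x hx => hx.1
  refine ⟨⋂ x ∈ {x | x ∈ Pr P.p (P.d * k) ∧ Bad P S k x}, {S' : St P.p | Bad P S' k x}, ?_, ?_, ?_⟩
  · intro S' hS'1 hS'2
    apply hS'
    have h1 : 2 * {x | x ∈ Pr P.p (P.d * k) ∧ Bad P S' k x}.ncard ≤ (Pr P.p (P.d * k)).ncard := hS'2
    have h2 : {x | x ∈ Pr P.p (P.d * k) ∧ Bad P S k x} ⊆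
        {x | x ∈ Pr P.p (P.d * k) ∧ Bad P S' k x} := by
      intro x hx
      have h3 := Set.mem_iInter₂.1 hS'1 x hx
      exact ⟨hx.1, h3⟩
    have h4 := Set.ncard_le_ncard h2 (hfin.subset fun x hx => hx.1)
    omega
  · exact hBf.isOpen_biInter fun x _ => isOpen_Bad P k x
  · exact Set.mem_iInter₂.2 fun x hx => hx.2

end SCpt

open SCpt in
theorem s_cpt : S_cpt := by
  intro P hfin hT
  have h := IsCompact.nonempty_iInter_of_sequence_nonempty_isCompact_isClosed
    (fun J : ℕ => ⋂ k ∈ Finset.Icc 1 J, CC P k) ?_ ?_ ?_ ?_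
  · obtain ⟨S, hS⟩ := h
    refine ⟨S, fun k hk => ?_⟩
    have h1 := Set.mem_iInter₂.1 (Set.mem_iInter.1 hS k) k (Finset.mem_Icc.2 ⟨hk, le_refl k⟩)
    exact h1
  · intro J S hS
    refine Set.mem_iInter₂.2 fun k hk => ?_
    rw [Finset.mem_Icc] at hk
    exact Set.mem_iInter₂.1 hS k (Finset.mem_Icc.2 ⟨hk.1, hk.2.trans (Nat.le_succ J)⟩)
  · intro J
    obtain ⟨S, hS⟩ := hT J
    refine ⟨S, Set.mem_iInter₂.2 fun k hk => ?_⟩
    rw [Finset.mem_Icc] at hk
    exact hS k hk.1 hk.2
  · exact (isClosed_biInter fun k _ => isClosed_CC P k (hfin _)).isCompact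
  · intro J
    exact isClosed_biInter fun k _ => isClosed_CC P k (hfin _)

end Pool.Agent.H601.FP
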