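import Pool.Agent.H601.FP.El

/-!
# Bad configurations, and the statements of the remaining steps
-/

open Filter

namespace Pool.Agent.H601.FP

/-- The length of the bad tuples for the scales `(k, l)`. -/
def gam (P : Prm) (k l : ℕ) : ℕ := if P.d * k ≤ P.s * l then P.g else 1

/-- A bad configuration for the scales `(k, l)`: `γ + 1` pairs with equal sums. -/
structure BadT (P : Prm) (S : St P.p) (k l : ℕ) (x0 y0 : Polynomial (ZMod P.p))
    (x y : Fin (gam P k l) → Polynomial (ZMod P.p)) : Prop where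
  hx0 : x0 ∈ Pr P.p (P.d * k)
  hy0 : y0 ∈ Pr P.p (P.d * l)
  hx : ∀ t, x t ∈ Pr P.p (P.d * k)
  hy : ∀ t, y t ∈ Pr P.p (P.d * l)
  ix : Function.Injective x
  iy : Function.Injective y
  nx : ∀ t, x t ≠ x0
  ny : ∀ t, y t ≠ y0
  dv : ∀ t, Polynomial.X ^ (P.s * l + 1) ∣ x t * y t - x0 * y0
  c1 : ∀ j < P.a * l, ∀ t, DD P S k j (x t) + DD P S l j (y t) = DD P S k j x0 + DD P S l j y0
  c2 : ∀ j, P.a * l ≤ j → j < P.a * k → ∀ t, DD P S k j (x t) = DD P S k j x0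

/-- The pair of scales is dangerous. -/
def Dang (P : Prm) (k l : ℕ) : Prop := 1 ≤ l ∧ l < k ∧ P.s * l < P.d * (k + l)

/-- The element `x0` of scale `k` is bad. -/
def Bad (P : Prm) (S : St P.p) (k : ℕ) (x0 : Polynomial (ZMod P.p)) : Prop :=
  ∃ (l : ℕ) (y0 : Polynomial (ZMod P.p)) (x y : Fin (gam P k l) → Polynomial (ZMod P.p)),
    Dang P k l ∧ BadT P S k l x0 y0 x y

/-- Few bad elements at the scales `k ≤ J`, for every `J`. -/
def T_fin (P : Prm) : Prop := ∀ J : ℕ, ∃ S : St P.p, ∀ k, 1 ≤ k → k ≤ J →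
  2 * {x | x ∈ Pr P.p (P.d * k) ∧ Bad P S k x}.ncard ≤ (Pr P.p (P.d * k)).ncard

/-- Few bad elements at all scales. -/
def T_inf (P : Prm) : Prop := ∃ S : St P.p, ∀ k, 1 ≤ k →
  2 * {x | x ∈ Pr P.p (P.d * k) ∧ Bad P S k x}.ncard ≤ (Pr P.p (P.d * k)).ncard

/-- The specification of the digits `δ`. -/
def DS (P : Prm) : Prop := ∀ F : PowerSeries (ZMod P.p), PowerSeries.constantCoeff F = 1 → ∀ n : ℕ,
  PowerSeries.X ^ (n + 1) ∣
    F - ∏ m ∈ Finset.Icc 1 n, ((1 : PowerSeries (ZMod P.p)) - PowerSeries.X ^ m) ^ (P.δ F m)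

/-- The bound for the expected number of bad configurations, divided by the number of elements. -/
noncomputable def BB (P : Prm) (k l : ℕ) : ℝ :=
  (P.p : ℝ) ^ (P.d * l) *
    (((P.p : ℝ) ^ (P.d * (k + l) - P.s * l) / (P.p : ℝ) ^ (P.s * k - P.a * l)) *
      ((P.p : ℝ) ^ (gam P k l) * (P.p : ℝ) ^ (P.s * l / P.p) +
        (P.p : ℝ) ^ (P.d * (k + l) - P.s * l) / (P.p : ℝ) ^ (P.s * k - P.a * l)) ^ (gam P k l - 1)) /
    ((P.p : ℝ) ^ (gam P k l)) ^ ((P.a * l - P.s * l) + (P.a * k - max (P.a * l) (P.s * k)))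

/-- The unordered representations of `n` as a sum of two elements of `A`. -/
def RepF (A : Set ℕ) (n : ℕ) : Set (ℕ × ℕ) := {p | p.1 ∈ A ∧ p.2 ∈ A ∧ p.1 ≤ p.2 ∧ p.1 + p.2 = n}

/-- **Task U** (upper bound for the number of primes). Proof: `f ↦ (i ↦ f.coeff (i + 1))`, `i < m`,
is injective on `Pr p m`. -/
def S_ub : Prop := ∀ (p : ℕ) [Fact p.Prime] (m : ℕ), (Pr p m).Finite ∧ (Pr p m).ncard ≤ p ^ m

/-- **Task N** (numerical inequality). All is a power of `p`; use `u + v ≤ 2 u v ≤ p u v` for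
`u, v ≥ 1`. Put `r = a - s = 4 q`, `n = s l`, `L = d (k + l) - s l > 0` (as `Dang`). Let
`m = s k - a l` (`0` if `a l ≥ s k`).
* `γ = 1`: the last factor is `1` and the exponent of `p` is
  `d l + L - m - (a l - s l) - (a k - max) = 2 d l + d k - a k` (as `max = a l + m`). If
  `d k > s l` it is `≤ - 6 q k` (as `l < d k / s`, with
  `2 d ^ 2 / s + d - a ≤ -6 q`).
* `γ = g`, `a l ≥ s k` (`m = 0`, `max = a l`): `(p ^ g p ^ (n / p) + p ^ L) ^ (g - 1) ≤
  p ^ ((g - 1) (g + 1 + n / p + L))`, and the exponent is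
  `d l + g L + (g - 1) (g + 1 + n / p) - g (a k - s l) = d l + g (d (k + l) - a k) + (g - 1) (g + 1 + n / p)`
  where `d l + g (d (k + l) - a k) ≤ - 3 q k` (use `(s - d) l < d k` from `Dang`).
* `γ = g`, `a l < s k`: `m = s k - a l`, `max = s k`; `L ≤ m` (as `(d + r) s ≤ a (s - d)`), so that
  `p ^ L / p ^ m ≤ 1` and the last factor is `≤ p ^ ((g - 1) (g + 1 + n / p))`; the exponent of the rest is
  `d l + L - m - g r l - g r k = l (2 d + r - g r) + k (d - s - g r) ≤ - q k` (use `l ≤ k`).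
In both cases `(g - 1) n / p ≤ g s k / p ≤ q k / 2` since `p ≥ 32 g ^ 2`, and
`- q k / 2 + g ^ 2 + g ≤ - k`. Finally `p ^ (-k) ≤ 8 ^ (-k)`. -/
def S_num : Prop := ∀ (P : Prm) (q : ℕ), 4 * (P.g ^ 2 + P.g) + 8 ≤ q → 32 * P.g ^ 2 ≤ P.p →
  P.a = 16 * P.g * q → P.s = (16 * P.g - 4) * q → P.d = (8 * P.g - 3) * q - 1 →
  ∀ k l, Dang P k l → BB P k l ≤ (1 / 8) ^ k

/-- **Task G** (growth). `c < 1/2 - 3/(16 g)`: choose first `q` large, so that
`c * (16 g q) < (8 g - 3) q - 1`, then a large prime `p`, so that even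
`c * (16 g q) (1 + 2 / p) log (4 p) < ((8 g - 3) q - 1) log p` (as `log (4 p) / log p → 1`); then for
`(4p)^(a k + 2 (a k / p)) ≤ N < (4p)^(a (k+1) + 2 (a (k+1) / p))` we have
`|A ∩ [1, N]| ≥ p ^ (d k) / (4 d k) ≥ N ^ c` if `k` is large. -/
def S_grow : Prop := ∀ (g : ℕ), 1 ≤ g → ∀ c : ℝ, 0 < c → c < 1 / 2 - 3 / (16 * (g : ℝ)) →
  ∃ q p : ℕ, p.Prime ∧ 4 * (g ^ 2 + g) + 8 ≤ q ∧ 32 * g ^ 2 ≤ p ∧
    ∀ A : Set ℕ, (∀ k, 1 ≤ k → ∀ N : ℕ, (4 * p) ^ (16 * g * q * k + 2 * (16 * g * q * k / p)) ≤ N →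
      p ^ (((8 * g - 3) * q - 1) * k) ≤
        4 * (((8 * g - 3) * q - 1) * k) * (A ∩ Set.Icc 1 N).ncard) →
    ∀ᶠ N : ℕ in atTop, (N : ℝ) ^ c ≤ ((A ∩ Set.Icc 1 N).ncard : ℝ)

/-- **Task C** (compactness). `St p` is a product of finite discrete spaces, hence compact
(Tychonoff; use the discrete topology on `ZMod p`). For `k ≥ 1` the set of the `S` with the property at
`k` is closed: if it fails for `S` then the finitely many conditions `BadT` witnessing that too many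
`x` are bad hold in a neighbourhood of `S` (they depend on finitely many coordinates of `S`, which
enter through `DD P S k j _`; `{S | Bad P S k x}` is open as a union of finite intersections of open
sets). Uses that `Pr p m` is finite. -/
def S_cpt : Prop := ∀ P : Prm, (∀ m, (Pr P.p m).Finite) → T_fin P → T_inf P

/-- **Task W** (size of the weights). -/
def S_wt : Prop := ∀ (P : Prm) (k : ℕ),
  Wt P (3 * (P.a * k)) ≤ (4 * P.p) ^ (P.a * k + 2 * (P.a * k / P.p))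

/-- **Task R** (structure). The mixed coefficients (`j < P.s * l ≤ P.s * k`, so `DD` is `mix` for both
scales) determine `lc x j + lc y j = lc x' j + lc y' j` by strong induction on `j`; put `A = x y`,
`B = x' y'` as power series, with the digit sums `P.δ x m + P.δ y m`, and use `S_lc` and `S_uniq`. -/
def S_str : Prop := ∀ (P : Prm), DS P → S_uniq → S_lc → ∀ (S : St P.p) (k l : ℕ), l ≤ k →
  ∀ x y x' y' : Polynomial (ZMod P.p), x.coeff 0 = 1 → y.coeff 0 = 1 → x'.coeff 0 = 1 →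
  y'.coeff 0 = 1 →
  (∀ j < P.s * l, DD P S k j x + DD P S l j y = DD P S k j x' + DD P S l j y') →
  (∀ m, 1 ≤ m → m ≤ P.s * l → (P.p ∣ m ∨ P.p * m ≤ P.s * l) →
        P.δ (x : PowerSeries (ZMod P.p)) m + P.δ (y : PowerSeries (ZMod P.p)) m =
        P.δ (x' : PowerSeries (ZMod P.p)) m + P.δ (y' : PowerSeries (ZMod P.p)) m) →
  Polynomial.X ^ (P.s * l + 1) ∣ x * y - x' * y'

/-- **Task F** (fresh coordinates). `E` is a set of pairs whose elements are determined by the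
coordinates outside the `γ` distinct points `y t`. Proof: the map
`E × (Fin γ → ZMod p) → α × (V → ZMod p)` which replaces the value at `y t` by `v t` is injective. -/
def S_fresh : Prop := ∀ (p : ℕ) [Fact p.Prime] (α V : Type) [Fintype α] [Fintype V] [DecidableEq α]
  [DecidableEq V] (γ : ℕ) (y : Fin γ → V), Function.Injective y →
  ∀ E : Finset (α × (V → ZMod p)),
  (∀ c ∈ E, ∀ c' ∈ E, c.1 = c'.1 → (∀ f, (∀ t, f ≠ y t) → c.2 f = c'.2 f) → c = c') →
  E.card * p ^ γ ≤ Fintype.card (α × (V → ZMod p))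

/-- The main construction: from few bad elements to the set. -/
def Concl (P : Prm) : Prop := ∃ A : Set ℕ, (∀ a ∈ A, 0 < a) ∧ (∀ n, (RepF A n).ncard ≤ P.g) ∧
  ∀ k, 1 ≤ k → ∀ N, Wt P (3 * (P.a * k)) ≤ N →
    (Pr P.p (P.d * k)).ncard ≤ 2 * (A ∩ Set.Icc 1 N).ncard

end Pool.Agent.H601.FP
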