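import Pool.Agent.H601.FP.Prob

namespace Pool.Agent.H601.FP

/-- The elements of scale `k` which are bad because of the scale `l`. -/
def BadL (P : Prm) (S : St P.p) (k l : ℕ) : Set (Polynomial (ZMod P.p)) :=
  {x0 | x0 ∈ Pr P.p (P.d * k) ∧ ∃ (y0 : Polynomial (ZMod P.p))
    (x y : Fin (gam P k l) → Polynomial (ZMod P.p)), BadT P S k l x0 y0 x y}

/-- The expected number of bad elements. -/
def Expect (P : Prm) : Prop := ∀ (N : ℕ) (U : Finset (Polynomial (ZMod P.p))) (k l : ℕ), Dang P k l →
  P.a * k ≤ N → Pr P.p (P.d * k) ⊆ (U : Set (Polynomial (ZMod P.p))) →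
  Pr P.p (P.d * l) ⊆ (U : Set (Polynomial (ZMod P.p))) →
  ∑ ω : Om P.p N U, ((BadL P (toSt ω) k l).ncard : ℝ) ≤
    (Fintype.card (Om P.p N U) : ℝ) * (((Pr P.p (P.d * k)).ncard : ℝ) * BB P k l)

/-- **Task M** (Markov). Given `J`, let `N = P.a * J` and let `U` be the union of the `Pr P.p (P.d * k)`,
`k ≤ J`. For `1 ≤ k ≤ J`: `{x | x ∈ Pr ∧ Bad P S k x}` is the union over `l < k` with `Dang P k l` of
`BadL P S k l`, so the sum over `ω` of its cardinality is at most
`|Om| |Pr| k / 8 ^ k ≤ |Om| |Pr| / 2 ^ (k + 1)`. If for every `ω` there was a `k` with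
`2 |bad_k| > |Pr|`, then `∑_k |bad_k(ω)| / |Pr| > 1 / 2` for every `ω`, and summing over `ω` gives a
contradiction with `∑_k 1 / 2 ^ (k + 1) ≤ 1 / 2`. (The same argument is `exists_good` in
`Pool/Agent/H601/BG/Avg.lean`, with `geo` there.) -/
def S_markov : Prop := ∀ P : Prm, (∀ m, (Pr P.p m).Finite) → (∀ k, 1 ≤ k → 0 < (Pr P.p (P.d * k)).ncard) →
  Expect P → (∀ k l, Dang P k l → BB P k l ≤ (1 / 8) ^ k) → T_fin P

/-- **Task K** (core). `A = {el P S k x | k ≥ 1, x ∈ Pr P.p (P.d * k), ¬ Bad P S k x}` for the `S` of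
`T_inf P`. Write the representations of `n` as `el P S k x + el P S l y` with `l ≤ k`, `l ≥ 1`
(swap if necessary; see `RD`, `exists_RD`, `pair_eq` in `Pool/Agent/H601/BH/Core.lean`).
If there are `g + 1` distinct ones `(k_t, l_t, x_t, y_t)`, `t : Fin (g + 1)`, then `sum_struct` gives
`k_t = k`, `l_t = l` for all `t`, and the first two hypotheses of `S_str` for each pair of them, so
`X ^ (s l + 1)` divides the differences `x_t y_t - x_0 y_0`. If `d k + d l ≤ s l` (in particular if `l = k`, as
`2 d ≤ s`), `S_pair` gives `(x_1, y_1) = (x_0, y_0)` or `(y_0, x_0)`; the representations are equal,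
a contradiction (if `l < k` the second case is impossible because of the degrees, if `l = k` it gives
the same unordered pair). Otherwise `Dang P k l`. `el P S k` is injective on `Pr P.p (P.d * k)`
(equality gives `DD P S k j x = DD P S k j x'` for all `j < s k` and the equality of the digits
`δ`: use `sum_struct` for `el P S k x + el P S k x = el P S k x' + el P S k x'`, then `S_str` or better
directly `S_pair` for `x * x ≡ x' * x'`), so the `x_t` are distinct and the `y_t` are distinct, and
`(x_0, y_0)`, `(x_t, y_t)_{1 ≤ t ≤ γ}` with `γ = gam P k l ≤ g` is a bad configuration (`BadT`), so `x_0` is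
`Bad`, a contradiction. Counting: `el P S k` is injective on the elements of scale `k` which are not bad (at
least half), with values `< Wt P (3 * (P.a * k))` (`el_lt`), and positive (the digit at the slot `0` is
`≥ P.p`). -/
def S_core : Prop := ∀ P : Prm, 1 ≤ P.g → DS P → S_uniq → S_lc → S_pair → S_str →
  (∀ m, (Pr P.p m).Finite) → T_inf P → Concl P

end Pool.Agent.H601.FP
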