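import Pool.Agent.H601.FP.Stm

namespace Pool.Agent.H601.FP

/-- Size parameters: `a` positions per unit of scale, the first `s` of them structured, primes of
degree `d` per unit of scale. -/
structure Prm where
  p : ℕ
  hp : p.Prime
  g : ℕ
  hg : 1 ≤ g
  a : ℕ
  s : ℕ
  d : ℕ
  hd : 2 ≤ d
  hds : 2 * d ≤ s
  hsa : s ≤ a
  δ : PowerSeries (ZMod p) → ℕ → ℕ
  hδ : ∀ F m, δ F m < p

/-- The primality instance. -/
instance (P : Prm) : Fact P.p.Prime := ⟨P.hp⟩

/-- The random objects: rows of a matrix and random digits. -/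
abbrev St (p : ℕ) : Type := (ℕ → ℕ → ZMod p) × (ℕ → Polynomial (ZMod p) → ZMod p)

/-- Mixed coefficients. -/
noncomputable def mix {p : ℕ} [Fact p.Prime] (row : ℕ → ZMod p) (j : ℕ)
    (f : Polynomial (ZMod p)) : ZMod p :=
  lc f j + ∑ i ∈ Finset.range j, row i * lc f i

/-- The main digit at the position `j` for the scale `k`. -/
noncomputable def DD (P : Prm) (S : St P.p) (k j : ℕ) (f : Polynomial (ZMod P.p)) : ZMod P.p :=
  if j < P.s * k then mix (S.1 j) j f else S.2 j f

/-- Bases of the mixed radix expansion. -/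
def Bs (P : Prm) (i : ℕ) : ℕ :=
  if i % 3 = 0 then 4 * P.p else if P.p ∣ i / 3 + 1 then 2 * P.p else 1

/-- Weights of the mixed radix expansion. -/
def Wt (P : Prm) (i : ℕ) : ℕ := ∏ j ∈ Finset.range i, Bs P j

/-- Digits. -/
noncomputable def dg (P : Prm) (S : St P.p) (k : ℕ) (f : Polynomial (ZMod P.p)) (i : ℕ) : ℕ :=
  if i / 3 < P.a * k then
    if i % 3 = 0 then P.p + (DD P S k (i / 3) f).val
    else if P.p ∣ i / 3 + 1 ∧ i / 3 < P.s * k then
      (if i % 3 = 1 then P.δ (f : PowerSeries (ZMod P.p)) ((i / 3 + 1) / P.p)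
        else P.δ (f : PowerSeries (ZMod P.p)) (i / 3 + 1))
    else 0
  else 0

/-- The element of the set attached to `f` at the scale `k`. -/
noncomputable def el (P : Prm) (S : St P.p) (k : ℕ) (f : Polynomial (ZMod P.p)) : ℕ :=
  ∑ i ∈ Finset.range (3 * (P.a * k)), dg P S k f i * Wt P i

theorem pos_a (P : Prm) : 0 < P.a := by
  have := P.hd
  have := P.hds
  have := P.hsa
  omega

theorem el_eq (P : Prm) (S : St P.p) (k : ℕ) (f : Polynomial (ZMod P.p)) (N : ℕ)
    (h : 3 * (P.a * k) ≤ N) : el P S k f = ∑ i ∈ Finset.range N, dg P S k f i * Wt P i := by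
  unfold el
  refine Finset.sum_subset (fun i hi => Finset.mem_range.2 (lt_of_lt_of_le (Finset.mem_range.1 hi) h)) ?_
  intro i _ hi
  have h1 : ¬ i < 3 * (P.a * k) := fun h => hi (Finset.mem_range.2 h)
  have h2 : ¬ i / 3 < P.a * k := by omega
  simp [dg, h2]

theorem dg_lt (P : Prm) (S : St P.p) (k : ℕ) (f : Polynomial (ZMod P.p)) (i : ℕ) :
    2 * dg P S k f i < Bs P i + (if i % 3 = 0 then 0 else if P.p ∣ i / 3 + 1 then 0 else 0) ∨
      (Bs P i = 1 ∧ dg P S k f i = 0) ∨ (2 * dg P S k f i < Bs P i) := by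
  have hp := P.hp.pos
  unfold dg Bs
  by_cases h0 : i / 3 < P.a * k
  · by_cases h1 : i % 3 = 0
    · have h2 : (DD P S k (i / 3) f).val < P.p := ZMod.val_lt _
      simp only [h0, h1, if_true]
      right; right; omega
    · by_cases h3 : P.p ∣ i / 3 + 1
      · by_cases h4 : i / 3 < P.s * k
        · have e1 := P.hδ (f : PowerSeries (ZMod P.p)) ((i / 3 + 1) / P.p)
          have e2 := P.hδ (f : PowerSeries (ZMod P.p)) (i / 3 + 1)
          simp only [h0, h1, h3, h4, if_true, if_false, and_self]
          right; right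
          split_ifs <;> omega
        · simp only [h0, h1, h3, h4, if_true, if_false, and_false]
          right; right; omega
      · simp only [h0, h1, h3, if_true, if_false, false_and]
        right; left; exact ⟨trivial, trivial⟩
  · simp only [h0, if_false]
    right; right
    split_ifs <;> omega

theorem dg_add_lt (P : Prm) (S : St P.p) (k l : ℕ) (f h : Polynomial (ZMod P.p)) (i : ℕ) :
    dg P S k f i + dg P S l h i < Bs P i := by
  have h1 := dg_lt P S k f i
  have h2 := dg_lt P S l h i
  have hB : 1 ≤ Bs P i := by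
    have hp := P.hp.pos
    unfold Bs; split_ifs <;> omega
  have e : (if i % 3 = 0 then 0 else if P.p ∣ i / 3 + 1 then 0 else 0) = 0 := by
    split_ifs <;> rfl
  rw [e, add_zero] at h1 h2
  omega

theorem digits_lt (B : ℕ → ℕ) (N : ℕ) (d : ℕ → ℕ) (hd : ∀ i < N, d i < B i) :
    ∑ i ∈ Finset.range N, d i * (∏ j ∈ Finset.range i, B j) < ∏ j ∈ Finset.range N, B j := by
  induction N with
  | zero => simp
  | succ n ih =>
    rw [Finset.sum_range_succ, Finset.prod_range_succ]
    have h1 := ih (fun i hi => hd i (by omega))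
    have h2 := hd n (by omega)
    set w := ∏ j ∈ Finset.range n, B j
    calc _ < w + d n * w := by omega
      _ = w * (d n + 1) := by ring
      _ ≤ w * B n := Nat.mul_le_mul_left _ h2

theorem digits_unique (B : ℕ → ℕ) (N : ℕ) (d d' : ℕ → ℕ) (hd : ∀ i < N, d i < B i)
    (hd' : ∀ i < N, d' i < B i)
    (h : ∑ i ∈ Finset.range N, d i * (∏ j ∈ Finset.range i, B j)
      = ∑ i ∈ Finset.range N, d' i * (∏ j ∈ Finset.range i, B j)) :
    ∀ i < N, d i = d' i := by
  induction N with
  | zero => intro i hi; omega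
  | succ n ih =>
    rw [Finset.sum_range_succ, Finset.sum_range_succ] at h
    have h1 := digits_lt B n d (fun i hi => hd i (by omega))
    have h1' := digits_lt B n d' (fun i hi => hd' i (by omega))
    have key : d n = d' n := by
      rcases Nat.lt_trichotomy (d n) (d' n) with hl | hl | hl
      · exfalso
        have := Nat.mul_le_mul_right (∏ j ∈ Finset.range n, B j) (Nat.succ_le_of_lt hl)
        rw [Nat.succ_mul] at this
        omega
      · exact hl
      · exfalso
        have := Nat.mul_le_mul_right (∏ j ∈ Finset.range n, B j) (Nat.succ_le_of_lt hl)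
        rw [Nat.succ_mul] at this
        omega
    rw [key] at h
    have h2 := ih (fun i hi => hd i (by omega)) (fun i hi => hd' i (by omega)) (by omega)
    intro i hi
    rcases Nat.lt_or_ge i n with hin | hin
    · exact h2 i hin
    · have : i = n := by omega
      rw [this]; exact key

theorem el_lt (P : Prm) (S : St P.p) (k : ℕ) (f : Polynomial (ZMod P.p)) :
    el P S k f < Wt P (3 * (P.a * k)) := by
  unfold el Wt
  exact digits_lt (Bs P) _ _ (fun i _ => lt_of_le_of_lt (Nat.le_add_right _ _)
    (dg_add_lt P S k k f f i))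

/-- main digit slot -/
theorem dg_zero (P : Prm) (S : St P.p) (k : ℕ) (f : Polynomial (ZMod P.p)) (j : ℕ) :
    dg P S k f (3 * j) = if j < P.a * k then P.p + (DD P S k j f).val else 0 := by
  have e1 : 3 * j / 3 = j := by omega
  have e2 : 3 * j % 3 = 0 := by omega
  unfold dg
  rw [e1, e2]
  simp

theorem dg_one (P : Prm) (S : St P.p) (k : ℕ) (f : Polynomial (ZMod P.p)) (j : ℕ)
    (h1 : P.p ∣ j + 1) (h2 : j < P.s * k) :
    dg P S k f (3 * j + 1) = P.δ (f : PowerSeries (ZMod P.p)) ((j + 1) / P.p) := by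
  have e1 : (3 * j + 1) / 3 = j := by omega
  have e2 : (3 * j + 1) % 3 = 1 := by omega
  have h3 : j < P.a * k := lt_of_lt_of_le h2 (Nat.mul_le_mul_right _ P.hsa)
  unfold dg
  rw [e1, e2]
  simp [h1, h2, h3]

theorem dg_two (P : Prm) (S : St P.p) (k : ℕ) (f : Polynomial (ZMod P.p)) (j : ℕ)
    (h1 : P.p ∣ j + 1) (h2 : j < P.s * k) :
    dg P S k f (3 * j + 2) = P.δ (f : PowerSeries (ZMod P.p)) (j + 1) := by
  have e1 : (3 * j + 2) / 3 = j := by omega
  have e2 : (3 * j + 2) % 3 = 2 := by omega
  have h3 : j < P.a * k := lt_of_lt_of_le h2 (Nat.mul_le_mul_right _ P.hsa)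
  unfold dg
  rw [e1, e2]
  simp [h1, h2, h3]

/-- Equal sums: the digits of the sums agree. -/
theorem sum_struct (P : Prm) (S : St P.p) {k l k' l' : ℕ} {x y x' y' : Polynomial (ZMod P.p)}
    (hl : l ≤ k) (hl' : l' ≤ k') (h : el P S k x + el P S l y = el P S k' x' + el P S l' y') :
    k = k' ∧ l = l' ∧
      (∀ j < P.a * l, DD P S k j x + DD P S l j y = DD P S k j x' + DD P S l j y') ∧
      (∀ j, P.a * l ≤ j → j < P.a * k → DD P S k j x = DD P S k j x') ∧
      (∀ m, 1 ≤ m → m ≤ P.s * l → (P.p ∣ m ∨ P.p * m ≤ P.s * l) →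
        P.δ (x : PowerSeries (ZMod P.p)) m + P.δ (y : PowerSeries (ZMod P.p)) m =
        P.δ (x' : PowerSeries (ZMod P.p)) m + P.δ (y' : PowerSeries (ZMod P.p)) m) := by
  set N := 3 * (P.a * max k k') with hN
  have hp := P.hp.pos
  have ha := pos_a P
  have hk : 3 * (P.a * k) ≤ N := by
    have := Nat.mul_le_mul_left P.a (le_max_left k k'); omega
  have hk' : 3 * (P.a * k') ≤ N := by
    have := Nat.mul_le_mul_left P.a (le_max_right k k'); omega
  have hak : P.a * l ≤ P.a * k := Nat.mul_le_mul_left _ hl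
  have hak' : P.a * l' ≤ P.a * k' := Nat.mul_le_mul_left _ hl'
  rw [el_eq P S k x N hk, el_eq P S l y N (by omega), el_eq P S k' x' N hk',
    el_eq P S l' y' N (by omega), ← Finset.sum_add_distrib, ← Finset.sum_add_distrib] at h
  have h2 : ∑ i ∈ Finset.range N, (dg P S k x i + dg P S l y i) * (∏ j ∈ Finset.range i, Bs P j)
      = ∑ i ∈ Finset.range N, (dg P S k' x' i + dg P S l' y' i) * (∏ j ∈ Finset.range i, Bs P j) := by
    rw [Finset.sum_congr rfl (fun i _ => add_mul _ _ _),
      Finset.sum_congr rfl (fun i _ => add_mul _ _ _)]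
    exact h
  have h3 := digits_unique (Bs P) N (fun i => dg P S k x i + dg P S l y i)
    (fun i => dg P S k' x' i + dg P S l' y' i) (fun i _ => dg_add_lt P S k l x y i)
    (fun i _ => dg_add_lt P S k' l' x' y' i) h2
  have h4 : ∀ j, 3 * j < N → dg P S k x (3*j) + dg P S l y (3*j)
      = dg P S k' x' (3*j) + dg P S l' y' (3*j) := fun j hj => h3 (3*j) hj
  have hv : ∀ z : ZMod P.p, z.val < P.p := fun z => ZMod.val_lt z
  have ek : k = k' := by
    rcases Nat.lt_trichotomy k k' with hlt | he | hlt
    · exfalso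
      have h5 : P.a * k < P.a * k' := Nat.mul_lt_mul_of_pos_left hlt ha
      have h6 := h4 (P.a * k) (by omega)
      rw [dg_zero, dg_zero, dg_zero, dg_zero] at h6
      have n1 : ¬ P.a * k < P.a * k := lt_irrefl _
      have n2 : ¬ P.a * k < P.a * l := by omega
      simp only [n1, n2, h5, if_true, if_false] at h6
      omega
    · exact he
    · exfalso
      have h5 : P.a * k' < P.a * k := Nat.mul_lt_mul_of_pos_left hlt ha
      have h6 := h4 (P.a * k') (by omega)
      rw [dg_zero, dg_zero, dg_zero, dg_zero] at h6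
      have n1 : ¬ P.a * k' < P.a * k' := lt_irrefl _
      have n2 : ¬ P.a * k' < P.a * l' := by omega
      simp only [n1, n2, h5, if_true, if_false] at h6
      omega
  subst ek
  have el' : l = l' := by
    rcases Nat.lt_trichotomy l l' with hlt | he | hlt
    · exfalso
      have h5 : P.a * l < P.a * l' := Nat.mul_lt_mul_of_pos_left hlt ha
      have h6 := h4 (P.a * l) (by omega)
      rw [dg_zero, dg_zero, dg_zero, dg_zero] at h6
      have n1 : ¬ P.a * l < P.a * l := lt_irrefl _
      have n2 : P.a * l < P.a * k := by omega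
      simp only [n1, n2, h5, if_true, if_false] at h6
      have v1 := hv (DD P S k (P.a * l) x)
      omega
    · exact he
    · exfalso
      have h5 : P.a * l' < P.a * l := Nat.mul_lt_mul_of_pos_left hlt ha
      have h6 := h4 (P.a * l') (by omega)
      rw [dg_zero, dg_zero, dg_zero, dg_zero] at h6
      have n1 : ¬ P.a * l' < P.a * l' := lt_irrefl _
      have n2 : P.a * l' < P.a * k := by omega
      simp only [n1, n2, h5, if_true, if_false] at h6
      have v1 := hv (DD P S k (P.a * l') x')
      omega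
  subst el'
  refine ⟨rfl, rfl, ?_, ?_, ?_⟩
  · intro j hj
    have hjk : j < P.a * k := by omega
    have h6 := h4 j (by omega)
    rw [dg_zero, dg_zero, dg_zero, dg_zero] at h6
    simp only [hj, hjk, if_true] at h6
    have h7 : (DD P S k j x).val + (DD P S l j y).val
        = (DD P S k j x').val + (DD P S l j y').val := by omega
    have h8 := congrArg (fun n : ℕ => (n : ZMod P.p)) h7
    simp only [Nat.cast_add, ZMod.natCast_val, ZMod.cast_id', id_eq] at h8
    exact h8
  · intro j hj1 hj2
    have hjl : ¬ j < P.a * l := by omega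
    have h6 := h4 j (by omega)
    rw [dg_zero, dg_zero, dg_zero, dg_zero] at h6
    simp only [hjl, hj2, if_true, if_false] at h6
    have h7 : (DD P S k j x).val = (DD P S k j x').val := by omega
    exact ZMod.val_injective _ h7
  · have hsl : P.s * l ≤ P.a * l := Nat.mul_le_mul_right _ P.hsa
    have hslk : P.s * l ≤ P.s * k := Nat.mul_le_mul_left _ hl
    intro m hm1 hm2 hm3
    by_cases hpm : P.p ∣ m
    · have e : m - 1 + 1 = m := by omega
      have h6 := h3 (3 * (m - 1) + 2) (by omega)
      rw [dg_two P S k x (m-1) (by rw [e]; exact hpm) (by omega),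
        dg_two P S l y (m-1) (by rw [e]; exact hpm) (by omega),
        dg_two P S k x' (m-1) (by rw [e]; exact hpm) (by omega),
        dg_two P S l y' (m-1) (by rw [e]; exact hpm) (by omega), e] at h6
      exact h6
    · have hpm' : P.p * m ≤ P.s * l := by
        rcases hm3 with h | h
        · exact absurd h hpm
        · exact h
      have hpos : 0 < P.p * m := Nat.mul_pos hp hm1
      have e : P.p * m - 1 + 1 = P.p * m := by omega
      have e2 : P.p * m / P.p = m := Nat.mul_div_cancel_left _ hp
      have hdv : P.p ∣ P.p * m - 1 + 1 := by rw [e]; exact Dvd.intro _ rfl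
      have h6 := h3 (3 * (P.p * m - 1) + 1) (by omega)
      rw [dg_one P S k x (P.p * m - 1) hdv (by omega),
        dg_one P S l y (P.p * m - 1) hdv (by omega),
        dg_one P S k x' (P.p * m - 1) hdv (by omega),
        dg_one P S l y' (P.p * m - 1) hdv (by omega), e, e2] at h6
      exact h6

end Pool.Agent.H601.FP
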