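import Pool.Agent.H601.FP.Stm

/-!
# The number of irreducible polynomials with constant coefficient `1` (task `S_count`)

The first section is after `Pool.Agent.H985.Chow.Typ` (helper694/helper985).
-/

set_option autoImplicit false
set_option linter.all false

open scoped Classical
open Finset Polynomial

namespace Pool.Agent.H898.FP.SCount

section base
variable {k : Type} [Field k]

/-- the polynomial of degree less than `n` with the coefficients `c` -/
noncomputable def pol {n : ℕ} (c : Fin n → k) : k[X] := ∑ i : Fin n, C (c i) * X ^ (i : ℕ)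

/-- the monic polynomial of degree `n` with the other coefficients `c` -/
noncomputable def mon {n : ℕ} (c : Fin n → k) : k[X] := X ^ n + pol c

theorem pol_coeff {n : ℕ} (c : Fin n → k) (i : Fin n) : (pol c).coeff i = c i := by
  unfold pol
  rw [finsetSum_coeff, Finset.sum_eq_single i]
  · rw [coeff_C_mul, coeff_X_pow, if_pos rfl, mul_one]
  · intro j _ hj
    rw [coeff_C_mul, coeff_X_pow, if_neg, mul_zero]
    intro h
    exact hj (Fin.ext h.symm)
  · intro h
    exact absurd (Finset.mem_univ _) h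

theorem pol_degree {n : ℕ} (c : Fin n → k) : (pol c).degree < n := by
  unfold pol
  rw [degree_lt_iff_coeff_zero]
  intro m hm
  rw [finsetSum_coeff]
  refine Finset.sum_eq_zero fun j _ => ?_
  rw [coeff_C_mul, coeff_X_pow, if_neg, mul_zero]
  have := j.2
  omega

theorem pol_inj {n : ℕ} : Function.Injective (pol : (Fin n → k) → k[X]) := by
  intro c c' h
  funext i
  rw [← pol_coeff c i, ← pol_coeff c' i, h]

theorem exists_pol {n : ℕ} {f : k[X]} (hf : f.degree < n) : ∃ c : Fin n → k, pol c = f := by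
  refine ⟨fun i => f.coeff i, ?_⟩
  ext m
  by_cases hm : m < n
  · exact pol_coeff (fun i : Fin n => f.coeff i) ⟨m, hm⟩
  · rw [coeff_eq_zero_of_degree_lt (lt_of_lt_of_le hf (by exact_mod_cast not_lt.1 hm)),
      coeff_eq_zero_of_degree_lt (lt_of_lt_of_le (pol_degree _) (by exact_mod_cast not_lt.1 hm))]

theorem mon_monic {n : ℕ} (c : Fin n → k) : (mon c).Monic := monic_X_pow_add (pol_degree c)

theorem mon_natDegree {n : ℕ} (c : Fin n → k) : (mon c).natDegree = n := by
  apply natDegree_eq_of_degree_eq_some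
  have h : (pol c).degree < (X ^ n : k[X]).degree := by
    rw [degree_X_pow]
    exact pol_degree c
  unfold mon
  rw [degree_add_eq_left_of_degree_lt h, degree_X_pow]

theorem mon_inj {n : ℕ} : Function.Injective (mon : (Fin n → k) → k[X]) := by
  intro c c' h
  unfold mon at h
  exact pol_inj (add_left_cancel h)

theorem exists_mon {n : ℕ} {f : k[X]} (hf : f.Monic) (hn : f.natDegree = n) :
    ∃ c : Fin n → k, mon c = f := by
  have h1 : (f - X ^ n).degree < (n : WithBot ℕ) := by
    have h2 : f.degree = (n : WithBot ℕ) := by rw [degree_eq_natDegree hf.ne_zero, hn]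
    have h3 : (X ^ n : k[X]).degree = (n : WithBot ℕ) := degree_X_pow n
    refine lt_of_lt_of_le (degree_sub_lt_left (by rw [h2, h3]) hf.ne_zero ?_) (le_of_eq h2)
    rw [hf.leadingCoeff, leadingCoeff_X_pow]
  obtain ⟨c, hc⟩ := exists_pol h1
  refine ⟨c, ?_⟩
  unfold mon
  rw [hc]
  ring

variable [Fintype k]

/-- the monic polynomials of degree `n` -/
noncomputable def Mn (k : Type) [Field k] [Fintype k] (n : ℕ) : Finset k[X] :=
  Finset.univ.image (mon : (Fin n → k) → k[X])

theorem mem_Mn {n : ℕ} {f : k[X]} : f ∈ Mn k n ↔ f.Monic ∧ f.natDegree = n := by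
  unfold Mn
  rw [Finset.mem_image]
  constructor
  · rintro ⟨c, -, rfl⟩
    exact ⟨mon_monic c, mon_natDegree c⟩
  · rintro ⟨h1, h2⟩
    obtain ⟨c, hc⟩ := exists_mon h1 h2
    exact ⟨c, Finset.mem_univ _, hc⟩

theorem card_Mn (n : ℕ) : (Mn k n).card = Fintype.card k ^ n := by
  unfold Mn
  rw [Finset.card_image_of_injective _ mon_inj, Finset.card_univ, Fintype.card_fun, Fintype.card_fin]

variable (k) in
/-- the monic irreducible polynomials of degree `d` -/
noncomputable def Irn (d : ℕ) : Finset k[X] := (Mn k d).filter Irreducible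

theorem mem_Irn {d : ℕ} {P : k[X]} : P ∈ Irn k d ↔ P.Monic ∧ P.natDegree = d ∧ Irreducible P := by
  unfold Irn
  rw [mem_filter, mem_Mn]
  tauto

/-- the number of monic irreducible polynomials -/
theorem sum_irn {d : ℕ} (hd : 0 < d) :
    ∑ e ∈ d.divisors, e * (Irn k e).card = Fintype.card k ^ d := by
  set q := Fintype.card k with hq
  have hq1 : 1 < q := Fintype.one_lt_card
  set f : k[X] := X ^ q ^ d - X with hf
  have hf0 : f ≠ 0 := FiniteField.X_pow_card_pow_sub_X_ne_zero _ hd.ne' hq1
  have hfd : f.natDegree = q ^ d := FiniteField.X_pow_card_pow_sub_X_natDegree_eq _ hd.ne' hq1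
  have hmon : f.Monic := by
    refine monic_X_pow_sub ?_
    rw [degree_X]
    exact_mod_cast Nat.one_lt_pow hd.ne' hq1
  have hsep : f.Separable := by
    have h0 : ((q ^ d : ℕ) : k) = 0 := by
      rw [Nat.cast_pow, hq, FiniteField.cast_card_eq_zero, zero_pow hd.ne']
    rw [hf, separable_def]
    refine ⟨0, -1, ?_⟩
    rw [derivative_sub, derivative_X_pow, derivative_X, h0]
    simp
  have hsq : Squarefree f := hsep.squarefree
  set s := (UniqueFactorizationMonoid.normalizedFactors f).toFinset with hs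
  have hnd : (UniqueFactorizationMonoid.normalizedFactors f).Nodup :=
    (UniqueFactorizationMonoid.squarefree_iff_nodup_normalizedFactors hf0).1 hsq
  have hmem : ∀ P, P ∈ s ↔ P.Monic ∧ Irreducible P ∧ P.natDegree ∣ d := by
    intro P
    rw [hs, Multiset.mem_toFinset, UniqueFactorizationMonoid.mem_normalizedFactors_iff' hf0]
    constructor
    · rintro ⟨a, b, c⟩
      have hm : P.Monic := by
        rw [← b]
        exact monic_normalize a.ne_zero
      refine ⟨hm, a, ?_⟩
      refine a.natDegree_dvd_iff_dvd_X_pow_card_pow_sub_X.2 ?_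
      rw [Nat.card_eq_fintype_card]
      exact c
    · rintro ⟨a, b, c⟩
      refine ⟨b, a.normalize_eq_self, ?_⟩
      have := b.natDegree_dvd_iff_dvd_X_pow_card_pow_sub_X.1 c
      rw [Nat.card_eq_fintype_card] at this
      exact this
  have hprod : ∏ P ∈ s, P = f := by
    have e1 : ∏ P ∈ s, P = (UniqueFactorizationMonoid.normalizedFactors f).prod := by
      rw [hs, Finset.prod, Multiset.toFinset_val, Multiset.dedup_eq_self.2 hnd, Multiset.map_id']
    have e3 : (∏ P ∈ s, P).Monic := monic_prod_of_monic _ _ fun P hP => ((hmem P).1 hP).1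
    refine eq_of_monic_of_associated e3 hmon ?_
    rw [e1]
    exact UniqueFactorizationMonoid.prod_normalizedFactors hf0
  have h1 : ∑ P ∈ s, P.natDegree = q ^ d := by
    rw [← hfd, ← hprod, natDegree_prod_of_monic]
    intro P hP
    exact ((hmem P).1 hP).1
  have h2 : s = d.divisors.biUnion (fun e => Irn k e) := by
    ext P
    rw [hmem, mem_biUnion]
    constructor
    · rintro ⟨a, b, c⟩
      exact ⟨_, Nat.mem_divisors.2 ⟨c, hd.ne'⟩, mem_Irn.2 ⟨a, rfl, b⟩⟩
    · rintro ⟨e, he, h⟩
      obtain ⟨a, b, c⟩ := mem_Irn.1 h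
      exact ⟨a, c, b ▸ Nat.dvd_of_mem_divisors he⟩
  rw [h2, sum_biUnion] at h1
  · rw [← h1]
    refine sum_congr rfl fun e _ => ?_
    rw [sum_congr rfl (fun P hP => (mem_Irn.1 hP).2.1), sum_const, smul_eq_mul, mul_comm]
  · intro a _ b _ hab
    rw [Function.onFun, Finset.disjoint_left]
    intro P hP hP'
    exact hab ((mem_Irn.1 hP).2.1.symm.trans (mem_Irn.1 hP').2.1)

theorem irn_one_le {d : ℕ} (hd : 0 < d) : d * (Irn k d).card ≤ Fintype.card k ^ d := by
  rw [← sum_irn hd]
  exact single_le_sum (f := fun e => e * (Irn k e).card) (fun _ _ => Nat.zero_le _)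
    (Nat.mem_divisors.2 ⟨dvd_rfl, hd.ne'⟩)

theorem geo {q : ℕ} (hq : 2 ≤ q) (m : ℕ) : ∑ j ∈ Icc 1 m, q ^ j ≤ 2 * q ^ m := by
  induction m with
  | zero => simp
  | succ m ih =>
    rw [sum_Icc_succ_top (by omega), pow_succ]
    have : q ^ m * 2 ≤ q ^ m * q := Nat.mul_le_mul_left _ hq
    omega

theorem irn_ge {d : ℕ} (hd : 0 < d) :
    Fintype.card k ^ d ≤ d * (Irn k d).card + 2 * Fintype.card k ^ (d / 2) := by
  have hq1 : 1 < Fintype.card k := Fintype.one_lt_card
  rw [← sum_irn hd, ← Nat.insert_self_properDivisors hd.ne', sum_insert (by simp)]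
  refine Nat.add_le_add_left ?_ _
  refine le_trans (sum_le_sum fun e he => ?_) (le_trans (sum_le_sum_of_subset (?_ : _ ⊆ Icc 1 (d / 2)))
    (geo hq1 _))
  · exact irn_one_le (Nat.pos_of_mem_properDivisors he)
  · intro e he
    obtain ⟨h1, h2⟩ := Nat.mem_properDivisors.1 he
    obtain ⟨c, rfl⟩ := h1
    have he0 : 0 < e := Nat.pos_of_mem_properDivisors he
    rw [mem_Icc]
    refine ⟨he0, ?_⟩
    rw [Nat.le_div_iff_mul_le (by norm_num)]
    refine Nat.mul_le_mul_left _ ?_
    by_contra hc
    have : c ≤ 1 := by omega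
    have := Nat.mul_le_mul_left e this
    omega

theorem irn_half (hq : 4 ≤ Fintype.card k) {d : ℕ} (hd : 2 ≤ d) :
    Fintype.card k ^ d ≤ 2 * d * (Irn k d).card := by
  have h := irn_ge (k := k) (d := d) (by omega)
  have h2 : 4 * Fintype.card k ^ (d / 2) ≤ Fintype.card k ^ d := by
    calc 4 * Fintype.card k ^ (d / 2) ≤ Fintype.card k ^ 1 * Fintype.card k ^ (d / 2) := by
          rw [pow_one]
          exact Nat.mul_le_mul_right _ hq
      _ = Fintype.card k ^ (1 + d / 2) := (pow_add _ _ _).symm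
      _ ≤ Fintype.card k ^ d := Nat.pow_le_pow_right (by omega) (by omega)
  have h3 : 2 * d * (Irn k d).card = 2 * (d * (Irn k d).card) := by ring
  omega

end base

open Pool.Agent.H601.FP in
theorem s_count : Pool.Agent.H601.FP.S_count := by
  intro p hp h5 m hm
  have hcard : Fintype.card (ZMod p) = p := ZMod.card p
  -- finiteness: the image of the coefficient vectors
  have hfin : (Pr p m).Finite := by
    have hf : (Set.range (pol : (Fin (m + 1) → ZMod p) → (ZMod p)[X])).Finite := Set.finite_range _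
    refine hf.subset ?_
    rintro f ⟨h1, h2, h3⟩
    have : f.degree < (m + 1 : ℕ) := by
      rw [degree_eq_natDegree h1.ne_zero, h2]
      exact_mod_cast Nat.lt_succ_self m
    obtain ⟨c, hc⟩ := exists_pol this
    exact ⟨c, hc⟩
  refine ⟨hfin, ?_⟩
  have h1 := irn_half (k := ZMod p) (by rw [hcard]; omega) hm
  rw [hcard] at h1
  refine h1.trans (Nat.mul_le_mul_left _ ?_)
  rw [← Set.ncard_coe_finset]
  refine Set.ncard_le_ncard_of_injOn (fun f => C (f.coeff 0)⁻¹ * f) ?_ ?_ hfin
  · intro f hf
    rw [Finset.mem_coe, mem_Irn] at hf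
    obtain ⟨hm1, hd1, hi1⟩ := hf
    have h0 : f.coeff 0 ≠ 0 := by
      intro h0
      have hX : (X : (ZMod p)[X]) ∣ f := X_dvd_iff.2 h0
      have hassoc : Associated (X : (ZMod p)[X]) f := irreducible_X.associated_of_dvd hi1 hX
      have hdeg := natDegree_eq_of_degree_eq (degree_eq_degree_of_associated hassoc)
      rw [natDegree_X, hd1] at hdeg
      omega
    have hu : IsUnit (C (f.coeff 0)⁻¹ : (ZMod p)[X]) := isUnit_C.2 (isUnit_iff_ne_zero.2 (inv_ne_zero h0))
    refine ⟨?_, ?_, ?_⟩
    · exact (irreducible_isUnit_mul hu).2 hi1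
    · show (C (f.coeff 0)⁻¹ * f).natDegree = m
      rw [natDegree_C_mul (inv_ne_zero h0), hd1]
    · show (C (f.coeff 0)⁻¹ * f).coeff 0 = 1
      rw [coeff_C_mul, inv_mul_cancel₀ h0]
  · intro f hf g hg hfg
    rw [Finset.mem_coe, mem_Irn] at hf hg
    replace hfg : C (f.coeff 0)⁻¹ * f = C (g.coeff 0)⁻¹ * g := hfg
    have hl := congrArg leadingCoeff hfg
    rw [leadingCoeff_mul, leadingCoeff_mul, hf.1.leadingCoeff, hg.1.leadingCoeff, leadingCoeff_C,
      leadingCoeff_C, mul_one, mul_one] at hl
    have h0 : f.coeff 0 ≠ 0 := by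
      intro h0
      have hX : (X : (ZMod p)[X]) ∣ f := X_dvd_iff.2 h0
      have hassoc : Associated (X : (ZMod p)[X]) f := irreducible_X.associated_of_dvd hf.2.2 hX
      have hdeg := natDegree_eq_of_degree_eq (degree_eq_degree_of_associated hassoc)
      rw [natDegree_X, hf.2.1] at hdeg
      omega
    rw [← hl] at hfg
    exact mul_left_cancel₀ (C_ne_zero.2 (inv_ne_zero h0)) hfg

end Pool.Agent.H898.FP.SCount

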