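import Pool.Agent.H601.FP.Def

/-!
# Growth of the counting function
-/

set_option autoImplicit false

open Filter

namespace Pool.Agent.H601.FP.Grow2

open Pool.Agent.H601.FP

theorem lin_le_exp (δ M : ℝ) (hδ : 0 < δ) (_hM : 0 ≤ M) :
    ∃ K : ℕ, ∀ k : ℕ, K ≤ k → M * k ≤ Real.exp (δ * k) := by
  refine ⟨⌈2 * M / δ ^ 2⌉₊, fun k hk => ?_⟩
  have hk' : 2 * M / δ ^ 2 ≤ k := (Nat.le_ceil _).trans (by exact_mod_cast hk)
  have hk0 : (0 : ℝ) ≤ k := Nat.cast_nonneg k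
  have h1 := Real.quadratic_le_exp_of_nonneg (show 0 ≤ δ * k by positivity)
  rw [div_le_iff₀ (by positivity)] at hk'
  have h2 : 2 * M * k ≤ k * δ ^ 2 * k := mul_le_mul_of_nonneg_right hk' hk0
  have h3 : 0 ≤ δ * k := by positivity
  nlinarith

/-- choice of `p` -/
theorem choose_p (u v : ℝ) (hu : 0 < u) (huv : u < v) (n : ℕ) :
    ∃ p : ℕ, p.Prime ∧ n ≤ p ∧ u * (1 + 2 / p) * Real.log (4 * p) < v * Real.log p := by
  obtain ⟨η, hη⟩ : ∃ η : ℝ, η = min 1 ((v - u) / (4 * u)) := ⟨_, rfl⟩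
  have hvu : 0 < v - u := by linarith
  have hη0 : 0 < η := by
    rw [hη]
    exact lt_min one_pos (by positivity)
  have hη1 : η ≤ 1 := by rw [hη]; exact min_le_left _ _
  have hη2 : η ≤ (v - u) / (4 * u) := by rw [hη]; exact min_le_right _ _
  have hη3 : u * (1 + η) * (1 + η) < v := by
    rw [le_div_iff₀ (by positivity)] at hη2
    have : u * (η * η) ≤ u * η := by
      refine mul_le_mul_of_nonneg_left ?_ hu.le
      exact mul_le_of_le_one_left hη0.le hη1
    nlinarith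
  obtain ⟨p, hp, hpp⟩ := Nat.exists_infinite_primes
    (n + ⌈2 / η⌉₊ + ⌈Real.exp (Real.log 4 / η)⌉₊ + 2)
  refine ⟨p, hpp, by omega, ?_⟩
  have hp2 : 2 ≤ p := hpp.two_le
  have hp1 : (1 : ℝ) < p := by exact_mod_cast hpp.one_lt
  have hp0 : (0 : ℝ) < p := by linarith
  have hlog : 0 < Real.log p := Real.log_pos hp1
  have h1 : 2 / (p : ℝ) ≤ η := by
    have h2 : 2 / η ≤ p := by
      refine (Nat.le_ceil _).trans ?_
      have : ⌈2 / η⌉₊ ≤ p := by omega
      exact_mod_cast this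
    rw [div_le_iff₀ hη0] at h2
    rw [div_le_iff₀ hp0]
    linarith
  have h3 : Real.log 4 ≤ η * Real.log p := by
    have h2 : Real.exp (Real.log 4 / η) ≤ p := by
      refine (Nat.le_ceil _).trans ?_
      have : ⌈Real.exp (Real.log 4 / η)⌉₊ ≤ p := by omega
      exact_mod_cast this
    have h4 : Real.log 4 / η ≤ Real.log p := by
      rw [Real.le_log_iff_exp_le hp0]
      exact h2
    rw [div_le_iff₀ hη0] at h4
    linarith
  have h5 : Real.log (4 * p) ≤ (1 + η) * Real.log p := by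
    rw [Real.log_mul (by norm_num) hp0.ne']
    linarith
  calc u * (1 + 2 / p) * Real.log (4 * p) ≤ u * (1 + η) * ((1 + η) * Real.log p) := by
        refine mul_le_mul ?_ h5 (Real.log_nonneg (by linarith)) (by positivity)
        exact mul_le_mul_of_nonneg_left (by linarith) hu.le
    _ = (u * (1 + η) * (1 + η)) * Real.log p := by ring
    _ < v * Real.log p := mul_lt_mul_of_pos_right hη3 hlog

/-- the asymptotic part -/
theorem grow_aux (a d p : ℕ) (hp : 2 ≤ p) (ha : 1 ≤ a) (hd : 1 ≤ d) (c : ℝ) (hc : 0 < c)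
    (h : c * a * (1 + 2 / p) * Real.log (4 * p) < d * Real.log p) (A : Set ℕ)
    (hA : ∀ k, 1 ≤ k → ∀ N : ℕ, (4 * p) ^ (a * k + 2 * (a * k / p)) ≤ N →
      p ^ (d * k) ≤ 4 * (d * k) * (A ∩ Set.Icc 1 N).ncard) :
    ∀ᶠ N : ℕ in atTop, (N : ℝ) ^ c ≤ ((A ∩ Set.Icc 1 N).ncard : ℝ) := by
  have hp0 : (0 : ℝ) < p := by
    have : 0 < p := by omega
    exact_mod_cast this
  have hp1 : (1 : ℝ) < p := by exact_mod_cast (show 1 < p by omega)
  have ha0 : (0 : ℝ) < a := by exact_mod_cast ha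
  have hd0 : (0 : ℝ) < d := by exact_mod_cast hd
  have hlog4 : 0 < Real.log (4 * p) := Real.log_pos (by linarith)
  obtain ⟨β, hβ⟩ : ∃ β : ℝ, β = a * (1 + 2 / p) * Real.log (4 * p) := ⟨_, rfl⟩
  have hβ0 : 0 < β := by rw [hβ]; positivity
  obtain ⟨γ, hγ⟩ : ∃ γ : ℝ, γ = d * Real.log p := ⟨_, rfl⟩
  have hδ : 0 < γ - c * β := by
    rw [hγ, hβ]
    have : c * (a * (1 + 2 / p) * Real.log (4 * p)) = c * a * (1 + 2 / p) * Real.log (4 * p) := by
      ring
    rw [this]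
    linarith
  obtain ⟨K, hK⟩ := lin_le_exp (γ - c * β) (4 * d * Real.exp (c * β)) hδ (by positivity)
  rw [eventually_atTop]
  refine ⟨⌈Real.exp (β * (K + 1))⌉₊, fun N hN => ?_⟩
  have hN1 : Real.exp (β * (K + 1)) ≤ N := (Nat.le_ceil _).trans (by exact_mod_cast hN)
  have hN0 : (0 : ℝ) < N := (Real.exp_pos _).trans_le hN1
  have hL : β * (K + 1) ≤ Real.log N := by
    rw [Real.le_log_iff_exp_le hN0]
    exact hN1
  obtain ⟨k, hk⟩ : ∃ k : ℕ, k = ⌊Real.log N / β⌋₊ := ⟨_, rfl⟩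
  have hL0 : 0 ≤ Real.log N / β := by
    have h0 : 0 ≤ β * ((K : ℝ) + 1) := by positivity
    exact div_nonneg (h0.trans hL) hβ0.le
  have hk1 : (k : ℝ) ≤ Real.log N / β := by rw [hk]; exact Nat.floor_le hL0
  have hk2 : Real.log N / β < k + 1 := by rw [hk]; exact Nat.lt_floor_add_one _
  have hkK : K + 1 ≤ k := by
    rw [hk]
    apply Nat.le_floor
    rw [le_div_iff₀ hβ0]
    push_cast
    linarith
  have hk0 : 1 ≤ k := by omega
  have hkr : (0 : ℝ) < k := by exact_mod_cast hk0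
  rw [le_div_iff₀ hβ0] at hk1
  rw [div_lt_iff₀ hβ0] at hk2
  have hpow : (4 * p) ^ (a * k + 2 * (a * k / p)) ≤ N := by
    have h1 : (((4 * p) ^ (a * k + 2 * (a * k / p)) : ℕ) : ℝ) ≤ N := by
      push_cast
      have h2 : (4 * (p : ℝ)) ^ (a * k + 2 * (a * k / p)) =
          Real.exp (((a * k + 2 * (a * k / p) : ℕ) : ℝ) * Real.log (4 * p)) := by
        rw [← Real.rpow_natCast, Real.rpow_def_of_pos (by positivity), mul_comm]
      rw [h2]
      calc Real.exp (((a * k + 2 * (a * k / p) : ℕ) : ℝ) * Real.log (4 * p))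
          ≤ Real.exp (Real.log N) := by
            apply Real.exp_le_exp.2
            refine le_trans ?_ hk1
            have h3 : ((a * k + 2 * (a * k / p) : ℕ) : ℝ) ≤ a * (1 + 2 / p) * k := by
              push_cast
              have h4 : ((a * k / p : ℕ) : ℝ) ≤ (a : ℝ) * k / p := by
                have := @Nat.cast_div_le ℝ _ _ _ (a * k) p
                push_cast at this
                exact this
              have h5 : (a : ℝ) * (1 + 2 / p) * k = a * k + 2 * (a * k / p) := by ring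
              rw [h5]
              linarith
            calc ((a * k + 2 * (a * k / p) : ℕ) : ℝ) * Real.log (4 * p)
                ≤ (a * (1 + 2 / p) * k) * Real.log (4 * p) :=
                  mul_le_mul_of_nonneg_right h3 hlog4.le
              _ = k * β := by rw [hβ]; ring
        _ = N := Real.exp_log hN0
    exact_mod_cast h1
  have h1 := hA k hk0 N hpow
  obtain ⟨n, hn⟩ : ∃ n : ℕ, n = (A ∩ Set.Icc 1 N).ncard := ⟨_, rfl⟩
  rw [← hn] at h1 ⊢
  have h2 : Real.exp (γ * k) ≤ 4 * (d * k) * n := by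
    have h3 : ((p ^ (d * k) : ℕ) : ℝ) ≤ ((4 * (d * k) * n : ℕ) : ℝ) := by exact_mod_cast h1
    push_cast at h3
    refine le_trans (le_of_eq ?_) h3
    rw [hγ, ← Real.rpow_natCast, Real.rpow_def_of_pos hp0]
    congr 1
    push_cast
    ring
  have h4 : (N : ℝ) ^ c ≤ Real.exp (c * β) * Real.exp (c * β * k) := by
    rw [Real.rpow_def_of_pos hN0, ← Real.exp_add]
    apply Real.exp_le_exp.2
    nlinarith
  have h5 := hK k (by omega)
  have h6 : (4 * (d * k)) * (N : ℝ) ^ c ≤ (4 * (d * k)) * n := by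
    calc (4 * (d * k)) * (N : ℝ) ^ c ≤ (4 * (d * k)) * (Real.exp (c * β) * Real.exp (c * β * k)) :=
          mul_le_mul_of_nonneg_left h4 (by positivity)
      _ = (4 * d * Real.exp (c * β) * k) * Real.exp (c * β * k) := by ring
      _ ≤ Real.exp ((γ - c * β) * k) * Real.exp (c * β * k) :=
          mul_le_mul_of_nonneg_right h5 (Real.exp_pos _).le
      _ = Real.exp (γ * k) := by
          rw [← Real.exp_add]
          congr 1
          ring
      _ ≤ (4 * (d * k)) * n := h2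
  exact le_of_mul_le_mul_left h6 (by positivity)

theorem s_grow2 (g : ℕ) (hg : 1 ≤ g) (c : ℝ) (hc : 0 < c)
    (hcg : c < 1 / 2 - 3 / (8 * (2 * (g : ℝ) + 1))) :
  ∃ q p : ℕ, p.Prime ∧ 6 * g ^ 3 ≤ q ∧ 220 * g ^ 3 ≤ p ∧
    ∀ A : Set ℕ, (∀ k, 1 ≤ k → ∀ N : ℕ,
      (4 * p) ^ ((16 * g + 8) * q * k + 2 * ((16 * g + 8) * q * k / p)) ≤ N →
      p ^ (((8 * g + 1) * q - 1) * k) ≤
        4 * (((8 * g + 1) * q - 1) * k) * (A ∩ Set.Icc 1 N).ncard) →
    ∀ᶠ N : ℕ in atTop, (N : ℝ) ^ c ≤ ((A ∩ Set.Icc 1 N).ncard : ℝ) := by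
  have hg0 : (0 : ℝ) < g := by exact_mod_cast hg
  have hg1 : (1 : ℝ) ≤ g := by exact_mod_cast hg
  have h1 : (16 * g + 8) * c < 8 * g + 1 := by
    have h2 : (16 * g + 8) * c < (16 * g + 8) * (1 / 2 - 3 / (8 * (2 * (g : ℝ) + 1))) :=
      mul_lt_mul_of_pos_left hcg (by positivity)
    have h3 : (16 * g + 8) * (1 / 2 - 3 / (8 * (2 * (g : ℝ) + 1))) = 8 * g + 1 := by
      have h4 : (2 * (g : ℝ) + 1) ≠ 0 := by positivity
      field_simp
      ring
    linarith
  obtain ⟨w, hw⟩ : ∃ w : ℝ, w = 8 * g + 1 - (16 * g + 8) * c := ⟨_, rfl⟩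
  have hw0 : 0 < w := by linarith
  obtain ⟨q, hq⟩ : ∃ q : ℕ, q = ⌈1 / w⌉₊ + 1 + 6 * g ^ 3 := ⟨_, rfl⟩
  have hqw : 1 / w < q := by
    refine lt_of_le_of_lt (Nat.le_ceil (1 / w)) ?_
    have : ⌈1 / w⌉₊ < q := by omega
    exact_mod_cast this
  rw [div_lt_iff₀ hw0] at hqw
  have hq8 : 1 ≤ q := by omega
  have hq0 : (0 : ℝ) < q := by
    have : 0 < q := by omega
    exact_mod_cast this
  obtain ⟨d, hd⟩ : ∃ d : ℕ, d = (8 * g + 1) * q - 1 := ⟨_, rfl⟩
  have h5 : 9 ≤ 8 * g + 1 := by omega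
  have h40 : 9 * 1 ≤ (8 * g + 1) * q := Nat.mul_le_mul h5 hq8
  have hd1 : 1 ≤ d := by omega
  have hdr : (d : ℝ) = (8 * g + 1) * q - 1 := by
    have h6 : d + 1 = (8 * g + 1) * q := by omega
    have h8 : ((d + 1 : ℕ) : ℝ) = (((8 * g + 1) * q : ℕ) : ℝ) := by rw [h6]
    push_cast at h8
    linarith
  have hu : 0 < c * (((16 * g + 8) * q : ℕ) : ℝ) := by
    push_cast
    positivity
  have huv : c * (((16 * g + 8) * q : ℕ) : ℝ) < d := by
    rw [hdr]
    push_cast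
    rw [hw] at hqw
    nlinarith
  obtain ⟨p, hpp, hpg, hpl⟩ := choose_p _ _ hu huv (220 * g ^ 3)
  refine ⟨q, p, hpp, by omega, hpg, ?_⟩
  intro A hA
  rw [← hd] at hA
  refine grow_aux ((16 * g + 8) * q) d p hpp.two_le ?_ hd1 c hc hpl A hA
  have : 0 < (16 * g + 8) * q := by positivity
  omega

end Pool.Agent.H601.FP.Grow2
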