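import Pool.Agent.H601.FP.Stm

/-!
# Logarithmic derivatives of polynomials over `F_p` (task 8)
-/

namespace Pool.Agent.H996.FP

open Pool.Agent.H601.FP

section

variable {p : ℕ} [Fact p.Prime]

theorem unit_coe (f : Polynomial (ZMod p)) (hf : f.coeff 0 = 1) :
    (f : PowerSeries (ZMod p)) * (f : PowerSeries (ZMod p))⁻¹ = 1 := by
  refine PowerSeries.mul_inv_cancel _ ?_
  rw [Polynomial.constantCoeff_coe, hf]
  exact one_ne_zero

/-- the difference of two logarithmic derivatives -/
theorem dlog_sub (F G : PowerSeries (ZMod p)) (hF : F * F⁻¹ = 1) (hG : G * G⁻¹ = 1) :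
    dlog F - dlog G = (PowerSeries.derivative (ZMod p) F * G -
      F * PowerSeries.derivative (ZMod p) G) * (F⁻¹ * G⁻¹) := by
  unfold dlog
  linear_combination (-(PowerSeries.derivative (ZMod p) F * F⁻¹)) * hG +
    (PowerSeries.derivative (ZMod p) G * G⁻¹) * hF

theorem wr_eq (F G : PowerSeries (ZMod p)) (hF : F * F⁻¹ = 1) (hG : G * G⁻¹ = 1) :
    PowerSeries.derivative (ZMod p) F * G - F * PowerSeries.derivative (ZMod p) G =
      (dlog F - dlog G) * (F * G) := by
  unfold dlog
  linear_combination (-(PowerSeries.derivative (ZMod p) F * G)) * hF +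
    (F * PowerSeries.derivative (ZMod p) G) * hG

theorem lc_mul (f g : Polynomial (ZMod p)) (hf : f.coeff 0 = 1) (hg : g.coeff 0 = 1) (i : ℕ) :
    lc (f * g) i = lc f i + lc g i := by
  have hF := unit_coe f hf
  have hG := unit_coe g hg
  have h : dlog ((f * g : Polynomial (ZMod p)) : PowerSeries (ZMod p)) =
      dlog (f : PowerSeries (ZMod p)) + dlog (g : PowerSeries (ZMod p)) := by
    unfold dlog
    rw [Polynomial.coe_mul, PowerSeries.mul_inv_rev, Derivation.leibniz, smul_eq_mul, smul_eq_mul]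
    linear_combination (PowerSeries.derivative (ZMod p) (g : PowerSeries (ZMod p)) *
      (g : PowerSeries (ZMod p))⁻¹) * hF +
      (PowerSeries.derivative (ZMod p) (f : PowerSeries (ZMod p)) *
      (f : PowerSeries (ZMod p))⁻¹) * hG
  unfold lc
  rw [h, map_add]

theorem lc_local (f g : Polynomial (ZMod p)) (n : ℕ) (hf : f.coeff 0 = 1) (hg : g.coeff 0 = 1)
    (h : Polynomial.X ^ (n + 1) ∣ f - g) (i : ℕ) (hi : i < n) : lc f i = lc g i := by
  have hF := unit_coe f hf
  have hG := unit_coe g hg
  obtain ⟨H, hH⟩ := h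
  have hfg : (f : PowerSeries (ZMod p)) =
      (g : PowerSeries (ZMod p)) + PowerSeries.X ^ (n + 1) * (H : PowerSeries (ZMod p)) := by
    have h1 : f = g + Polynomial.X ^ (n + 1) * H := by
      rw [← hH]
      ring
    rw [h1]
    push_cast
    ring
  have hd : PowerSeries.X ^ n ∣ dlog (f : PowerSeries (ZMod p)) -
      dlog (g : PowerSeries (ZMod p)) := by
    rw [dlog_sub _ _ hF hG]
    refine Dvd.dvd.mul_right ?_ _
    rw [hfg, map_add, Derivation.leibniz, Derivation.leibniz_pow, smul_eq_mul, smul_eq_mul,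
      nsmul_eq_mul, smul_eq_mul, Nat.add_sub_cancel]
    refine ⟨(PowerSeries.X * PowerSeries.derivative (ZMod p) (H : PowerSeries (ZMod p)) +
      (H : PowerSeries (ZMod p)) * (((n + 1 : ℕ) : PowerSeries (ZMod p)) *
        PowerSeries.derivative (ZMod p) PowerSeries.X)) * (g : PowerSeries (ZMod p)) -
      PowerSeries.X * (H : PowerSeries (ZMod p)) *
        PowerSeries.derivative (ZMod p) (g : PowerSeries (ZMod p)), ?_⟩
    rw [pow_succ]
    ring
  have h2 := (PowerSeries.X_pow_dvd_iff.1 hd) i hi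
  rw [map_sub, sub_eq_zero] at h2
  exact h2

theorem lc_wr (f g : Polynomial (ZMod p)) (n : ℕ) (hf : f.coeff 0 = 1) (hg : g.coeff 0 = 1)
    (h : ∀ i < n, lc f i = lc g i) : PowerSeries.X ^ n ∣
      (PowerSeries.derivative (ZMod p) (f : PowerSeries (ZMod p)) * (g : PowerSeries (ZMod p)) -
        (f : PowerSeries (ZMod p)) *
          PowerSeries.derivative (ZMod p) (g : PowerSeries (ZMod p))) := by
  rw [wr_eq _ _ (unit_coe f hf) (unit_coe g hg)]
  refine Dvd.dvd.mul_right ?_ _
  rw [PowerSeries.X_pow_dvd_iff]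
  intro i hi
  rw [map_sub, sub_eq_zero]
  exact h i hi

theorem lc_sep (m n : ℕ) (f g : Polynomial (ZMod p)) (hmn : 2 * m ≤ n) (hf : f ∈ Pr p m)
    (hg : g ∈ Pr p m) (h : ∀ i < n, lc f i = lc g i) : f = g := by
  obtain ⟨hfi, hfd, hf0⟩ := hf
  obtain ⟨hgi, hgd, hg0⟩ := hg
  have hm : 0 < m := by
    rw [← hfd]
    exact hfi.natDegree_pos
  have hw := lc_wr f g n hf0 hg0 h
  set q : Polynomial (ZMod p) := Polynomial.derivative f * g - f * Polynomial.derivative g with hq
  have hqc : (q : PowerSeries (ZMod p)) =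
      PowerSeries.derivative (ZMod p) (f : PowerSeries (ZMod p)) * (g : PowerSeries (ZMod p)) -
        (f : PowerSeries (ZMod p)) *
          PowerSeries.derivative (ZMod p) (g : PowerSeries (ZMod p)) := by
    rw [PowerSeries.derivative_coe, PowerSeries.derivative_coe, hq]
    push_cast
    ring
  rw [← hqc, PowerSeries.X_pow_dvd_iff] at hw
  have hdeg : q.natDegree < n := by
    have h1 : (Polynomial.derivative f * g).natDegree ≤ (m - 1) + m :=
      (Polynomial.natDegree_mul_le).trans (add_le_add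
        ((Polynomial.natDegree_derivative_le f).trans (by rw [hfd])) hgd.le)
    have h2 : (f * Polynomial.derivative g).natDegree ≤ m + (m - 1) :=
      (Polynomial.natDegree_mul_le).trans (add_le_add hfd.le
        ((Polynomial.natDegree_derivative_le g).trans (by rw [hgd])))
    have h3 := Polynomial.natDegree_sub_le (Polynomial.derivative f * g)
      (f * Polynomial.derivative g)
    rw [← hq] at h3
    omega
  have hq0 : q = 0 := by
    ext i
    rw [Polynomial.coeff_zero]
    by_cases hi : i < n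
    · have h1 := hw i hi
      rwa [Polynomial.coeff_coe] at h1
    · exact Polynomial.coeff_eq_zero_of_natDegree_lt (by omega)
  have hfg : f ∣ g := by
    have hsep : f.Separable := PerfectField.separable_of_irreducible hfi
    have h1 : f ∣ Polynomial.derivative f * g := by
      rw [sub_eq_zero.1 (hq.symm.trans hq0)]
      exact dvd_mul_right _ _
    exact IsCoprime.dvd_of_dvd_mul_left hsep h1
  obtain ⟨u, hu⟩ := (hfi.dvd_irreducible_iff_associated hgi).1 hfg
  obtain ⟨r, -, hr⟩ := Polynomial.isUnit_iff.1 u.isUnit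
  rw [← hr] at hu
  have h1 : g.coeff 0 = f.coeff 0 * r := by
    rw [← hu, Polynomial.coeff_mul_C]
  rw [hf0, hg0, one_mul] at h1
  rw [← h1, Polynomial.C_1, mul_one] at hu
  exact hu

end

theorem s_lc : Pool.Agent.H601.FP.S_lc := by
  intro p _
  exact ⟨fun f g hf hg i => lc_mul f g hf hg i, fun f g n hf hg h i hi => lc_local f g n hf hg h i hi,
    fun f g n hf hg h => lc_wr f g n hf hg h, fun m n f g hmn hf hg h => lc_sep m n f g hmn hf hg h⟩

end Pool.Agent.H996.FP
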