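import Pool.Agent.H601.FP.Def2

/-!
# Project FP of helper601, task M: the first moment method (by helper289)
-/

set_option autoImplicit false

namespace Pool.Agent.H289.FPM

open Pool.Agent.H601.FP

theorem K_le (K : ℕ) (hK : 1 ≤ K) : (K : ℝ) * (1 / 8) ^ K ≤ 1 / 2 ^ (K + 1) := by
  rw [one_div_pow, mul_one_div, div_le_div_iff₀ (by positivity) (by positivity)]
  have h1 : K < 2 ^ K := Nat.lt_two_pow_self
  have h2 : (K : ℝ) ≤ 2 ^ K := by exact_mod_cast h1.le
  have h3 : (2 : ℝ) ^ (K + 1) ≤ 2 ^ (2 * K) := pow_le_pow_right₀ (by norm_num) (by omega)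
  have h4 : (8 : ℝ) ^ K = 2 ^ K * 2 ^ (2 * K) := by
    rw [← pow_add, show K + 2 * K = 3 * K by ring, pow_mul]
    norm_num
  calc (K : ℝ) * 2 ^ (K + 1) ≤ 2 ^ K * 2 ^ (2 * K) := by gcongr
    _ = 1 * 8 ^ K := by rw [h4, one_mul]

theorem geo (n : ℕ) : ∑ K ∈ Finset.Icc 1 n, (1 : ℝ) / 2 ^ (K + 1) = 1 / 2 - 1 / 2 ^ (n + 1) := by
  induction n with
  | zero => simp
  | succ m ih =>
    rw [Finset.sum_Icc_succ_top (by omega), ih, pow_succ (2 : ℝ) (m + 1)]
    field_simp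
    ring

open Classical in
theorem bad_ncard (P : Prm) (S : St P.p) (k : ℕ) (hfin : (Pr P.p (P.d * k)).Finite) :
    {x | x ∈ Pr P.p (P.d * k) ∧ Bad P S k x}.ncard ≤
      ∑ l ∈ (Finset.range k).filter (fun l => Dang P k l), (BadL P S k l).ncard := by
  have h1 : {x | x ∈ Pr P.p (P.d * k) ∧ Bad P S k x} ⊆
      ⋃ l ∈ (Finset.range k).filter (fun l => Dang P k l), BadL P S k l := by
    rintro x0 ⟨hx0, l, y0, x, y, hD, hB⟩
    simp only [Set.mem_iUnion]
    exact ⟨l, Finset.mem_filter.2 ⟨Finset.mem_range.2 hD.2.1, hD⟩, hx0, y0, x, y, hB⟩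
  refine (Set.ncard_le_ncard h1 ?_).trans (Finset.set_ncard_biUnion_le _ _)
  refine hfin.subset ?_
  intro x hx
  simp only [Set.mem_iUnion] at hx
  obtain ⟨l, -, hx, -⟩ := hx
  exact hx

theorem s_markov : Pool.Agent.H601.FP.S_markov := by
  classical
  intro P hfin hpos hE hBB J
  let U : Finset (Polynomial (ZMod P.p)) :=
    (Finset.range (J + 1)).biUnion fun k => (hfin (P.d * k)).toFinset
  have hU : ∀ k, k ≤ J → Pr P.p (P.d * k) ⊆ (U : Set (Polynomial (ZMod P.p))) := by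
    intro k hk x hx
    rw [Finset.mem_coe, Finset.mem_biUnion]
    exact ⟨k, Finset.mem_range.2 (by omega), (Set.Finite.mem_toFinset _).2 hx⟩
  by_contra hcon
  push Not at hcon
  have hpos' : ∀ k, 1 ≤ k → (0 : ℝ) < ((Pr P.p (P.d * k)).ncard : ℝ) := fun k hk => by
    exact_mod_cast hpos k hk
  -- the expectation at the scale `k`
  have hsum : ∀ k, 1 ≤ k → k ≤ J → ∑ ω : Om P.p (P.a * J) U,
      ((({x | x ∈ Pr P.p (P.d * k) ∧ Bad P (toSt ω) k x}.ncard : ℕ)) : ℝ) ≤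
      (Fintype.card (Om P.p (P.a * J) U) : ℝ) *
        (((Pr P.p (P.d * k)).ncard : ℝ) * (1 / 2 ^ (k + 1))) := by
    intro k hk hkJ
    calc ∑ ω : Om P.p (P.a * J) U,
        ((({x | x ∈ Pr P.p (P.d * k) ∧ Bad P (toSt ω) k x}.ncard : ℕ)) : ℝ) ≤
        ∑ ω : Om P.p (P.a * J) U, ∑ l ∈ (Finset.range k).filter (fun l => Dang P k l),
          ((BadL P (toSt ω) k l).ncard : ℝ) := by
          refine Finset.sum_le_sum fun ω _ => ?_
          exact_mod_cast bad_ncard P (toSt ω) k (hfin _)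
      _ = ∑ l ∈ (Finset.range k).filter (fun l => Dang P k l),
          ∑ ω : Om P.p (P.a * J) U, ((BadL P (toSt ω) k l).ncard : ℝ) := Finset.sum_comm
      _ ≤ ∑ l ∈ (Finset.range k).filter (fun l => Dang P k l),
          (Fintype.card (Om P.p (P.a * J) U) : ℝ) *
            (((Pr P.p (P.d * k)).ncard : ℝ) * (1 / 8) ^ k) := by
          refine Finset.sum_le_sum fun l hl => ?_
          rw [Finset.mem_filter] at hl
          have hl2 : l < k := hl.2.2.1
          refine (hE (P.a * J) U k l hl.2 (Nat.mul_le_mul_left _ hkJ) (hU k hkJ)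
            (hU l (by omega))).trans ?_
          have h3 := hBB k l hl.2
          gcongr
      _ = (((Finset.range k).filter (fun l => Dang P k l)).card : ℝ) *
          ((Fintype.card (Om P.p (P.a * J) U) : ℝ) *
            (((Pr P.p (P.d * k)).ncard : ℝ) * (1 / 8) ^ k)) := by
          rw [Finset.sum_const, nsmul_eq_mul]
      _ ≤ (k : ℝ) * ((Fintype.card (Om P.p (P.a * J) U) : ℝ) *
            (((Pr P.p (P.d * k)).ncard : ℝ) * (1 / 8) ^ k)) := by
          have h4 : (((Finset.range k).filter (fun l => Dang P k l)).card : ℝ) ≤ k := by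
            have : ((Finset.range k).filter (fun l => Dang P k l)).card ≤ k := by
              refine (Finset.card_filter_le _ _).trans ?_
              rw [Finset.card_range]
            exact_mod_cast this
          gcongr
      _ = (Fintype.card (Om P.p (P.a * J) U) : ℝ) *
            (((Pr P.p (P.d * k)).ncard : ℝ) * ((k : ℝ) * (1 / 8) ^ k)) := by ring
      _ ≤ _ := by
          have h5 := K_le k hk
          gcongr
  have hlt : ∀ ω : Om P.p (P.a * J) U, (1 : ℝ) / 2 < ∑ k ∈ Finset.Icc 1 J,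
      ((({x | x ∈ Pr P.p (P.d * k) ∧ Bad P (toSt ω) k x}.ncard : ℕ)) : ℝ) /
        ((Pr P.p (P.d * k)).ncard : ℝ) := by
    intro ω
    obtain ⟨k, hk1, hk2, hk3⟩ := hcon (toSt ω)
    have h1 : (1 : ℝ) / 2 < ((({x | x ∈ Pr P.p (P.d * k) ∧ Bad P (toSt ω) k x}.ncard : ℕ)) : ℝ) /
        ((Pr P.p (P.d * k)).ncard : ℝ) := by
      rw [lt_div_iff₀ (hpos' k hk1)]
      have : ((Pr P.p (P.d * k)).ncard : ℝ) <
          2 * ((({x | x ∈ Pr P.p (P.d * k) ∧ Bad P (toSt ω) k x}.ncard : ℕ)) : ℝ) := by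
        exact_mod_cast hk3
      linarith
    refine lt_of_lt_of_le h1 ?_
    refine Finset.single_le_sum (f := fun k =>
      ((({x | x ∈ Pr P.p (P.d * k) ∧ Bad P (toSt ω) k x}.ncard : ℕ)) : ℝ) /
        ((Pr P.p (P.d * k)).ncard : ℝ)) (fun i _ => by positivity) (Finset.mem_Icc.2 ⟨hk1, hk2⟩)
  have h2 : ∑ _ω : Om P.p (P.a * J) U, ((1 : ℝ) / 2) < ∑ ω : Om P.p (P.a * J) U,
      ∑ k ∈ Finset.Icc 1 J,
      ((({x | x ∈ Pr P.p (P.d * k) ∧ Bad P (toSt ω) k x}.ncard : ℕ)) : ℝ) /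
        ((Pr P.p (P.d * k)).ncard : ℝ) :=
    Finset.sum_lt_sum_of_nonempty Finset.univ_nonempty fun ω _ => hlt ω
  rw [Finset.sum_const, nsmul_eq_mul, Finset.sum_comm, Finset.card_univ] at h2
  have h3 : ∑ k ∈ Finset.Icc 1 J, ∑ ω : Om P.p (P.a * J) U,
      ((({x | x ∈ Pr P.p (P.d * k) ∧ Bad P (toSt ω) k x}.ncard : ℕ)) : ℝ) /
        ((Pr P.p (P.d * k)).ncard : ℝ) ≤
      ∑ k ∈ Finset.Icc 1 J, (Fintype.card (Om P.p (P.a * J) U) : ℝ) * (1 / 2 ^ (k + 1)) := by
    refine Finset.sum_le_sum fun k hk => ?_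
    rw [Finset.mem_Icc] at hk
    rw [← Finset.sum_div, div_le_iff₀ (hpos' k hk.1)]
    refine (hsum k hk.1 hk.2).trans (le_of_eq ?_)
    ring
  rw [← Finset.mul_sum, geo] at h3
  have h4 : (0 : ℝ) ≤ (Fintype.card (Om P.p (P.a * J) U) : ℝ) * (1 / 2 ^ (J + 1)) := by positivity
  linarith

end Pool.Agent.H289.FPM
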