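import Pool.Agent.H601.FP.Def

/-!
# The numerical inequality (adapted from helper86)
-/

set_option autoImplicit false

namespace Pool.Agent.H601.FP

namespace NumN2

theorem pow_div_le {p : ℝ} (hp : 8 ≤ p) {u v k : ℕ} (h : u + k ≤ v) :
    p ^ u / p ^ v ≤ (1 / 8) ^ k := by
  have hp0 : 0 < p := by linarith
  have h1 : p ^ v = p ^ u * p ^ (v - u) := by
    rw [← pow_add]
    congr 1
    omega
  have h2 : p ^ u / p ^ v = (p ^ (v - u))⁻¹ := by
    rw [h1]
    field_simp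
  rw [h2, one_div, inv_pow]
  apply inv_anti₀ (by positivity)
  calc (8 : ℝ) ^ k ≤ p ^ k := pow_le_pow_left₀ (by norm_num) hp k
    _ ≤ p ^ (v - u) := pow_le_pow_right₀ (by linarith) (by omega)

theorem c1 {g q a s d k l : ℝ} (hg : 1 ≤ g) (hq : 6 * g ^ 3 ≤ q)
    (ha : a = (16 * g + 8) * q) (hs : s = (16 * g + 4) * q) (hd : d = (8 * g + 1) * q - 1)
    (hk : 1 ≤ k) (h : s * l ≤ d * k) : 2 * d * l + d * k + k ≤ a * k := by
  have hg3 : 1 ≤ g ^ 3 := one_le_pow₀ hg
  have hq0 : 6 ≤ q := by linarith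
  have hx : 9 * q ≤ (8 * g + 1) * q := by nlinarith
  have hd0 : 0 < d := by rw [hd]; linarith
  have hs0 : 0 < s := by rw [hs]; nlinarith
  have h1 : s * (2 * d * l) ≤ 2 * d * (d * k) := by
    have := mul_le_mul_of_nonneg_left h (by linarith : (0 : ℝ) ≤ 2 * d)
    linarith
  have h2 : 2 * d * d ≤ s * (a - d - 1) := by
    have e1 : s * (a - d - 1) = (16 * g + 4) * (8 * g + 7) * (q * q) := by
      rw [ha, hs, hd]
      ring
    have h3 : d * d ≤ ((8 * g + 1) * q) * ((8 * g + 1) * q) := by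
      have h4 : d ≤ (8 * g + 1) * q := by rw [hd]; linarith
      exact mul_le_mul h4 h4 hd0.le (by linarith)
    rw [e1]
    have h4 : 0 ≤ (112 * g + 26) * (q * q) := mul_nonneg (by linarith) (by positivity)
    nlinarith
  have h3 : s * (2 * d * l) ≤ s * ((a - d - 1) * k) := by
    have h4 := mul_le_mul_of_nonneg_right h2 (by linarith : (0 : ℝ) ≤ k)
    linarith
  have h4 := le_of_mul_le_mul_left h3 hs0
  linarith

/-- the ratio of dangerous scales -/
theorem c0 {g q s d k l : ℝ} (hg : 1 ≤ g) (hq0 : 6 ≤ q)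
    (hs : s = (16 * g + 4) * q) (hd : d = (8 * g + 1) * q - 1)
    (hk : 1 ≤ k) (hl : 0 ≤ l) (h : (s - d) * l ≤ d * k) : (8 * g + 3) * l ≤ (8 * g + 1) * k := by
  have h1 : q * ((8 * g + 3) * l) ≤ q * ((8 * g + 1) * k) := by
    rw [hs, hd] at h
    nlinarith
  exact le_of_mul_le_mul_left h1 (by linarith)

theorem c2 {g q a s k l : ℝ} (hg : 1 ≤ g) (hq0 : 6 ≤ q)
    (ha : a = (16 * g + 8) * q) (hs : s = (16 * g + 4) * q)
    (hk : 1 ≤ k) (h : (8 * g + 3) * l ≤ (8 * g + 1) * k) : a * l ≤ s * k := by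
  have h1 : (8 * g + 3) * ((16 * g + 8) * l) ≤ (8 * g + 3) * ((16 * g + 4) * k) := by
    have h2 := mul_le_mul_of_nonneg_left h (by linarith : (0 : ℝ) ≤ 16 * g + 8)
    nlinarith
  have h3 := le_of_mul_le_mul_left h1 (by linarith)
  have h4 := mul_le_mul_of_nonneg_left h3 (by linarith : (0 : ℝ) ≤ q)
  rw [ha, hs]
  nlinarith

theorem c2' {g q a s d k l : ℝ} (hg : 1 ≤ g) (hq0 : 6 ≤ q)
    (ha : a = (16 * g + 8) * q) (hs : s = (16 * g + 4) * q) (hd : d = (8 * g + 1) * q - 1)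
    (hk : 1 ≤ k) (hl : 0 ≤ l) (h : (8 * g + 3) * l ≤ (8 * g + 1) * k) :
    (d + a - s) * l ≤ (s - d) * k := by
  have h1 : (8 * g + 3) * ((8 * g + 5) * l) ≤ (8 * g + 3) * ((8 * g + 3) * k) := by
    have h2 := mul_le_mul_of_nonneg_left h (by linarith : (0 : ℝ) ≤ 8 * g + 5)
    nlinarith
  have h3 := le_of_mul_le_mul_left h1 (by linarith)
  have h4 := mul_le_mul_of_nonneg_left h3 (by linarith : (0 : ℝ) ≤ q)
  rw [ha, hs, hd]
  nlinarith

theorem c3 {g q a s d k l t : ℝ} (hg : 1 ≤ g) (hq : 6 * g ^ 3 ≤ q)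
    (ha : a = (16 * g + 8) * q) (hs : s = (16 * g + 4) * q) (hd : d = (8 * g + 1) * q - 1)
    (hk : 1 ≤ k) (hl : 0 ≤ l) (h : (8 * g + 3) * l ≤ (8 * g + 1) * k)
    (ht : 11 * g ^ 2 * t ≤ q * k) (ht0 : 0 ≤ t) :
    d * l + (d - s) * k + (d + a - s) * l + (g - 1) * (g + 1 + t) + k ≤
      g * ((a - s) * l + (a - s) * k) := by
  have hg3 : 1 ≤ g ^ 3 := one_le_pow₀ hg
  have hq0 : 6 ≤ q := by linarith
  have h5 : (8 * g + 3) * ((g - 1) * t) ≤ q * k := by
    refine le_trans ?_ ht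
    have h6 : (8 * g + 3) * (g - 1) ≤ 11 * g ^ 2 := by nlinarith
    have h7 := mul_le_mul_of_nonneg_right h6 ht0
    linarith
  have h6 : (8 * g + 3) * ((g - 1) * (g + 1)) ≤ 2 * (q * k) := by
    have h7 : (8 * g + 3) * ((g - 1) * (g + 1)) ≤ 11 * g ^ 3 := by
      have e : g ^ 3 = g * g ^ 2 := by ring
      have e2 : g ^ 2 * 1 ≤ g ^ 2 * g := mul_le_mul_of_nonneg_left hg (by positivity)
      nlinarith
    have h8 : q * 1 ≤ q * k := mul_le_mul_of_nonneg_left hk (by linarith)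
    nlinarith
  have h7 := mul_le_mul_of_nonneg_left h (by positivity : (0 : ℝ) ≤ (12 * g + 6) * q)
  have e1 : d * l + (d - s) * k + (d + a - s) * l - g * ((a - s) * l + (a - s) * k) =
    ((12 * g + 6) * q - 2) * l - ((12 * g + 3) * q + 1) * k := by
    rw [ha, hs, hd]
    ring
  have h8 : (8 * g + 3) * (((12 * g + 6) * q - 2) * l - ((12 * g + 3) * q + 1) * k
      + (g - 1) * (g + 1 + t) + k) ≤ 0 := by
    have e2 : (8 * g + 3) * (((12 * g + 6) * q - 2) * l - ((12 * g + 3) * q + 1) * k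
      + (g - 1) * (g + 1 + t) + k) = (12 * g + 6) * q * ((8 * g + 3) * l)
        - (12 * g + 3) * (8 * g + 3) * (q * k) - 2 * ((8 * g + 3) * l)
        + (8 * g + 3) * ((g - 1) * (g + 1)) + (8 * g + 3) * ((g - 1) * t) := by ring
    have e3 : (12 * g + 6) * q * ((8 * g + 1) * k)
        = (12 * g + 3) * (8 * g + 3) * (q * k) - 3 * (q * k) := by ring
    have h9 : 0 ≤ (8 * g + 3) * l := by positivity
    rw [e2]
    linarith
  have h9 : ((12 * g + 6) * q - 2) * l - ((12 * g + 3) * q + 1) * k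
      + (g - 1) * (g + 1 + t) + k ≤ 0 := by
    by_contra hcon
    push Not at hcon
    have := mul_pos (by linarith : (0 : ℝ) < 8 * g + 3) hcon
    linarith
  linarith

theorem add_le_pow {p : ℝ} (hp : 2 ≤ p) {u v : ℕ} : p ^ u + p ^ v ≤ p ^ (u + v + 1) := by
  have h1 : 1 ≤ p ^ u := one_le_pow₀ (by linarith)
  have h2 : 1 ≤ p ^ v := one_le_pow₀ (by linarith)
  rw [pow_succ, pow_add]
  generalize p ^ u = x at h1 ⊢
  generalize p ^ v = y at h2 ⊢
  have h3 : x ≤ x * y := le_mul_of_one_le_right (by linarith) h2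
  have h4 : y ≤ x * y := le_mul_of_one_le_left (by linarith) h1
  have h5 : x * y * 2 ≤ x * y * p := mul_le_mul_of_nonneg_left hp (by nlinarith)
  linarith

end NumN2

open NumN2 in
theorem s_num2 (P : Prm) (q : ℕ) (hq : 6 * P.g ^ 3 ≤ q) (hp : 220 * P.g ^ 3 ≤ P.p)
    (ha : P.a = (16 * P.g + 8) * q) (hs : P.s = (16 * P.g + 4) * q)
    (hd : P.d = (8 * P.g + 1) * q - 1) (k l : ℕ) (hD : Dang P k l) : BB P k l ≤ (1 / 8) ^ k := by
  obtain ⟨hl1, hlk, hdang⟩ := hD
  have hg := P.hg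
  have hgr : (1 : ℝ) ≤ P.g := by exact_mod_cast hg
  have hqr : 6 * (P.g : ℝ) ^ 3 ≤ q := by exact_mod_cast hq
  have hpr : 220 * (P.g : ℝ) ^ 3 ≤ P.p := by exact_mod_cast hp
  have hg3r : (1 : ℝ) ≤ (P.g : ℝ) ^ 3 := one_le_pow₀ hgr
  have hp8 : (8 : ℝ) ≤ P.p := by linarith
  have hp0 : (0 : ℝ) < P.p := by linarith
  have hq6r : (6 : ℝ) ≤ q := by linarith
  have hq8 : 6 ≤ q := by exact_mod_cast hq6r
  have har : (P.a : ℝ) = (16 * P.g + 8) * q := by
    rw [ha]
    push_cast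
    ring
  have hsr : (P.s : ℝ) = (16 * P.g + 4) * q := by
    rw [hs]
    push_cast
    ring
  have hdr : (P.d : ℝ) = (8 * P.g + 1) * q - 1 := by
    rw [hd]
    have h2 : 1 ≤ (8 * P.g + 1) * q := Nat.mul_pos (by omega) (by omega)
    rw [Nat.cast_sub h2, Nat.cast_mul]
    push_cast
    ring
  have hk1 : (1 : ℝ) ≤ k := by exact_mod_cast (by omega : 1 ≤ k)
  have hlkr : (l : ℝ) ≤ k := by exact_mod_cast hlk.le
  have hl0 : (0 : ℝ) ≤ l := Nat.cast_nonneg _
  have hp1 : (1 : ℝ) ≤ P.p := by linarith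
  have hp2 : (2 : ℝ) ≤ P.p := by linarith
  -- the fraction
  have hsl : P.s * l ≤ P.a * l := Nat.mul_le_mul_right _ P.hsa
  have hsk : P.s * k ≤ P.a * k := Nat.mul_le_mul_right _ P.hsa
  have hlk' : P.a * l ≤ P.a * k := Nat.mul_le_mul_left _ hlk.le
  have ht : 11 * (P.g : ℝ) ^ 2 * ((P.s * l / P.p : ℕ) : ℝ) ≤ q * k := by
    have h1 : (((P.s * l / P.p : ℕ) : ℝ)) * P.p ≤ P.s * l := by
      exact_mod_cast Nat.div_mul_le_self (P.s * l) P.p
    have h2 : (P.s : ℝ) * l ≤ 20 * P.g * q * k := by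
      have h3 : (P.s : ℝ) ≤ 20 * P.g * q := by
        rw [hsr]
        nlinarith
      exact mul_le_mul h3 hlkr hl0 (by positivity)
    have h3 : (((P.s * l / P.p : ℕ) : ℝ)) * (220 * (P.g : ℝ) ^ 3) ≤ 20 * P.g * q * k := by
      have h4 : (((P.s * l / P.p : ℕ) : ℝ)) * (220 * (P.g : ℝ) ^ 3) ≤
        (((P.s * l / P.p : ℕ) : ℝ)) * P.p := mul_le_mul_of_nonneg_left hpr (Nat.cast_nonneg _)
      linarith
    have h4 : (20 * (P.g : ℝ)) * (11 * (P.g : ℝ) ^ 2 * ((P.s * l / P.p : ℕ) : ℝ)) ≤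
      (20 * (P.g : ℝ)) * (q * k) := by
      have e : (20 * (P.g : ℝ)) * (11 * (P.g : ℝ) ^ 2 * ((P.s * l / P.p : ℕ) : ℝ))
        = (((P.s * l / P.p : ℕ) : ℝ)) * (220 * (P.g : ℝ) ^ 3) := by ring
      rw [e]
      linarith
    exact le_of_mul_le_mul_left h4 (by positivity)
  unfold BB
  generalize hT : P.s * l / P.p = t at ht ⊢
  have ht0 : (0 : ℝ) ≤ t := Nat.cast_nonneg _
  by_cases hc : P.d * k ≤ P.s * l
  · have hgam : gam P k l = P.g := by
      unfold gam
      rw [if_pos hc]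
    rw [hgam]
    obtain ⟨g', hg'⟩ : ∃ g', P.g = g' + 1 := ⟨P.g - 1, by omega⟩
    have hg1 : P.g - 1 = g' := by omega
    rw [hg1, ← pow_mul]
    have hg'r : (g' : ℝ) = P.g - 1 := by
      rw [hg']
      push_cast
      ring
    have hratio : (8 * (P.g : ℝ) + 3) * l ≤ (8 * (P.g : ℝ) + 1) * k := by
      refine c0 hgr hq6r hsr hdr hk1 hl0 ?_
      have h1 : (P.s : ℝ) * l ≤ P.d * (k + l) := by exact_mod_cast hdang.le
      linarith
    have hm : P.a * l ≤ P.s * k := by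
      have h1 : (P.a : ℝ) * l ≤ P.s * k := c2 hgr hq6r har hsr hk1 hratio
      exact_mod_cast h1
    · -- `m > 0`
      rw [max_eq_right hm]
      obtain ⟨m, hm'⟩ : ∃ m, P.s * k = P.a * l + m := ⟨P.s * k - P.a * l, by omega⟩
      have hm1 : P.s * k - P.a * l = m := by omega
      rw [hm1]
      obtain ⟨L, hL⟩ : ∃ L, P.d * (k + l) = P.s * l + L := ⟨P.d * (k + l) - P.s * l, by omega⟩
      have hL' : P.d * (k + l) - P.s * l = L := by omega
      rw [hL']
      obtain ⟨E₁, hE₁⟩ : ∃ E, P.a * l = P.s * l + E := ⟨P.a * l - P.s * l, by omega⟩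
      obtain ⟨E₂, hE₂⟩ : ∃ E, P.a * k = P.s * k + E := ⟨P.a * k - P.s * k, by omega⟩
      have hE₁' : P.a * l - P.s * l = E₁ := by omega
      have hE₂' : P.a * k - P.s * k = E₂ := by omega
      rw [hE₁', hE₂']
      have hLr : (P.d : ℝ) * (k + l) = P.s * l + L := by exact_mod_cast hL
      have hmr : (P.s : ℝ) * k = P.a * l + m := by exact_mod_cast hm'
      have hE1r : (P.a : ℝ) * l = P.s * l + E₁ := by exact_mod_cast hE₁
      have hE2r : (P.a : ℝ) * k = P.s * k + E₂ := by exact_mod_cast hE₂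
      have hLm : L ≤ m := by
        have h1 : (L : ℝ) ≤ m := by
          have h2 := c2' hgr hq6r har hsr hdr hk1 hl0 hratio
          linarith
        exact_mod_cast h1
      have hfr : (P.p : ℝ) ^ L / (P.p : ℝ) ^ m ≤ (P.p : ℝ) ^ 0 := by
        rw [pow_zero, div_le_one (by positivity)]
        exact pow_le_pow_right₀ hp1 hLm
      have h1 : ((P.p : ℝ) ^ P.g * (P.p : ℝ) ^ t + (P.p : ℝ) ^ L / (P.p : ℝ) ^ m) ^ g' ≤
          (P.p : ℝ) ^ ((P.g + t + 1) * g') := by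
        rw [pow_mul, ← pow_add]
        refine pow_le_pow_left₀ (by positivity) ?_ _
        refine (add_le_add_right hfr _).trans ?_
        exact add_le_pow hp2
      have h2 : (P.p : ℝ) ^ (P.d * l) * ((P.p : ℝ) ^ L / (P.p : ℝ) ^ m *
          ((P.p : ℝ) ^ P.g * (P.p : ℝ) ^ t + (P.p : ℝ) ^ L / (P.p : ℝ) ^ m) ^ g') ≤
          (P.p : ℝ) ^ (P.d * l + (L + (P.g + t + 1) * g')) / (P.p : ℝ) ^ m := by
        have e1 : (P.p : ℝ) ^ (P.d * l + (L + (P.g + t + 1) * g')) / (P.p : ℝ) ^ m =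
          (P.p : ℝ) ^ (P.d * l) * ((P.p : ℝ) ^ L / (P.p : ℝ) ^ m *
            (P.p : ℝ) ^ ((P.g + t + 1) * g')) := by
          rw [pow_add, pow_add]
          ring
        rw [e1]
        apply mul_le_mul_of_nonneg_left _ (by positivity)
        exact mul_le_mul_of_nonneg_left h1 (by positivity)
      refine (div_le_div_of_nonneg_right h2 (by positivity)).trans ?_
      rw [div_div, ← pow_add]
      apply pow_div_le hp8
      have h3 := c3 hgr hqr har hsr hdr hk1 hl0 hratio ht ht0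
      have h4 : ((P.d * l + (L + (P.g + t + 1) * g') + k : ℕ) : ℝ) ≤
          ((m + P.g * (E₁ + E₂) : ℕ) : ℝ) := by
        push_cast
        rw [hg'r]
        have e1 : (L : ℝ) = P.d * (k + l) - P.s * l := by linarith
        have e2 : (m : ℝ) = P.s * k - P.a * l := by linarith
        have e3 : (E₁ : ℝ) = P.a * l - P.s * l := by linarith
        have e4 : (E₂ : ℝ) = P.a * k - P.s * k := by linarith
        rw [e1, e2, e3, e4]
        nlinarith
      exact_mod_cast h4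
  · have hgam : gam P k l = 1 := by
      unfold gam
      rw [if_neg hc]
    rw [hgam, Nat.sub_self, pow_zero, mul_one, pow_one, mul_div_assoc', ← pow_add, div_div,
      ← pow_add]
    apply pow_div_le hp8
    have hE : P.s * k - P.a * l + (P.a * l - P.s * l + (P.a * k - max (P.a * l) (P.s * k))) +
        P.s * l = P.a * k := by
      rcases le_total (P.s * k) (P.a * l) with hm | hm
      · rw [max_eq_left hm]
        omega
      · rw [max_eq_right hm]
        omega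
    generalize P.s * k - P.a * l + (P.a * l - P.s * l + (P.a * k - max (P.a * l) (P.s * k))) = E
      at hE ⊢
    obtain ⟨L, hL⟩ : ∃ L, P.d * (k + l) = P.s * l + L := ⟨P.d * (k + l) - P.s * l, by omega⟩
    have hL' : P.d * (k + l) - P.s * l = L := by omega
    rw [hL']
    have hLr : (P.d : ℝ) * (k + l) = P.s * l + L := by exact_mod_cast hL
    have hEr : (E : ℝ) + P.s * l = P.a * k := by exact_mod_cast hE
    have hc' : (P.s : ℝ) * l ≤ P.d * k := by exact_mod_cast (not_le.1 hc).le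
    have h3 := c1 hgr hqr har hsr hdr hk1 hc'
    have h4 : ((P.d * l + L + k : ℕ) : ℝ) ≤ ((E : ℕ) : ℝ) := by
      push_cast
      linarith
    exact_mod_cast h4

end Pool.Agent.H601.FP
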