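import Pool.Agent.H601.FP.Stm

/-!
# Task 9: unique factorisation for pairs (helper441 for helper601)
-/

set_option autoImplicit false

namespace Pool.Agent.H601.FP

namespace PairX

theorem eq_of_dvd {p : ℕ} [Fact p.Prime] {m m' : ℕ} {x y : Polynomial (ZMod p)} (hx : x ∈ Pr p m)
    (hy : y ∈ Pr p m') (h : x ∣ y) : x = y := by
  have ha : Associated x y := hx.1.associated_of_dvd hy.1 h
  obtain ⟨u, hu⟩ := ha
  obtain ⟨c, hc, hcu⟩ := Polynomial.isUnit_iff.1 u.isUnit
  rw [← hcu] at hu
  have h1 := congrArg (fun f => Polynomial.coeff f 0) hu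
  simp only [Polynomial.coeff_mul_C, hx.2.2, hy.2.2, one_mul] at h1
  rw [h1, Polynomial.C_1, mul_one] at hu
  exact hu

end PairX

theorem s_pair : S_pair := by
  intro p _ n m₁ m₂ hn x y x' y' hx hx' hy hy' hdvd
  have hp : Nat.Prime p := Fact.out
  have heq : x * y = x' * y' := by
    rw [← sub_eq_zero]
    by_contra h0
    have h1 := Polynomial.natDegree_le_of_dvd hdvd h0
    rw [Polynomial.natDegree_X_pow] at h1
    have h2 : (x * y).natDegree ≤ m₁ + m₂ := by
      refine Polynomial.natDegree_mul_le.trans ?_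
      rw [hx.2.1, hy.2.1]
    have h3 : (x' * y').natDegree ≤ m₁ + m₂ := by
      refine Polynomial.natDegree_mul_le.trans ?_
      rw [hx'.2.1, hy'.2.1]
    have h4 := (Polynomial.natDegree_sub_le (x * y) (x' * y')).trans (max_le h2 h3)
    omega
  have hxd : x ∣ x' * y' := heq ▸ dvd_mul_right x y
  rcases hx.1.prime.dvd_or_dvd hxd with h | h
  · left
    have h1 : x = x' := PairX.eq_of_dvd hx hx' h
    refine ⟨h1, ?_⟩
    rw [← h1] at heq
    exact mul_left_cancel₀ hx.1.ne_zero heq
  · right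
    have h1 : x = y' := PairX.eq_of_dvd hx hy' h
    refine ⟨h1, ?_⟩
    rw [← h1, mul_comm x' x] at heq
    exact mul_left_cancel₀ hx.1.ne_zero heq

end Pool.Agent.H601.FP
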