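import Pool.Agent.H601.FP.Stm

/-! # Project FP (helper601): Task 5 (rows) -/

set_option autoImplicit false

namespace Pool.Agent.H44.FP

open Pool.Agent.H601.FP

theorem mem_ann {p n γ : ℕ} [Fact p.Prime] {z : Fin γ → Fin n → ZMod p} {a : Fin n → ZMod p} :
    a ∈ ann z ↔ ∀ t, ∑ i, a i * z t i = 0 := by
  unfold ann
  simp

theorem s_row : S_row := by
  classical
  intro p _ n N γ hn z Z u hZ
  obtain ⟨r, rfl⟩ := Nat.exists_eq_add_of_le hn
  have hr : n + r - n = r := by omega
  rw [hr]
  have hcast : ∀ i : Fin n, Fin.castLE hn i = Fin.castAdd r i := fun i => rfl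
  have hZ' : ∀ t (i : Fin n), Z t (Fin.castAdd r i) = z t i := fun t i => hZ t i
  -- the last coordinates
  let f : (Fin (n + r) → ZMod p) → (Fin r → ZMod p) := fun a j => a (Fin.natAdd n j)
  have h1 := Finset.card_le_mul_card_image (f := f)
    (Finset.univ.filter (fun a : Fin (n + r) → ZMod p => ∀ t, u t + ∑ i, a i * Z t i = 0))
    (ann z).card (by
      intro b _
      rcases Finset.eq_empty_or_nonempty ((Finset.univ.filter
        (fun a : Fin (n + r) → ZMod p => ∀ t, u t + ∑ i, a i * Z t i = 0)).filter
          (fun a => f a = b)) with h0 | ⟨a₀, ha₀⟩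
      · rw [h0, Finset.card_empty]
        exact Nat.zero_le _
      · rw [Finset.mem_filter, Finset.mem_filter] at ha₀
        refine Finset.card_le_card_of_injOn
          (fun a i => a (Fin.castAdd r i) - a₀ (Fin.castAdd r i)) ?_ ?_
        · intro a ha
          rw [Finset.mem_coe, Finset.mem_filter, Finset.mem_filter] at ha
          rw [Finset.mem_coe, mem_ann]
          intro t
          have e1 := ha.1.2 t
          have e2 := ha₀.1.2 t
          rw [Fin.sum_univ_add] at e1 e2
          have e3 : ∀ j : Fin r, a (Fin.natAdd n j) = a₀ (Fin.natAdd n j) := by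
            intro j
            have := ha.2.trans ha₀.2.symm
            exact congrFun this j
          have e5 : ∑ j : Fin r, a (Fin.natAdd n j) * Z t (Fin.natAdd n j) =
              ∑ j : Fin r, a₀ (Fin.natAdd n j) * Z t (Fin.natAdd n j) :=
            Finset.sum_congr rfl fun j _ => by rw [e3 j]
          have e4 : ∑ i : Fin n, (a (Fin.castAdd r i) - a₀ (Fin.castAdd r i)) * z t i =
              ∑ i : Fin n, a (Fin.castAdd r i) * Z t (Fin.castAdd r i) -
              ∑ i : Fin n, a₀ (Fin.castAdd r i) * Z t (Fin.castAdd r i) := by
            rw [← Finset.sum_sub_distrib]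
            refine Finset.sum_congr rfl fun i _ => ?_
            rw [hZ' t i]
            ring
          rw [e4]
          linear_combination e1 - e2 - e5
        · intro a ha a' ha' haa
          rw [Finset.mem_coe, Finset.mem_filter] at ha ha'
          funext i
          refine Fin.addCases (fun j => ?_) (fun j => ?_) i
          · have := congrFun haa j
            exact sub_left_inj.mp this
          · have := ha.2.trans ha'.2.symm
            exact congrFun this j)
  refine h1.trans (Nat.mul_le_mul_left _ ?_)
  refine (Finset.card_le_univ _).trans ?_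
  rw [Fintype.card_fun, Fintype.card_fin, ZMod.card]

end Pool.Agent.H44.FP
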