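import Pool.Agent.H601.FP.Def

set_option autoImplicit false

/-!
# Task R of project FP (helper601): the structure of equal digit sums
-/

namespace Pool.Agent.H696.FP

open Pool.Agent.H601.FP

theorem mix_add {p : ℕ} [Fact p.Prime] (row : ℕ → ZMod p) (j : ℕ) (f g : Polynomial (ZMod p)) :
    mix row j f + mix row j g = (lc f j + lc g j) + ∑ i ∈ Finset.range j, row i * (lc f i + lc g i) := by
  unfold mix
  have h : ∑ i ∈ Finset.range j, row i * (lc f i + lc g i) =
      ∑ i ∈ Finset.range j, row i * lc f i + ∑ i ∈ Finset.range j, row i * lc g i := by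
    rw [← Finset.sum_add_distrib]
    exact Finset.sum_congr rfl fun i _ => by ring
  rw [h]
  ring

theorem s_str : Pool.Agent.H601.FP.S_str := by
  intro P hDS hU hL S k l hlk x y x' y' hx hy hx' hy' hD hδ
  obtain ⟨hL1, -, hL3, -⟩ := hL P.p
  obtain ⟨n, hn⟩ : ∃ n, n = P.s * l := ⟨_, rfl⟩
  rw [← hn] at hD hδ ⊢
  have hnk : ∀ j, j < n → j < P.s * k := fun j hj =>
    lt_of_lt_of_le hj (by rw [hn]; exact Nat.mul_le_mul_left _ hlk)
  have hlc : ∀ j, j < n → lc x j + lc y j = lc x' j + lc y' j := by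
    intro j
    induction j using Nat.strong_induction_on with
    | _ j ih =>
      intro hj
      have h1 := hD j hj
      have hjl : j < P.s * l := hn ▸ hj
      unfold DD at h1
      rw [if_pos (hnk j hj), if_pos hjl, if_pos (hnk j hj), if_pos hjl, mix_add, mix_add] at h1
      have h2 : ∑ i ∈ Finset.range j, S.1 j i * (lc x i + lc y i) =
          ∑ i ∈ Finset.range j, S.1 j i * (lc x' i + lc y' i) := by
        refine Finset.sum_congr rfl fun i hi => ?_
        rw [Finset.mem_range] at hi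
        rw [ih i hi (hi.trans hj)]
      rw [h2] at h1
      exact add_right_cancel h1
  have hxy : (x * y).coeff 0 = 1 := by
    rw [Polynomial.mul_coeff_zero, hx, hy, one_mul]
  have hxy' : (x' * y').coeff 0 = 1 := by
    rw [Polynomial.mul_coeff_zero, hx', hy', one_mul]
  have h3 := hL3 (x * y) (x' * y') n hxy hxy' (fun i hi => by
    rw [hL1 x y hx hy, hL1 x' y' hx' hy']
    exact hlc i hi)
  have hc : ∀ f : Polynomial (ZMod P.p), f.coeff 0 = 1 →
      PowerSeries.constantCoeff (f : PowerSeries (ZMod P.p)) = 1 := by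
    intro f hf
    rw [Polynomial.constantCoeff_coe]
    exact hf
  have hprod : ∀ f g : Polynomial (ZMod P.p), f.coeff 0 = 1 → g.coeff 0 = 1 →
      PowerSeries.X ^ (n + 1) ∣ ((f * g : Polynomial (ZMod P.p)) : PowerSeries (ZMod P.p)) -
        ∏ m ∈ Finset.Icc 1 n, ((1 : PowerSeries (ZMod P.p)) - PowerSeries.X ^ m) ^
          (P.δ (f : PowerSeries (ZMod P.p)) m + P.δ (g : PowerSeries (ZMod P.p)) m) := by
    intro f g hf hg
    obtain ⟨a, ha⟩ := hDS (f : PowerSeries (ZMod P.p)) (hc f hf) n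
    obtain ⟨b, hb⟩ := hDS (g : PowerSeries (ZMod P.p)) (hc g hg) n
    have h4 : ∏ m ∈ Finset.Icc 1 n, ((1 : PowerSeries (ZMod P.p)) - PowerSeries.X ^ m) ^
          (P.δ (f : PowerSeries (ZMod P.p)) m + P.δ (g : PowerSeries (ZMod P.p)) m) =
        (∏ m ∈ Finset.Icc 1 n, ((1 : PowerSeries (ZMod P.p)) - PowerSeries.X ^ m) ^
          (P.δ (f : PowerSeries (ZMod P.p)) m)) *
        ∏ m ∈ Finset.Icc 1 n, ((1 : PowerSeries (ZMod P.p)) - PowerSeries.X ^ m) ^
          (P.δ (g : PowerSeries (ZMod P.p)) m) := by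
      rw [← Finset.prod_mul_distrib]
      exact Finset.prod_congr rfl fun m _ => pow_add _ _ _
    rw [h4, Polynomial.coe_mul]
    refine ⟨a * (g : PowerSeries (ZMod P.p)) + (∏ m ∈ Finset.Icc 1 n,
      ((1 : PowerSeries (ZMod P.p)) - PowerSeries.X ^ m) ^ (P.δ (f : PowerSeries (ZMod P.p)) m)) * b, ?_⟩
    linear_combination (g : PowerSeries (ZMod P.p)) * ha + (∏ m ∈ Finset.Icc 1 n,
      ((1 : PowerSeries (ZMod P.p)) - PowerSeries.X ^ m) ^ (P.δ (f : PowerSeries (ZMod P.p)) m)) * hb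
  have h5 := hU P.p n _ _ _ _ (hprod x y hx hy) (hprod x' y' hx' hy') hδ h3
  rw [← Polynomial.coe_sub, PowerSeries.X_pow_dvd_iff] at h5
  rw [Polynomial.X_pow_dvd_iff]
  intro d hd
  have h6 := h5 d hd
  rwa [Polynomial.coeff_coe] at h6

end Pool.Agent.H696.FP
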