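import Pool.Agent.H601.FP.Stm

/-! # Project FP (helper601): Task 4 (sum over tuples) -/

set_option autoImplicit false

namespace Pool.Agent.H44.FP.Sum

open Pool.Agent.H601.FP

section

variable {p n : ℕ} [Fact p.Prime] {ι : Type} [Fintype ι] [DecidableEq ι] (z : ι → Fin n → ZMod p)

theorem mem_ann {γ : ℕ} {y : Fin γ → Fin n → ZMod p} {a : Fin n → ZMod p} :
    a ∈ ann y ↔ ∀ t, ∑ i, a i * y t i = 0 := by
  unfold ann
  simp

theorem mem_ann_cons {t : ℕ} (x : ι) (τ : Fin t → ι) (a : Fin n → ZMod p) :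
    a ∈ ann (fun s => z ((Fin.cons x τ : Fin (t + 1) → ι) s)) ↔
      (∑ i, a i * z x i = 0) ∧ a ∈ ann (fun s => z (τ s)) := by
  rw [mem_ann, mem_ann, Fin.forall_fin_succ]
  simp

theorem ann_cons_le {t : ℕ} (x : ι) (τ : Fin t → ι) :
    (ann (fun s => z ((Fin.cons x τ : Fin (t + 1) → ι) s))).card ≤ (ann (fun s => z (τ s))).card :=
  Finset.card_le_card fun a ha => ((mem_ann_cons z x τ a).mp ha).2

theorem exists_vec {t : ℕ} (x : ι) (τ : Fin t → ι)
    (hx : z x ∉ Submodule.span (ZMod p) (Set.range (fun s => z (τ s)))) :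
    ∃ b : Fin n → ZMod p, b ∈ ann (fun s => z (τ s)) ∧ ∑ i, b i * z x i = 1 := by
  obtain ⟨f, hf, hle⟩ := Submodule.exists_le_ker_of_notMem hx
  have hfv : ∀ v : Fin n → ZMod p, ∑ i, f (Pi.single i 1) * v i = f v := by
    intro v
    have h1 : v = ∑ i, v i • (Pi.single i (1 : ZMod p) : Fin n → ZMod p) := by
      funext j
      rw [Finset.sum_apply]
      simp [Pi.single_apply]
    conv_rhs => rw [h1]
    rw [map_sum]
    refine Finset.sum_congr rfl fun i _ => ?_
    rw [map_smul, smul_eq_mul, mul_comm]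
  refine ⟨fun i => (f (z x))⁻¹ * f (Pi.single i 1), ?_, ?_⟩
  · rw [mem_ann]
    intro s
    have h1 : f (z (τ s)) = 0 := by
      have h2 : z (τ s) ∈ Submodule.span (ZMod p) (Set.range (fun s => z (τ s))) :=
        Submodule.subset_span ⟨s, rfl⟩
      exact LinearMap.mem_ker.mp (hle h2)
    rw [Finset.sum_congr rfl fun i _ => mul_assoc _ _ _, ← Finset.mul_sum, hfv, h1, mul_zero]
  · rw [Finset.sum_congr rfl fun i _ => mul_assoc _ _ _, ← Finset.mul_sum, hfv]
    exact inv_mul_cancel₀ hf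

theorem ann_cons_lt {t : ℕ} (x : ι) (τ : Fin t → ι)
    (hx : z x ∉ Submodule.span (ZMod p) (Set.range (fun s => z (τ s)))) :
    (ann (fun s => z ((Fin.cons x τ : Fin (t + 1) → ι) s))).card * p ≤
      (ann (fun s => z (τ s))).card := by
  classical
  obtain ⟨b, hb, hb1⟩ := exists_vec z x τ hx
  have h1 : ((ann (fun s => z ((Fin.cons x τ : Fin (t + 1) → ι) s))) ×ˢ
      (Finset.univ : Finset (ZMod p))).card =
      (ann (fun s => z ((Fin.cons x τ : Fin (t + 1) → ι) s))).card * p := by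
    rw [Finset.card_product, Finset.card_univ, ZMod.card]
  rw [← h1]
  rw [mem_ann] at hb
  have hsum : ∀ (a : Fin n → ZMod p) (c : ZMod p) (v : Fin n → ZMod p),
      ∑ i, (a i + c * b i) * v i = (∑ i, a i * v i) + c * ∑ i, b i * v i := by
    intro a c v
    rw [Finset.mul_sum, ← Finset.sum_add_distrib]
    exact Finset.sum_congr rfl fun i _ => by ring
  refine Finset.card_le_card_of_injOn (fun q => fun i => q.1 i + q.2 * b i) ?_ ?_
  · intro q hq
    rw [Finset.mem_coe, Finset.mem_product, mem_ann_cons] at hq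
    rw [Finset.mem_coe, mem_ann]
    intro s
    have h2 : ∑ i, q.1 i * z (τ s) i = 0 := mem_ann.mp hq.1.2 s
    have h3 : ∑ i, b i * z (τ s) i = 0 := hb s
    change ∑ i, (q.1 i + q.2 * b i) * z (τ s) i = 0
    rw [hsum, h2, h3, mul_zero, add_zero]
  · intro q hq q' hq' hqq
    rw [Finset.mem_coe, Finset.mem_product, mem_ann_cons] at hq hq'
    have h2 : q.2 = q'.2 := by
      have h3 : ∑ i, (q.1 i + q.2 * b i) * z x i = ∑ i, (q'.1 i + q'.2 * b i) * z x i :=
        congrArg (fun w : Fin n → ZMod p => ∑ i, w i * z x i) hqq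
      rw [hsum, hsum, hq.1.1, hq'.1.1, hb1] at h3
      simpa using h3
    refine Prod.ext ?_ h2
    funext i
    have h3 : q.1 i + q.2 * b i = q'.1 i + q'.2 * b i := congrFun hqq i
    rw [h2] at h3
    exact add_right_cancel h3

theorem card_span_le (F : ℕ) (hF : ∀ v : Fin n → ZMod p, (Finset.univ.filter (fun x => z x = v)).card ≤ F)
    {t : ℕ} (τ : Fin t → ι) [DecidablePred fun x => z x ∈ Submodule.span (ZMod p) (Set.range (fun s => z (τ s)))] :
    (Finset.univ.filter (fun x => z x ∈ Submodule.span (ZMod p) (Set.range (fun s => z (τ s))))).card ≤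
      p ^ t * F := by
  classical
  let Sp : Finset (Fin n → ZMod p) :=
    Finset.univ.image (fun c : Fin t → ZMod p => ∑ s, c s • z (τ s))
  have h1 : Sp.card ≤ p ^ t := by
    refine Finset.card_image_le.trans ?_
    rw [Finset.card_univ, Fintype.card_fun, Fintype.card_fin, ZMod.card]
  have h2 : (Finset.univ.filter
      (fun x => z x ∈ Submodule.span (ZMod p) (Set.range (fun s => z (τ s))))).card ≤ F * Sp.card := by
    refine Finset.card_le_mul_card_image_of_maps_to (f := z) ?_ F ?_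
    · intro x hx
      rw [Finset.mem_filter, Submodule.mem_span_range_iff_exists_fun] at hx
      obtain ⟨c, hc⟩ := hx.2
      exact Finset.mem_image.mpr ⟨c, Finset.mem_univ _, hc⟩
    · intro v _
      refine le_trans (Finset.card_le_card ?_) (hF v)
      intro x hx
      rw [Finset.mem_filter] at hx ⊢
      exact ⟨Finset.mem_univ _, hx.2⟩
  calc _ ≤ F * Sp.card := h2
    _ ≤ F * p ^ t := Nat.mul_le_mul_left _ h1
    _ = p ^ t * F := mul_comm _ _

/-- the sum over the tuples of length `t` -/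
noncomputable def SA (m t : ℕ) : ℝ :=
  ∑ τ : Fin t → ι, (((ann (fun s => z (τ s))).card : ℝ) / (p : ℝ) ^ n) ^ m

theorem SA_succ (m t : ℕ) : SA z m (t + 1) =
    ∑ τ : Fin t → ι, ∑ x : ι,
      (((ann (fun s => z ((Fin.cons x τ : Fin (t + 1) → ι) s))).card : ℝ) / (p : ℝ) ^ n) ^ m := by
  unfold SA
  rw [Finset.sum_comm, ← Fintype.sum_prod_type'
    (fun (x : ι) (τ : Fin t → ι) =>
      (((ann (fun s => z ((Fin.cons x τ : Fin (t + 1) → ι) s))).card : ℝ) / (p : ℝ) ^ n) ^ m)]
  exact (Equiv.sum_comp (Fin.consEquiv (fun _ : Fin (t + 1) => ι)) _).symm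

theorem SA_nonneg (m t : ℕ) : 0 ≤ SA z m t :=
  Finset.sum_nonneg fun τ _ => by positivity

theorem term_le (m : ℕ) {t : ℕ} (x : ι) (τ : Fin t → ι)
    [Decidable (z x ∈ Submodule.span (ZMod p) (Set.range (fun s => z (τ s))))] :
    (((ann (fun s => z ((Fin.cons x τ : Fin (t + 1) → ι) s))).card : ℝ) / (p : ℝ) ^ n) ^ m ≤
      (((ann (fun s => z (τ s))).card : ℝ) / (p : ℝ) ^ n) ^ m *
        ((if z x ∈ Submodule.span (ZMod p) (Set.range (fun s => z (τ s))) then 1 else 0) +
          1 / (p : ℝ) ^ m) := by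
  have hp : (0 : ℝ) < p := by exact_mod_cast (Fact.out : p.Prime).pos
  have h0 : 0 ≤ (((ann (fun s => z (τ s))).card : ℝ) / (p : ℝ) ^ n) ^ m := by positivity
  split_ifs with h
  · have h1 : (((ann (fun s => z ((Fin.cons x τ : Fin (t + 1) → ι) s))).card : ℝ)) ≤
        ((ann (fun s => z (τ s))).card : ℝ) := by exact_mod_cast ann_cons_le z x τ
    have h2 : (((ann (fun s => z ((Fin.cons x τ : Fin (t + 1) → ι) s))).card : ℝ) / (p : ℝ) ^ n) ^ m ≤
        (((ann (fun s => z (τ s))).card : ℝ) / (p : ℝ) ^ n) ^ m := by gcongr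
    have h3 : 0 ≤ 1 / (p : ℝ) ^ m := by positivity
    nlinarith [mul_nonneg h0 h3]
  · have h1 : (((ann (fun s => z ((Fin.cons x τ : Fin (t + 1) → ι) s))).card : ℝ)) * p ≤
        ((ann (fun s => z (τ s))).card : ℝ) := by exact_mod_cast ann_cons_lt z x τ h
    have h2 : (((ann (fun s => z ((Fin.cons x τ : Fin (t + 1) → ι) s))).card : ℝ)) ≤
        ((ann (fun s => z (τ s))).card : ℝ) / p := by rwa [le_div_iff₀ hp]
    calc (((ann (fun s => z ((Fin.cons x τ : Fin (t + 1) → ι) s))).card : ℝ) / (p : ℝ) ^ n) ^ m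
        ≤ (((ann (fun s => z (τ s))).card : ℝ) / p / (p : ℝ) ^ n) ^ m := by gcongr
      _ = _ := by
          rw [zero_add, div_right_comm, div_pow _ (p : ℝ), mul_one_div]

theorem SA_step (F : ℕ) (hF : ∀ v : Fin n → ZMod p, (Finset.univ.filter (fun x => z x = v)).card ≤ F)
    (m t : ℕ) : SA z m (t + 1) ≤
      SA z m t * ((p : ℝ) ^ t * F + (Fintype.card ι : ℝ) / (p : ℝ) ^ m) := by
  classical
  rw [SA_succ]
  unfold SA
  rw [Finset.sum_mul]
  refine Finset.sum_le_sum fun τ _ => ?_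
  refine (Finset.sum_le_sum fun x _ => term_le z m x τ).trans ?_
  rw [← Finset.mul_sum]
  refine mul_le_mul_of_nonneg_left ?_ (by positivity)
  rw [Finset.sum_add_distrib]
  refine add_le_add ?_ (le_of_eq ?_)
  · rw [← Finset.sum_filter, Finset.sum_const, nsmul_eq_mul, mul_one]
    exact_mod_cast card_span_le z F hF τ
  · rw [Finset.sum_const, Finset.card_univ, nsmul_eq_mul, mul_one_div]

theorem SA_one (hz : ∀ x, z x ≠ 0) (m : ℕ) :
    SA z m 1 ≤ (Fintype.card ι : ℝ) / (p : ℝ) ^ m := by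
  classical
  have hp : (0 : ℝ) < p := by exact_mod_cast (Fact.out : p.Prime).pos
  rw [SA_succ]
  have h0 : ∀ τ : Fin 0 → ι, (((ann (fun s => z (τ s))).card : ℝ) / (p : ℝ) ^ n) ^ m = 1 := by
    intro τ
    have h1 : (ann (fun s => z (τ s))).card = p ^ n := by
      have h2 : ann (fun s => z (τ s)) = Finset.univ := by
        ext a
        rw [mem_ann]
        simp
      rw [h2, Finset.card_univ, Fintype.card_fun, Fintype.card_fin, ZMod.card]
    rw [h1]
    push_cast
    rw [div_self (by positivity), one_pow]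
  have h3 : ∀ τ : Fin 0 → ι, ∑ x : ι,
      (((ann (fun s => z ((Fin.cons x τ : Fin 1 → ι) s))).card : ℝ) / (p : ℝ) ^ n) ^ m ≤
        (Fintype.card ι : ℝ) / (p : ℝ) ^ m := by
    intro τ
    refine (Finset.sum_le_sum fun x _ => term_le z m x τ).trans ?_
    have h4 : ∀ x, z x ∉ Submodule.span (ZMod p) (Set.range (fun s => z (τ s))) := by
      intro x hx
      have h5 : Set.range (fun s => z (τ s)) = ∅ := Set.range_eq_empty _
      rw [h5, Submodule.span_empty, Submodule.mem_bot] at hx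
      exact hz x hx
    rw [Finset.sum_congr rfl fun x _ => by rw [h0 τ, if_neg (h4 x), zero_add, one_mul]]
    rw [Finset.sum_const, Finset.card_univ, nsmul_eq_mul, mul_one_div]
  refine (Finset.sum_le_sum fun τ _ => h3 τ).trans ?_
  rw [Finset.sum_const, Finset.card_univ]
  simp

end

theorem s_sum : S_sum := by
  intro p _ n γ m F ι _ _ z hγ hz hF
  have hp : (1 : ℝ) ≤ p := by exact_mod_cast (Fact.out : p.Prime).one_lt.le
  have key : ∀ t : ℕ, t + 1 ≤ γ → SA z m (t + 1) ≤ ((Fintype.card ι : ℝ) / (p : ℝ) ^ m) *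
      ((p : ℝ) ^ γ * F + (Fintype.card ι : ℝ) / (p : ℝ) ^ m) ^ t := by
    intro t
    induction t with
    | zero =>
      intro _
      rw [pow_zero, mul_one]
      exact SA_one z hz m
    | succ t ih =>
      intro ht
      have h1 := ih (by omega)
      have h2 := SA_step z F hF m (t + 1)
      have h3 : (p : ℝ) ^ (t + 1) * F + (Fintype.card ι : ℝ) / (p : ℝ) ^ m ≤
          (p : ℝ) ^ γ * F + (Fintype.card ι : ℝ) / (p : ℝ) ^ m := by
        have h4 : (p : ℝ) ^ (t + 1) ≤ (p : ℝ) ^ γ := pow_le_pow_right₀ hp (by omega)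
        gcongr
      calc SA z m (t + 1 + 1) ≤ SA z m (t + 1) *
            ((p : ℝ) ^ (t + 1) * F + (Fintype.card ι : ℝ) / (p : ℝ) ^ m) := h2
        _ ≤ (((Fintype.card ι : ℝ) / (p : ℝ) ^ m) *
            ((p : ℝ) ^ γ * F + (Fintype.card ι : ℝ) / (p : ℝ) ^ m) ^ t) *
            ((p : ℝ) ^ γ * F + (Fintype.card ι : ℝ) / (p : ℝ) ^ m) :=
          mul_le_mul h1 h3 (by positivity) (by positivity)
        _ = _ := by rw [pow_succ]; ring
  have h := key (γ - 1) (by omega)
  rw [Nat.sub_add_cancel hγ] at h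
  exact h

end Pool.Agent.H44.FP.Sum
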