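import Pool.Agent.H601.FP.Def

/-!
# Upper bound for the number of irreducible polynomials (task U)
-/

namespace Pool.Agent.H996.FP

open Pool.Agent.H601.FP

theorem injOn_coeffs (p : ℕ) [Fact p.Prime] (m : ℕ) :
    Set.InjOn (fun (f : Polynomial (ZMod p)) (i : Fin m) => f.coeff ((i : ℕ) + 1)) (Pr p m) := by
  intro f hf g hg h
  obtain ⟨-, hfd, hf0⟩ := hf
  obtain ⟨-, hgd, hg0⟩ := hg
  ext i
  rcases Nat.eq_zero_or_pos i with rfl | hi
  · rw [hf0, hg0]
  · by_cases him : i ≤ m
    · have h1 := congrFun h ⟨i - 1, by omega⟩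
      have h2 : i - 1 + 1 = i := by omega
      simpa only [h2] using h1
    · rw [Polynomial.coeff_eq_zero_of_natDegree_lt (by omega),
        Polynomial.coeff_eq_zero_of_natDegree_lt (by omega)]

theorem s_ub : Pool.Agent.H601.FP.S_ub := by
  intro p _ m
  refine ⟨Set.Finite.of_finite_image (Set.toFinite _) (injOn_coeffs p m), ?_⟩
  have h := Set.ncard_le_ncard_of_injOn
    (fun (f : Polynomial (ZMod p)) (i : Fin m) => f.coeff ((i : ℕ) + 1))
    (fun f _ => Set.mem_univ _) (injOn_coeffs p m) Set.finite_univ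
  rw [Set.ncard_univ, Nat.card_eq_fintype_card, Fintype.card_fun, ZMod.card, Fintype.card_fin] at h
  exact h

end Pool.Agent.H996.FP
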