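import Pool.Agent.H601.FP.Stm

/-!
# Uniqueness (Task 3 of the project FP of helper601)
-/

set_option autoImplicit false

namespace Pool.Agent.H384.FP

open Pool.Agent.H601.FP

section

variable {p : ℕ} [Fact p.Prime]

/-- reduction modulo `X ^ N` -/
noncomputable def q (p : ℕ) [Fact p.Prime] (N : ℕ) :
    PowerSeries (ZMod p) →+*
      (PowerSeries (ZMod p) ⧸ Ideal.span {(PowerSeries.X ^ N : PowerSeries (ZMod p))}) :=
  Ideal.Quotient.mk _

lemma q_eq (N : ℕ) (a b : PowerSeries (ZMod p)) :
    q p N a = q p N b ↔ PowerSeries.X ^ N ∣ a - b := by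
  unfold q
  rw [Ideal.Quotient.eq, Ideal.mem_span_singleton]

lemma q_mono {N M : ℕ} (h : M ≤ N) {a b : PowerSeries (ZMod p)} (hab : q p N a = q p N b) :
    q p M a = q p M b := by
  rw [q_eq] at hab ⊢
  exact (pow_dvd_pow _ h).trans hab

/-- the factors -/
noncomputable def f (p : ℕ) [Fact p.Prime] (m : ℕ) : PowerSeries (ZMod p) :=
  1 - PowerSeries.X ^ m

lemma f_pow_p (m : ℕ) : f p m ^ p = 1 - PowerSeries.X ^ (p * m) := by
  have : CharP (PowerSeries (ZMod p)) p :=
    charP_of_injective_algebraMap (algebraMap (ZMod p) (PowerSeries (ZMod p))).injective p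
  unfold f
  rw [sub_pow_char, one_pow, ← pow_mul, mul_comm m p]

lemma q_pow_mod {n m : ℕ} (h : n < p * m) (s : ℕ) :
    q p (n + 1) (f p m ^ s) = q p (n + 1) (f p m ^ (s % p)) := by
  have h1 : q p (n + 1) (f p m ^ p) = 1 := by
    rw [← map_one (q p (n + 1)), q_eq, f_pow_p, sub_sub_cancel_left, dvd_neg]
    exact pow_dvd_pow _ h
  conv_lhs => rw [← Nat.div_add_mod s p]
  rw [pow_add (f p m), pow_mul (f p m), map_mul, map_pow, h1, one_pow, one_mul]

lemma q_pow_congr {n m : ℕ} (h : n < p * m) {s s' : ℕ} (hs : (s : ZMod p) = s') :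
    q p (n + 1) (f p m ^ s) = q p (n + 1) (f p m ^ s') := by
  rw [q_pow_mod h s, q_pow_mod h s', (ZMod.natCast_eq_natCast_iff' s s' p).1 hs]

/-- a power of a factor to the first order -/
lemma first_order {j : ℕ} (hj : 1 ≤ j) (s : ℕ) :
    q p (j + 1) (f p j ^ s) = q p (j + 1) (1 - PowerSeries.C (s : ZMod p) * PowerSeries.X ^ j) := by
  induction s with
  | zero => simp
  | succ s ih =>
    rw [pow_succ (f p j), map_mul, ih, ← map_mul, q_eq]
    have h1 : (1 - PowerSeries.C (s : ZMod p) * PowerSeries.X ^ j) * f p j -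
        (1 - PowerSeries.C ((s + 1 : ℕ) : ZMod p) * PowerSeries.X ^ j) =
        PowerSeries.X ^ (j + j) * PowerSeries.C (s : ZMod p) := by
      unfold f
      push_cast
      rw [map_add, map_one, pow_add]
      ring
    rw [h1]
    exact (pow_dvd_pow _ (by omega)).mul_right _

lemma q_big {N m : ℕ} (h : N ≤ m) (s : ℕ) : q p N (f p m ^ s) = 1 := by
  have h1 : q p N (f p m) = 1 := by
    rw [← map_one (q p N), q_eq]
    unfold f
    rw [sub_sub_cancel_left, dvd_neg]
    exact pow_dvd_pow _ h
  rw [map_pow, h1, one_pow]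

lemma const_f {m : ℕ} (hm : 1 ≤ m) (s : ℕ) : PowerSeries.constantCoeff (f p m ^ s) = 1 := by
  have h1 : PowerSeries.constantCoeff (f p m) = 1 := by
    unfold f
    rw [map_sub, map_one, map_pow, PowerSeries.constantCoeff_X, zero_pow (by omega), sub_zero]
  rw [map_pow, h1, one_pow]

lemma const_prod (S : Finset ℕ) (hS : ∀ m ∈ S, 1 ≤ m) (s : ℕ → ℕ) :
    PowerSeries.constantCoeff (∏ m ∈ S, f p m ^ s m) = 1 := by
  rw [map_prod]
  exact Finset.prod_eq_one fun m hm => const_f (hS m hm) _

/-- the coefficient of the derivative -/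
lemma deriv_coeff {j n : ℕ} (hj : 1 ≤ j) (hjn : j ≤ n) (A B : PowerSeries (ZMod p)) (c : ZMod p)
    (h0 : ∀ i < j, PowerSeries.coeff i (A - B) = 0) (h1 : PowerSeries.coeff j (A - B) = c)
    (hB : PowerSeries.constantCoeff B = 1)
    (hD : PowerSeries.X ^ n ∣
      (PowerSeries.derivative (ZMod p) A * B - A * PowerSeries.derivative (ZMod p) B)) :
    c * (j : ZMod p) = 0 := by
  have e : PowerSeries.derivative (ZMod p) A * B - A * PowerSeries.derivative (ZMod p) B =
      PowerSeries.derivative (ZMod p) (A - B) * B - (A - B) * PowerSeries.derivative (ZMod p) B := by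
    rw [map_sub]
    ring
  rw [e] at hD
  have h2 := PowerSeries.X_pow_dvd_iff.1 hD (j - 1) (by omega)
  rw [map_sub, PowerSeries.coeff_mul, PowerSeries.coeff_mul] at h2
  have h3 : ∑ x ∈ Finset.HasAntidiagonal.antidiagonal (j - 1), PowerSeries.coeff x.1 (A - B) *
      PowerSeries.coeff x.2 (PowerSeries.derivative (ZMod p) B) = 0 := by
    apply Finset.sum_eq_zero
    intro x hx
    rw [Finset.HasAntidiagonal.mem_antidiagonal] at hx
    rw [h0 x.1 (by omega), zero_mul]
  have h4 : ∑ x ∈ Finset.HasAntidiagonal.antidiagonal (j - 1),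
      PowerSeries.coeff x.1 (PowerSeries.derivative (ZMod p) (A - B)) * PowerSeries.coeff x.2 B =
      c * (j : ZMod p) := by
    rw [Finset.sum_eq_single (j - 1, 0)]
    · rw [PowerSeries.coeff_derivative, PowerSeries.coeff_zero_eq_constantCoeff_apply, hB, mul_one]
      have h5 : j - 1 + 1 = j := by omega
      have h6 : ((j - 1 : ℕ) : ZMod p) + 1 = (j : ZMod p) := by
        exact_mod_cast congrArg (Nat.cast : ℕ → ZMod p) h5
      change PowerSeries.coeff (j - 1 + 1) (A - B) * (((j - 1 : ℕ) : ZMod p) + 1) = _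
      rw [h6, h5, h1]
    · intro x hx hne
      rw [Finset.HasAntidiagonal.mem_antidiagonal] at hx
      have h7 : x.1 + 1 < j := by
        by_contra hcon
        apply hne
        have h8 : x.1 = j - 1 := by omega
        have h9 : x.2 = 0 := by omega
        exact Prod.ext h8 h9
      rw [PowerSeries.coeff_derivative, h0 _ h7, zero_mul, zero_mul]
    · intro hcon
      exact absurd (Finset.HasAntidiagonal.mem_antidiagonal.2 (by simp)) hcon
  rw [h3, h4, sub_zero] at h2
  exact h2

end

theorem s_uniq : S_uniq := by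
  intro p _ n A B s s' hA hB hs hD
  have hA' : q p (n + 1) A = q p (n + 1) (∏ m ∈ Finset.Icc 1 n, f p m ^ s m) := (q_eq _ _ _).2 hA
  have hB' : q p (n + 1) B = q p (n + 1) (∏ m ∈ Finset.Icc 1 n, f p m ^ s' m) := (q_eq _ _ _).2 hB
  have hB0 : PowerSeries.constantCoeff B = 1 := by
    have h1 := PowerSeries.X_pow_dvd_iff.1 hB 0 (by omega)
    rw [map_sub, PowerSeries.coeff_zero_eq_constantCoeff_apply,
      PowerSeries.coeff_zero_eq_constantCoeff_apply, sub_eq_zero] at h1
    rw [h1]
    exact const_prod _ (fun m hm => (Finset.mem_Icc.1 hm).1) s'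
  have key : ∀ j, 1 ≤ j → j ≤ n →
      q p (n + 1) (f p j ^ s j) = q p (n + 1) (f p j ^ s' j) := by
    intro j
    induction j using Nat.strong_induction_on with
    | _ j ih =>
      intro hj hjn
      by_cases hss : s j = s' j
      · rw [hss]
      have hnot : ¬ (p ∣ j ∨ p * j ≤ n) := fun h => hss (hs j hj hjn h)
      push Not at hnot
      apply q_pow_congr hnot.2
      have hjm : j ∈ Finset.Icc 1 n := Finset.mem_Icc.2 ⟨hj, hjn⟩
      set C := ∏ m ∈ (Finset.Icc 1 n).erase j, f p m ^ s m with hC
      have hC0 : PowerSeries.constantCoeff C = 1 :=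
        const_prod _ (fun m hm => (Finset.mem_Icc.1 (Finset.mem_of_mem_erase hm)).1) s
      have hrA : q p (j + 1) A = q p (j + 1) (f p j ^ s j) * q p (j + 1) C := by
        rw [q_mono (by omega) hA', ← Finset.mul_prod_erase _ _ hjm, map_mul]
      have hrB : q p (j + 1) B = q p (j + 1) (f p j ^ s' j) * q p (j + 1) C := by
        rw [q_mono (by omega) hB', ← Finset.mul_prod_erase _ _ hjm, map_mul, hC, map_prod, map_prod]
        congr 1
        refine Finset.prod_congr rfl fun m hm => ?_
        have hm1 := Finset.mem_Icc.1 (Finset.mem_of_mem_erase hm)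
        have hmj := Finset.ne_of_mem_erase hm
        rcases lt_or_gt_of_ne hmj with h | h
        · exact (q_mono (by omega) (ih m h hm1.1 hm1.2)).symm
        · rw [q_big (by omega), q_big (by omega)]
      have hAB : q p (j + 1) (A - B) =
          q p (j + 1) (PowerSeries.C ((s' j : ZMod p) - s j) * PowerSeries.X ^ j * C) := by
        rw [map_sub, hrA, hrB, first_order hj, first_order hj, ← sub_mul, ← map_sub, ← map_mul]
        congr 1
        rw [map_sub]
        ring
      rw [q_eq] at hAB
      have hco := PowerSeries.X_pow_dvd_iff.1 hAB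
      have hco2 : ∀ i, i ≤ j → PowerSeries.coeff i (A - B) =
          PowerSeries.coeff i (PowerSeries.X ^ j *
            (PowerSeries.C ((s' j : ZMod p) - s j) * C)) := by
        intro i hi
        have h1 := hco i (by omega)
        rw [map_sub, sub_eq_zero] at h1
        rw [h1]
        congr 1
        ring
      have h0 : ∀ i < j, PowerSeries.coeff i (A - B) = 0 := by
        intro i hi
        rw [hco2 i hi.le]
        exact PowerSeries.X_pow_dvd_iff.1 (Dvd.intro _ rfl) i hi
      have h1 : PowerSeries.coeff j (A - B) = (s' j : ZMod p) - s j := by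
        rw [hco2 j le_rfl]
        have h2 := PowerSeries.coeff_X_pow_mul (PowerSeries.C ((s' j : ZMod p) - s j) * C) j 0
        rw [zero_add] at h2
        rw [h2, PowerSeries.coeff_zero_eq_constantCoeff_apply, map_mul,
          PowerSeries.constantCoeff_C, hC0, mul_one]
      have h2 := deriv_coeff hj hjn A B _ h0 h1 hB0 hD
      rcases mul_eq_zero.1 h2 with h3 | h3
      · exact (sub_eq_zero.1 h3).symm
      · exact absurd ((ZMod.natCast_eq_zero_iff j p).1 h3) hnot.1
  rw [← q_eq, hA', hB', map_prod, map_prod]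
  exact Finset.prod_congr rfl fun m hm => key m (Finset.mem_Icc.1 hm).1 (Finset.mem_Icc.1 hm).2

end Pool.Agent.H384.FP
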