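import Pool.Agent.H601.FP.Def

namespace Pool.Agent.H601.FP

theorem s_wt_aux (P : Prm) (n : ℕ) : Wt P (3 * n) ≤ (4 * P.p) ^ (n + 2 * (n / P.p)) := by
  have hp := P.hp.pos
  induction n with
  | zero => simp [Wt]
  | succ n ih =>
    have e : 3 * (n + 1) = 3 * n + 1 + 1 + 1 := by ring
    have h0 : Bs P (3 * n) = 4 * P.p := by
      unfold Bs
      rw [if_pos (by omega)]
    have h1 : Bs P (3 * n + 1) = if P.p ∣ n + 1 then 2 * P.p else 1 := by
      unfold Bs
      rw [if_neg (by omega), show (3 * n + 1) / 3 = n by omega]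
    have h2 : Bs P (3 * n + 1 + 1) = if P.p ∣ n + 1 then 2 * P.p else 1 := by
      unfold Bs
      rw [if_neg (by omega), show (3 * n + 1 + 1) / 3 = n by omega]
    have hw : Wt P (3 * (n + 1)) =
        Wt P (3 * n) * (4 * P.p) * (if P.p ∣ n + 1 then 2 * P.p else 1) *
          (if P.p ∣ n + 1 then 2 * P.p else 1) := by
      unfold Wt
      rw [e, Finset.prod_range_succ, Finset.prod_range_succ, Finset.prod_range_succ, h0, h1, h2]
    rw [hw, Nat.succ_div]
    by_cases hd : P.p ∣ n + 1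
    · rw [if_pos hd, if_pos hd]
      have h3 : (4 * P.p) ^ (n + 1 + 2 * (n / P.p + 1)) =
          (4 * P.p) ^ (n + 2 * (n / P.p)) * (4 * P.p) * (4 * P.p) * (4 * P.p) := by ring
      rw [h3]
      have h4 : 2 * P.p ≤ 4 * P.p := by omega
      exact Nat.mul_le_mul (Nat.mul_le_mul (Nat.mul_le_mul ih le_rfl) h4) h4
    · rw [if_neg hd, if_neg hd, mul_one, mul_one, add_zero]
      have h3 : (4 * P.p) ^ (n + 1 + 2 * (n / P.p)) =
          (4 * P.p) ^ (n + 2 * (n / P.p)) * (4 * P.p) := by ring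
      rw [h3]
      exact Nat.mul_le_mul ih le_rfl

theorem s_wt : Pool.Agent.H601.FP.S_wt := fun P k => s_wt_aux P (P.a * k)

end Pool.Agent.H601.FP
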