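import Pool.Agent.H601.FP.Prob3
import Pool.Agent.H601.FP.SUniq
import Pool.Agent.H601.FP.SRow
import Pool.Agent.H601.FP.SUb
import Pool.Agent.H601.FP.SNum2
import Pool.Agent.H601.FP.SGrow2
import Pool.Agent.H601.FP.SCpt
import Pool.Agent.H601.FP.SWt
import Pool.Agent.H601.FP.SStr
import Pool.Agent.H601.FP.SFresh
import Pool.Agent.H601.FP.SMarkov
import Pool.Agent.H601.FP.SSum
import Pool.Agent.H601.FP.SCount
import Pool.Agent.H601.FP.SDigits
import Pool.Agent.H601.FP.SFib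
import Pool.Agent.H601.FP.SMult
import Pool.Agent.H601.FP.SLc
import Pool.Agent.H601.FP.SPair

open Filter

namespace Pool.Agent.H601.FP

theorem final (hcore : S_core) (g : ℕ) (hg : 1 ≤ g) (c : ℝ) (hc0 : 0 < c)
    (hc : c < 1 / 2 - 3 / (8 * (2 * (g : ℝ) + 1))) :
    ∃ A : Set ℕ, (∀ a ∈ A, 0 < a) ∧ (∀ n, (RepF A n).ncard ≤ g) ∧
      ∀ᶠ N : ℕ in atTop, (N : ℝ) ^ c ≤ ((A ∩ Set.Icc 1 N).ncard : ℝ) := by
  obtain ⟨q, p, hp, hq, hpg, hgrow⟩ := Grow2.s_grow2 g hg c hc0 hc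
  have hfact : Fact p.Prime := ⟨hp⟩
  obtain ⟨δ, hδ1, hδ2⟩ := Pool.Agent.H115.FP.s_digits p
  have hg3 : 1 ≤ g ^ 3 := Nat.one_le_pow _ _ hg
  have hq1 : 6 ≤ q := by omega
  let P : Prm :=
    { p := p
      hp := hp
      g := g
      hg := hg
      a := (16 * g + 8) * q
      s := (16 * g + 4) * q
      d := (8 * g + 1) * q - 1
      hd := by
        have : 9 ≤ (8 * g + 1) * q := by nlinarith
        omega
      hds := by
        have : 2 * ((8 * g + 1) * q) ≤ (16 * g + 4) * q := by nlinarith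
        omega
      hsa := by nlinarith
      δ := δ
      hδ := hδ1 }
  have hT : T_inf P := by
    refine s_cpt P (fun m => (Pool.Agent.H996.FP.s_ub P.p m).1) ?_
    refine Pool.Agent.H289.FPM.s_markov P (fun m => (Pool.Agent.H996.FP.s_ub P.p m).1) ?_ ?_ ?_
    · intro k hk
      have h5 : 5 ≤ p := by omega
      have h2 : 2 ≤ P.d * k := by
        have := P.hd
        nlinarith
      have h := (Pool.Agent.H898.FP.SCount.s_count p h5 (P.d * k) h2).2
      have h3 : 0 < p ^ (P.d * k) := pow_pos hp.pos _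
      by_contra hcon
      have h4 : (Pr p (P.d * k)).ncard = 0 := by
        have h6 : ¬ 0 < (Pr p (P.d * k)).ncard := hcon
        omega
      rw [h4] at h
      omega
    · exact expect Pool.Agent.H116.FP.s_fresh Pool.Agent.H44.FP.s_row Pool.Agent.H44.FP.Sum.s_sum
        Pool.Agent.H116.FP.s_mult Pool.Agent.H996.FP.s_lc Pool.Agent.H48.FP.s_fib
        Pool.Agent.H996.FP.s_ub P
    · exact fun k l hD => s_num2 P q hq hpg rfl rfl rfl k l hD
  obtain ⟨A, hA1, hA2, hA3⟩ := hcore P hg hδ2 Pool.Agent.H384.FP.s_uniq Pool.Agent.H996.FP.s_lc s_pair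
    Pool.Agent.H696.FP.s_str (fun m => (Pool.Agent.H996.FP.s_ub P.p m).1) hT
  refine ⟨A, hA1, hA2, hgrow A ?_⟩
  intro k hk N hN
  have h5 : 5 ≤ p := by omega
  have h2 : 2 ≤ P.d * k := by
    have := P.hd
    nlinarith
  have h := (Pool.Agent.H898.FP.SCount.s_count p h5 (P.d * k) h2).2
  have h3 := hA3 k hk N ((s_wt P k).trans hN)
  calc p ^ (P.d * k) ≤ 2 * (P.d * k) * (Pr p (P.d * k)).ncard := h
    _ ≤ 2 * (P.d * k) * (2 * (A ∩ Set.Icc 1 N).ncard) := Nat.mul_le_mul_left _ h3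
    _ = 4 * (P.d * k) * (A ∩ Set.Icc 1 N).ncard := by ring

end Pool.Agent.H601.FP
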