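import Pool.Agent.H601.FP.Def

namespace Pool.Agent.H601.FP

/-- One cell of the finite random space. -/
abbrev Cell (p N : ℕ) (U : Finset (Polynomial (ZMod p))) : Type :=
  (Fin N → ZMod p) × (↥U → ZMod p)

/-- The finite random space. -/
abbrev Om (p N : ℕ) (U : Finset (Polynomial (ZMod p))) : Type := Fin N → Cell p N U

open Classical in
/-- From the finite random space to the random objects. -/
noncomputable def toSt {p N : ℕ} {U : Finset (Polynomial (ZMod p))} (ω : Om p N U) : St p :=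
  (fun j i => if h : j < N ∧ i < N then (ω ⟨j, h.1⟩).1 ⟨i, h.2⟩ else 0,
   fun j f => if h : j < N ∧ f ∈ U then (ω ⟨j, h.1⟩).2 ⟨f, h.2⟩ else 0)

open Classical in
/-- The digit computed from one cell. -/
noncomputable def cD (P : Prm) {N : ℕ} {U : Finset (Polynomial (ZMod P.p))} (k j : ℕ)
    (c : Cell P.p N U) (f : Polynomial (ZMod P.p)) : ZMod P.p :=
  if j < P.s * k then
    lc f j + ∑ i ∈ Finset.range j, (if h : i < N then c.1 ⟨i, h⟩ else 0) * lc f i
  else if h : f ∈ U then c.2 ⟨f, h⟩ else 0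

theorem DD_toSt (P : Prm) {N : ℕ} {U : Finset (Polynomial (ZMod P.p))} (ω : Om P.p N U) (k j : ℕ)
    (hj : j < N) (f : Polynomial (ZMod P.p)) :
    DD P (toSt ω) k j f = cD P k j (ω ⟨j, hj⟩) f := by
  unfold DD cD toSt mix
  by_cases h : j < P.s * k
  · simp only [h, if_true]
    congr 1
    refine Finset.sum_congr rfl (fun i hi => ?_)
    have hi' : i < N := lt_trans (Finset.mem_range.1 hi) hj
    simp [hi', hj]
  · simp only [h, if_false]
    by_cases h2 : f ∈ U <;> simp [h2, hj]

theorem cD_congr (P : Prm) {N : ℕ} {U : Finset (Polynomial (ZMod P.p))} (k j : ℕ)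
    {c c' : Cell P.p N U} {f : Polynomial (ZMod P.p)} (h1 : c.1 = c'.1)
    (h2 : ∀ h : f ∈ U, c.2 ⟨f, h⟩ = c'.2 ⟨f, h⟩) : cD P k j c f = cD P k j c' f := by
  unfold cD
  rw [h1]
  split_ifs with h3 h4
  · rfl
  · exact h2 h4
  · rfl

/-- The condition at the position `j`. -/
def EV (P : Prm) {N : ℕ} {U : Finset (Polynomial (ZMod P.p))} (k l : ℕ) {γ : ℕ}
    (x0 y0 : Polynomial (ZMod P.p)) (x y : Fin γ → Polynomial (ZMod P.p)) (j : ℕ)
    (c : Cell P.p N U) : Prop :=
  (P.s * l ≤ j → j < P.a * l → ∀ t, cD P k j c (x t) + cD P l j c (y t) =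
    cD P k j c x0 + cD P l j c y0) ∧
  (P.a * l ≤ j → j < P.a * k → ∀ t, cD P k j c (x t) = cD P k j c x0)

theorem natDegree_Pr {p m : ℕ} {f : Polynomial (ZMod p)} (h : f ∈ Pr p m) : f.natDegree = m := h.2.1

open Classical in
theorem cell_y (hF : S_fresh) (P : Prm) {N : ℕ} {U : Finset (Polynomial (ZMod P.p))} {k l γ : ℕ}
    (hlk : l < k) {x0 y0 : Polynomial (ZMod P.p)} {x y : Fin γ → Polynomial (ZMod P.p)}
    (hx0 : x0 ∈ Pr P.p (P.d * k)) (hx : ∀ t, x t ∈ Pr P.p (P.d * k))
    (hy : ∀ t, y t ∈ Pr P.p (P.d * l)) (iy : Function.Injective y) (ny : ∀ t, y t ≠ y0)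
    (hyU : ∀ t, y t ∈ U) {j : ℕ} (h1 : P.s * l ≤ j) (h2 : j < P.a * l) :
    (((Finset.univ : Finset (Cell P.p N U)).filter (fun c => EV P k l x0 y0 x y j c)).card : ℝ) ≤
      (1 / (P.p : ℝ) ^ γ) * (Fintype.card (Cell P.p N U) : ℝ) := by
  have hp : (0:ℝ) < (P.p : ℝ) ^ γ := by
    have := P.hp.pos
    positivity
  have hdk : P.d * l ≠ P.d * k := by
    have := P.hd
    intro h
    have := Nat.eq_of_mul_eq_mul_left (by omega : 0 < P.d) h
    omega
  have hxy : ∀ f : Polynomial (ZMod P.p), f ∈ Pr P.p (P.d * k) → ∀ t, f ≠ y t := by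
    intro f hf t e
    have e1 := natDegree_Pr hf
    have e2 := natDegree_Pr (hy t)
    rw [e] at e1
    exact hdk (e2.symm.trans e1)
  have key := hF P.p (Fin N → ZMod P.p) (↥U) γ (fun t => (⟨y t, hyU t⟩ : ↥U))
    (fun a b h => iy (congrArg Subtype.val h))
    ((Finset.univ : Finset (Cell P.p N U)).filter (fun c => EV P k l x0 y0 x y j c)) (by
      intro c hc c' hc' e1 e2
      rw [Finset.mem_filter] at hc hc'
      refine Prod.ext e1 (funext (fun f => ?_))
      by_cases hf : ∀ t, f ≠ (⟨y t, hyU t⟩ : ↥U)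
      · exact e2 f hf
      · push Not at hf
        obtain ⟨t, rfl⟩ := hf
        have g1 := hc.2.1 h1 h2 t
        have g2 := hc'.2.1 h1 h2 t
        have hns : ¬ j < P.s * l := by omega
        have v1 : cD P l j c (y t) = c.2 ⟨y t, hyU t⟩ := by
          unfold cD; simp [hns, hyU t]
        have v2 : cD P l j c' (y t) = c'.2 ⟨y t, hyU t⟩ := by
          unfold cD; simp [hns, hyU t]
        have w : ∀ f : Polynomial (ZMod P.p), (∀ t, f ≠ y t) → ∀ K, cD P K j c f = cD P K j c' f := by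
          intro f hf K
          refine cD_congr P K j e1 (fun h => e2 ⟨f, h⟩ (fun t e => hf t (congrArg Subtype.val e)))
        have w1 := w x0 (hxy x0 hx0) k
        have w2 := w (x t) (hxy (x t) (hx t)) k
        have w3 := w y0 (fun t => (ny t).symm) l
        rw [w1, w2, w3, v1] at g1
        rw [v2] at g2
        have := g1.trans g2.symm
        exact add_left_cancel this)
  rw [one_div, ← div_eq_inv_mul, le_div_iff₀ hp]
  exact_mod_cast key

open Classical in
theorem cell_x (hF : S_fresh) (P : Prm) {N : ℕ} {U : Finset (Polynomial (ZMod P.p))} {k l γ : ℕ}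
    {x0 y0 : Polynomial (ZMod P.p)} {x y : Fin γ → Polynomial (ZMod P.p)}
    (ix : Function.Injective x) (nx : ∀ t, x t ≠ x0)
    (hxU : ∀ t, x t ∈ U) {j : ℕ} (h1 : P.a * l ≤ j) (h1' : P.s * k ≤ j) (h2 : j < P.a * k) :
    (((Finset.univ : Finset (Cell P.p N U)).filter (fun c => EV P k l x0 y0 x y j c)).card : ℝ) ≤
      (1 / (P.p : ℝ) ^ γ) * (Fintype.card (Cell P.p N U) : ℝ) := by
  have hp : (0:ℝ) < (P.p : ℝ) ^ γ := by
    have := P.hp.pos
    positivity
  have key := hF P.p (Fin N → ZMod P.p) (↥U) γ (fun t => (⟨x t, hxU t⟩ : ↥U))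
    (fun a b h => ix (congrArg Subtype.val h))
    ((Finset.univ : Finset (Cell P.p N U)).filter (fun c => EV P k l x0 y0 x y j c)) (by
      intro c hc c' hc' e1 e2
      rw [Finset.mem_filter] at hc hc'
      refine Prod.ext e1 (funext (fun f => ?_))
      by_cases hf : ∀ t, f ≠ (⟨x t, hxU t⟩ : ↥U)
      · exact e2 f hf
      · push Not at hf
        obtain ⟨t, rfl⟩ := hf
        have g1 := hc.2.2 h1 h2 t
        have g2 := hc'.2.2 h1 h2 t
        have hns : ¬ j < P.s * k := by omega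
        have v1 : cD P k j c (x t) = c.2 ⟨x t, hxU t⟩ := by
          unfold cD; simp [hns, hxU t]
        have v2 : cD P k j c' (x t) = c'.2 ⟨x t, hxU t⟩ := by
          unfold cD; simp [hns, hxU t]
        have w : cD P k j c x0 = cD P k j c' x0 :=
          cD_congr P k j e1 (fun h => e2 ⟨x0, h⟩ (fun t e => nx t (congrArg Subtype.val e).symm))
        rw [w, v1] at g1
        rw [v2] at g2
        exact g1.trans g2.symm)
  rw [one_div, ← div_eq_inv_mul, le_div_iff₀ hp]
  exact_mod_cast key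

open Classical in
theorem cell_row (hR : S_row) (P : Prm) {N : ℕ} {U : Finset (Polynomial (ZMod P.p))} {k l γ : ℕ}
    {x0 y0 : Polynomial (ZMod P.p)} {x y : Fin γ → Polynomial (ZMod P.p)}
    {j : ℕ} (h1 : P.a * l ≤ j) (h2 : j < P.s * k) (hN : j < N) :
    (((Finset.univ : Finset (Cell P.p N U)).filter (fun c => EV P k l x0 y0 x y j c)).card : ℝ) ≤
      (((ann (fun (t : Fin γ) (i : Fin (P.s * l)) => lc (x t) i - lc x0 i)).card : ℝ) /
        (P.p : ℝ) ^ (P.s * l)) * (Fintype.card (Cell P.p N U) : ℝ) := by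
  have hp : (0:ℝ) < (P.p : ℝ) := by
    have := P.hp.pos
    positivity
  have hsa : P.s * l ≤ P.a * l := Nat.mul_le_mul_right _ P.hsa
  have hsak : P.s * k ≤ P.a * k := Nat.mul_le_mul_right _ P.hsa
  have hn : P.s * l ≤ N := by omega
  have key := hR P.p (P.s * l) N γ hn (fun (t : Fin γ) (i : Fin (P.s * l)) => lc (x t) i - lc x0 i)
    (fun t i => if (i : ℕ) < j then lc (x t) i - lc x0 i else 0)
    (fun t => lc (x t) j - lc x0 j) (by
      intro t i
      have : (i : ℕ) < j := lt_of_lt_of_le i.2 (by omega)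
      simp [this])
  set A := (Finset.univ : Finset (Fin N → ZMod P.p)).filter
    (fun a => ∀ t, (lc (x t) j - lc x0 j) + ∑ i : Fin N, a i *
      (if (i : ℕ) < j then lc (x t) i - lc x0 i else 0) = 0) with hA
  have hsub : ((Finset.univ : Finset (Cell P.p N U)).filter (fun c => EV P k l x0 y0 x y j c)) ⊆
      A ×ˢ (Finset.univ : Finset (↥U → ZMod P.p)) := by
    intro c hc
    rw [Finset.mem_filter] at hc
    rw [Finset.mem_product, hA, Finset.mem_filter]
    refine ⟨⟨Finset.mem_univ _, fun t => ?_⟩, Finset.mem_univ _⟩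
    have g := hc.2.2 h1 (by omega) t
    unfold cD at g
    simp only [h2, if_true] at g
    have e : ∀ f : Polynomial (ZMod P.p), ∑ i ∈ Finset.range j,
        (if h : i < N then c.1 ⟨i, h⟩ else 0) * lc f i
        = ∑ i : Fin N, c.1 i * (if (i : ℕ) < j then lc f i else 0) := by
      intro f
      have e1 : ∑ i : Fin N, c.1 i * (if (i : ℕ) < j then lc f i else 0)
          = ∑ i ∈ Finset.range N, (if h : i < N then c.1 ⟨i, h⟩ else 0) *
            (if i < j then lc f i else 0) := by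
        rw [← Fin.sum_univ_eq_sum_range (fun i => (if h : i < N then c.1 ⟨i, h⟩ else 0) *
            (if i < j then lc f i else 0))]
        refine Finset.sum_congr rfl (fun i _ => ?_)
        simp
      rw [e1]
      have hsub : Finset.range j ⊆ Finset.range N := Finset.range_subset_range.2 hN.le
      rw [← Finset.sum_subset hsub]
      · refine Finset.sum_congr rfl (fun i hi => ?_)
        simp [Finset.mem_range.1 hi]
      · intro i _ hi
        rw [Finset.mem_range] at hi
        simp [hi]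
    rw [e, e] at g
    have e2 : ∑ i : Fin N, c.1 i * (if (i : ℕ) < j then lc (x t) i - lc x0 i else 0)
        = ∑ i : Fin N, c.1 i * (if (i : ℕ) < j then lc (x t) i else 0)
          - ∑ i : Fin N, c.1 i * (if (i : ℕ) < j then lc x0 i else 0) := by
      rw [← Finset.sum_sub_distrib]
      refine Finset.sum_congr rfl (fun i _ => ?_)
      split_ifs <;> ring
    rw [e2]
    linear_combination g
  have h3 := Finset.card_le_card hsub
  rw [Finset.card_product] at h3
  have h4 : (Fintype.card (Cell P.p N U) : ℝ) = (P.p : ℝ) ^ N * ((Finset.univ : Finset (↥U → ZMod P.p)).card : ℝ) := by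
    rw [Fintype.card_prod, Finset.card_univ]
    push_cast
    congr 1
    rw [Fintype.card_fun, ZMod.card, Fintype.card_fin]
    push_cast; rfl
  have h5 : ((Finset.univ.filter (fun c : Cell P.p N U => EV P k l x0 y0 x y j c)).card : ℝ)
      ≤ (A.card : ℝ) * ((Finset.univ : Finset (↥U → ZMod P.p)).card : ℝ) := by exact_mod_cast h3
  refine h5.trans ?_
  rw [h4, div_mul_eq_mul_div, le_div_iff₀ (by positivity)]
  have h6 : (A.card : ℝ) ≤ ((ann (fun (t : Fin γ) (i : Fin (P.s * l)) => lc (x t) i - lc x0 i)).card : ℝ)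
      * (P.p : ℝ) ^ (N - P.s * l) := by exact_mod_cast key
  have h7 : (P.p : ℝ) ^ (N - P.s * l) * (P.p : ℝ) ^ (P.s * l) = (P.p : ℝ) ^ N := by
    rw [← pow_add]; congr 1; omega
  calc (A.card : ℝ) * ((Finset.univ : Finset (↥U → ZMod P.p)).card : ℝ) * (P.p : ℝ) ^ (P.s * l)
      ≤ (((ann (fun (t : Fin γ) (i : Fin (P.s * l)) => lc (x t) i - lc x0 i)).card : ℝ)
      * (P.p : ℝ) ^ (N - P.s * l)) * ((Finset.univ : Finset (↥U → ZMod P.p)).card : ℝ)
        * (P.p : ℝ) ^ (P.s * l) := by gcongr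
    _ = ((ann (fun (t : Fin γ) (i : Fin (P.s * l)) => lc (x t) i - lc x0 i)).card : ℝ) *
        (((P.p : ℝ) ^ (N - P.s * l) * (P.p : ℝ) ^ (P.s * l)) *
          ((Finset.univ : Finset (↥U → ZMod P.p)).card : ℝ)) := by ring
    _ = _ := by rw [h7]

end Pool.Agent.H601.FP
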