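import Pool.Agent.H601.FP.Def2

namespace Pool.Agent.H601.FP

/-- product of an indicator weight -/
theorem prod_int (N a b : ℕ) (hb : b ≤ N) (u : ℝ) :
    ∏ j : Fin N, (if a ≤ (j : ℕ) ∧ (j : ℕ) < b then u else 1) = u ^ (b - a) := by
  rw [Fin.prod_univ_eq_prod_range (fun j => if a ≤ j ∧ j < b then u else 1) N]
  rw [← Finset.prod_filter, Finset.prod_const]
  congr 1
  have : (Finset.range N).filter (fun j => a ≤ j ∧ j < b) = Finset.Ico a b := by
    ext j
    simp only [Finset.mem_filter, Finset.mem_range, Finset.mem_Ico]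
    omega
  rw [this, Nat.card_Ico]

open Classical in
theorem pi_card {C : Type} [Fintype C] (N : ℕ) (E : Fin N → C → Prop) :
    ((Finset.univ : Finset (Fin N → C)).filter (fun ω => ∀ j, E j (ω j))).card
      = ∏ j, ((Finset.univ : Finset C).filter (E j)).card := by
  have h : (Finset.univ : Finset (Fin N → C)).filter (fun ω => ∀ j, E j (ω j))
      = Fintype.piFinset (fun j => (Finset.univ : Finset C).filter (E j)) := by
    ext ω
    simp [Fintype.mem_piFinset]
  rw [h, Fintype.card_piFinset]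

/-- The annihilator fraction of a tuple. -/
noncomputable def frac (P : Prm) {γ : ℕ} (l : ℕ) (x0 : Polynomial (ZMod P.p))
    (x : Fin γ → Polynomial (ZMod P.p)) : ℝ :=
  ((ann (fun (t : Fin γ) (i : Fin (P.s * l)) => lc (x t) i - lc x0 i)).card : ℝ) /
    (P.p : ℝ) ^ (P.s * l)

open Classical in
/-- All cells at once. -/
theorem cell_all (hF : S_fresh) (hR : S_row) (P : Prm) {N : ℕ} {U : Finset (Polynomial (ZMod P.p))}
    {k l γ : ℕ} (hlk : l < k) {x0 y0 : Polynomial (ZMod P.p)}
    {x y : Fin γ → Polynomial (ZMod P.p)}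
    (hx0 : x0 ∈ Pr P.p (P.d * k)) (hx : ∀ t, x t ∈ Pr P.p (P.d * k))
    (hy : ∀ t, y t ∈ Pr P.p (P.d * l)) (ix : Function.Injective x) (iy : Function.Injective y)
    (nx : ∀ t, x t ≠ x0) (ny : ∀ t, y t ≠ y0) (hxU : ∀ t, x t ∈ U) (hyU : ∀ t, y t ∈ U)
    (j : ℕ) (hN : j < N) :
    (((Finset.univ : Finset (Cell P.p N U)).filter (fun c => EV P k l x0 y0 x y j c)).card : ℝ) ≤
      (((if P.s * l ≤ j ∧ j < P.a * l then 1 / (P.p : ℝ) ^ γ else 1) *
        (if P.a * l ≤ j ∧ j < P.s * k then frac P l x0 x else 1)) *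
        (if max (P.a * l) (P.s * k) ≤ j ∧ j < P.a * k then 1 / (P.p : ℝ) ^ γ else 1)) *
      (Fintype.card (Cell P.p N U) : ℝ) := by
  by_cases c1 : P.s * l ≤ j ∧ j < P.a * l
  · have c2 : ¬ (P.a * l ≤ j ∧ j < P.s * k) := by omega
    have c3 : ¬ (max (P.a * l) (P.s * k) ≤ j ∧ j < P.a * k) := by
      intro h
      have := le_max_left (P.a * l) (P.s * k)
      omega
    rw [if_pos c1, if_neg c2, if_neg c3, mul_one, mul_one]
    exact cell_y hF P hlk hx0 hx hy iy ny hyU c1.1 c1.2
  · by_cases c2 : P.a * l ≤ j ∧ j < P.s * k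
    · have c3 : ¬ (max (P.a * l) (P.s * k) ≤ j ∧ j < P.a * k) := by
        intro h
        have := le_max_right (P.a * l) (P.s * k)
        omega
      rw [if_neg c1, if_pos c2, if_neg c3, mul_one, one_mul]
      exact cell_row hR P c2.1 c2.2 hN
    · by_cases c3 : max (P.a * l) (P.s * k) ≤ j ∧ j < P.a * k
      · rw [if_neg c1, if_neg c2, if_pos c3, one_mul, one_mul]
        have h1 := le_max_left (P.a * l) (P.s * k)
        have h2 := le_max_right (P.a * l) (P.s * k)
        exact cell_x hF P ix nx hxU (h1.trans c3.1) (h2.trans c3.1) c3.2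
      · rw [if_neg c1, if_neg c2, if_neg c3, one_mul, one_mul, one_mul]
        have := Finset.card_filter_le (Finset.univ : Finset (Cell P.p N U))
          (fun c => EV P k l x0 y0 x y j c)
        rw [Finset.card_univ] at this
        exact_mod_cast this

/-- The exponent of `1 / p ^ γ`. -/
def ex1 (P : Prm) (k l : ℕ) : ℕ := (P.a * l - P.s * l) + (P.a * k - max (P.a * l) (P.s * k))

open Classical in
/-- The probability that a given configuration is bad. -/
theorem prob_tuple (hF : S_fresh) (hR : S_row) (P : Prm) {N : ℕ}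
    {U : Finset (Polynomial (ZMod P.p))}
    {k l : ℕ} (hlk : l < k) (hN : P.a * k ≤ N) (hUk : Pr P.p (P.d * k) ⊆ (U : Set (Polynomial (ZMod P.p))))
    (hUl : Pr P.p (P.d * l) ⊆ (U : Set (Polynomial (ZMod P.p))))
    (x0 y0 : Polynomial (ZMod P.p)) (x y : Fin (gam P k l) → Polynomial (ZMod P.p)) :
    (((Finset.univ : Finset (Om P.p N U)).filter
        (fun ω => BadT P (toSt ω) k l x0 y0 x y)).card : ℝ) ≤
      ((1 / (P.p : ℝ) ^ (gam P k l)) ^ (ex1 P k l) * (frac P l x0 x) ^ (P.s * k - P.a * l)) *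
      (Fintype.card (Om P.p N U) : ℝ) := by
  have hp : (0:ℝ) < (P.p : ℝ) := by
    have := P.hp.pos
    positivity
  have hfr : 0 ≤ frac P l x0 x := by unfold frac; positivity
  by_cases hex : ∃ ω : Om P.p N U, BadT P (toSt ω) k l x0 y0 x y
  swap
  · push Not at hex
    rw [Finset.filter_false_of_mem (fun ω _ => hex ω), Finset.card_empty]
    push_cast
    positivity
  obtain ⟨ω0, h0⟩ := hex
  have hsub : ((Finset.univ : Finset (Om P.p N U)).filter
        (fun ω => BadT P (toSt ω) k l x0 y0 x y)) ⊆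
      (Finset.univ : Finset (Om P.p N U)).filter
        (fun ω => ∀ j : Fin N, EV P k l x0 y0 x y (j : ℕ) (ω j)) := by
    intro ω hω
    rw [Finset.mem_filter] at hω ⊢
    refine ⟨Finset.mem_univ _, fun j => ⟨fun _ h2 t => ?_, fun h1 h2 t => ?_⟩⟩
    · have := hω.2.c1 j h2 t
      rw [DD_toSt P ω k j j.2, DD_toSt P ω l j j.2, DD_toSt P ω k j j.2,
        DD_toSt P ω l j j.2] at this
      exact this
    · have := hω.2.c2 j h1 h2 t
      rw [DD_toSt P ω k j j.2, DD_toSt P ω k j j.2] at this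
      exact this
  have h1 := Finset.card_le_card hsub
  rw [pi_card N (fun (j : Fin N) (c : Cell P.p N U) => EV P k l x0 y0 x y (j : ℕ) c)] at h1
  have h2 : (((Finset.univ : Finset (Om P.p N U)).filter
        (fun ω => BadT P (toSt ω) k l x0 y0 x y)).card : ℝ) ≤
      ∏ j : Fin N, (((Finset.univ : Finset (Cell P.p N U)).filter
        (fun c => EV P k l x0 y0 x y (j : ℕ) c)).card : ℝ) := by exact_mod_cast h1
  refine h2.trans ?_
  have h3 : ∏ j : Fin N, (((Finset.univ : Finset (Cell P.p N U)).filter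
        (fun c => EV P k l x0 y0 x y (j : ℕ) c)).card : ℝ) ≤
      ∏ j : Fin N, ((((if P.s * l ≤ (j : ℕ) ∧ (j : ℕ) < P.a * l then 1 / (P.p : ℝ) ^ (gam P k l) else 1) *
        (if P.a * l ≤ (j : ℕ) ∧ (j : ℕ) < P.s * k then frac P l x0 x else 1)) *
        (if max (P.a * l) (P.s * k) ≤ (j : ℕ) ∧ (j : ℕ) < P.a * k then 1 / (P.p : ℝ) ^ (gam P k l) else 1)) *
      (Fintype.card (Cell P.p N U) : ℝ)) := by
    refine Finset.prod_le_prod (fun j _ => by positivity) (fun j _ => ?_)
    exact cell_all hF hR P hlk h0.hx0 h0.hx h0.hy h0.ix h0.iy h0.nx h0.ny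
      (fun t => hUk (h0.hx t)) (fun t => hUl (h0.hy t)) j j.2
  refine h3.trans (le_of_eq ?_)
  rw [Finset.prod_mul_distrib, Finset.prod_mul_distrib, Finset.prod_mul_distrib]
  have hal : P.a * l ≤ N := (Nat.mul_le_mul_left _ hlk.le).trans hN
  have hsk : P.s * k ≤ N := (Nat.mul_le_mul_right _ P.hsa).trans hN
  rw [prod_int N _ _ hal, prod_int N _ _ hsk, prod_int N _ _ hN, Finset.prod_const,
    Finset.card_univ, Fintype.card_fin]
  have h4 : (Fintype.card (Om P.p N U) : ℝ) = (Fintype.card (Cell P.p N U) : ℝ) ^ N := by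
    have : Fintype.card (Om P.p N U) = (Fintype.card (Cell P.p N U)) ^ N := by
      rw [Fintype.card_fun, Fintype.card_fin]
    rw [this]; push_cast; rfl
  rw [h4]
  unfold ex1
  rw [pow_add]
  ring

end Pool.Agent.H601.FP
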