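import Pool.Agent.H601.FP.Prob2

namespace Pool.Agent.H601.FP

/-- The pairs congruent to `(x0, y0)` with another second component. -/
def SS (P : Prm) (k l : ℕ) (x0 y0 : Polynomial (ZMod P.p)) :
    Set (Polynomial (ZMod P.p) × Polynomial (ZMod P.p)) :=
  {z | (z.1 ∈ Pr P.p (P.d * k) ∧ z.2 ∈ Pr P.p (P.d * l) ∧
    Polynomial.X ^ (P.s * l + 1) ∣ z.1 * z.2 - x0 * y0) ∧ z.2 ≠ y0}

theorem dkl_ne (P : Prm) {k l : ℕ} (h : l < k) : P.d * k ≠ P.d * l := by
  have := P.hd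
  intro h
  have := Nat.eq_of_mul_eq_mul_left (by omega : 0 < P.d) h
  omega

theorem natDegree_W (P : Prm) {k l : ℕ} {x0 y0 : Polynomial (ZMod P.p)}
    (hx0 : x0 ∈ Pr P.p (P.d * k)) (hy0 : y0 ∈ Pr P.p (P.d * l)) :
    (x0 * y0).natDegree ≤ P.d * k + P.d * l := by
  refine Polynomial.natDegree_mul_le.trans ?_
  rw [natDegree_Pr hx0, natDegree_Pr hy0]

theorem SS_fin (hM : S_mult) (P : Prm) {k l : ℕ} (h : l < k) {x0 y0 : Polynomial (ZMod P.p)}
    (hx0 : x0 ∈ Pr P.p (P.d * k)) (hy0 : y0 ∈ Pr P.p (P.d * l)) :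
    (SS P k l x0 y0).Finite ∧ (SS P k l x0 y0).ncard ≤ P.p ^ (P.d * (k + l) - P.s * l) := by
  have h1 := hM P.p (P.s * l) (P.d * k) (P.d * l) (dkl_ne P h) (x0 * y0) (natDegree_W P hx0 hy0)
  have hsub : SS P k l x0 y0 ⊆ {z : Polynomial (ZMod P.p) × Polynomial (ZMod P.p) |
    z.1 ∈ Pr P.p (P.d * k) ∧ z.2 ∈ Pr P.p (P.d * l) ∧
    Polynomial.X ^ (P.s * l + 1) ∣ z.1 * z.2 - x0 * y0} := fun z hz => hz.1
  refine ⟨h1.1.subset hsub, (Set.ncard_le_ncard hsub h1.1).trans ?_⟩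
  rw [mul_add]
  exact h1.2

/-- The vector of a pair. -/
noncomputable def zv (P : Prm) (l : ℕ) (x0 : Polynomial (ZMod P.p))
    (x : Polynomial (ZMod P.p)) (i : Fin (P.s * l)) : ZMod P.p := lc x i - lc x0 i

theorem zv_ne (hL : S_lc) (P : Prm) {k l : ℕ} {x0 y0 : Polynomial (ZMod P.p)}
    (hx0 : x0 ∈ Pr P.p (P.d * k)) (hy0 : y0 ∈ Pr P.p (P.d * l))
    {z : Polynomial (ZMod P.p) × Polynomial (ZMod P.p)} (hz : z ∈ SS P k l x0 y0) :
    zv P l x0 z.1 ≠ 0 := by
  intro h0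
  obtain ⟨L1, L2, _, L4⟩ := hL P.p
  obtain ⟨⟨z1, z2, z3⟩, z4⟩ := hz
  have c1 : (z.1 * z.2).coeff 0 = 1 := by
    rw [Polynomial.mul_coeff_zero, z1.2.2, z2.2.2, one_mul]
  have c2 : (x0 * y0).coeff 0 = 1 := by
    rw [Polynomial.mul_coeff_zero, hx0.2.2, hy0.2.2, one_mul]
  refine z4 (L4 (P.d * l) (P.s * l) z.2 y0 ?_ z2 hy0 ?_)
  · rw [← mul_assoc]; exact Nat.mul_le_mul_right _ P.hds
  · intro i hi
    have e1 := L2 (z.1 * z.2) (x0 * y0) (P.s * l) c1 c2 z3 i hi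
    rw [L1 z.1 z.2 z1.2.2 z2.2.2, L1 x0 y0 hx0.2.2 hy0.2.2] at e1
    have e2 := congrFun h0 ⟨i, hi⟩
    simp only [zv, Pi.zero_apply] at e2
    linear_combination e1 - e2

open Classical in
theorem sum_bound (hS : S_sum) (hM : S_mult) (hL : S_lc) (hFib : S_fib) (P : Prm) {k l : ℕ}
    (hlk : l < k) {x0 y0 : Polynomial (ZMod P.p)}
    (hx0 : x0 ∈ Pr P.p (P.d * k)) (hy0 : y0 ∈ Pr P.p (P.d * l)) [Fintype (SS P k l x0 y0)] :
    ∑ τ : Fin (gam P k l) → SS P k l x0 y0,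
      (frac P l x0 (fun t => (τ t).1.1)) ^ (P.s * k - P.a * l) ≤
    (((P.p : ℝ) ^ (P.d * (k + l) - P.s * l) / (P.p : ℝ) ^ (P.s * k - P.a * l)) *
      ((P.p : ℝ) ^ (gam P k l) * (P.p : ℝ) ^ (P.s * l / P.p) +
        (P.p : ℝ) ^ (P.d * (k + l) - P.s * l) / (P.p : ℝ) ^ (P.s * k - P.a * l)) ^
          (gam P k l - 1)) := by
  have hp : (0:ℝ) < (P.p : ℝ) := by
    have := P.hp.pos
    positivity
  obtain ⟨hfin, hcard⟩ := SS_fin hM P hlk hx0 hy0
  have hc1 : Fintype.card (SS P k l x0 y0) ≤ P.p ^ (P.d * (k + l) - P.s * l) := by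
    rw [← Nat.card_eq_fintype_card]
    exact hcard
  have hc2 : (Fintype.card (SS P k l x0 y0) : ℝ) ≤ (P.p : ℝ) ^ (P.d * (k + l) - P.s * l) := by
    exact_mod_cast hc1
  have hg : 1 ≤ gam P k l := by
    unfold gam; split_ifs
    · exact P.hg
    · exact le_rfl
  have hne : ∀ z : SS P k l x0 y0, zv P l x0 z.1.1 ≠ 0 := fun z => zv_ne hL P hx0 hy0 z.2
  by_cases hd : P.d * k ≤ P.s * l
  · have hfib : ∀ v : Fin (P.s * l) → ZMod P.p,
        (Finset.univ.filter (fun z : SS P k l x0 y0 => zv P l x0 z.1.1 = v)).card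
          ≤ P.p ^ (P.s * l / P.p) := by
      intro v
      have h1 := hFib P.p (P.s * l) (P.d * k) (P.d * l) hd
        ((Nat.mul_le_mul_left _ hlk.le).trans hd) (x0 * y0)
        (fun i => if h : i < P.s * l then v ⟨i, h⟩ + lc x0 i else 0)
      refine le_trans ?_ h1
      have hsub : (((Finset.univ.filter (fun z : SS P k l x0 y0 => zv P l x0 z.1.1 = v)).image
          Subtype.val : Finset (Polynomial (ZMod P.p) × Polynomial (ZMod P.p))) :
            Set (Polynomial (ZMod P.p) × Polynomial (ZMod P.p))) ⊆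
          {z : Polynomial (ZMod P.p) × Polynomial (ZMod P.p) | z.1 ∈ Pr P.p (P.d * k) ∧
            z.2 ∈ Pr P.p (P.d * l) ∧ Polynomial.X ^ (P.s * l + 1) ∣ z.1 * z.2 - x0 * y0 ∧
            ∀ i < P.s * l, lc z.1 i = if h : i < P.s * l then v ⟨i, h⟩ + lc x0 i else 0} := by
        intro z hz
        rw [Finset.mem_coe, Finset.mem_image] at hz
        obtain ⟨w, hw, rfl⟩ := hz
        rw [Finset.mem_filter] at hw
        obtain ⟨⟨w1, w2, w3⟩, _⟩ := w.2
        refine ⟨w1, w2, w3, fun i hi => ?_⟩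
        rw [dif_pos hi]
        have := congrFun hw.2 ⟨i, hi⟩
        simp only [zv] at this
        rw [← this]
        ring
      have hfinS : ({z : Polynomial (ZMod P.p) × Polynomial (ZMod P.p) | z.1 ∈ Pr P.p (P.d * k) ∧
            z.2 ∈ Pr P.p (P.d * l) ∧ Polynomial.X ^ (P.s * l + 1) ∣ z.1 * z.2 - x0 * y0 ∧
            ∀ i < P.s * l, lc z.1 i = if h : i < P.s * l then v ⟨i, h⟩ + lc x0 i else 0}).Finite := by
        refine (hM P.p (P.s * l) (P.d * k) (P.d * l) (dkl_ne P hlk) (x0 * y0)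
          (natDegree_W P hx0 hy0)).1.subset ?_
        rintro z ⟨h1, h2, h3, _⟩
        exact ⟨h1, h2, h3⟩
      have h2 := Set.ncard_le_ncard hsub hfinS
      rw [Set.ncard_coe_finset, Finset.card_image_of_injective _ Subtype.val_injective] at h2
      exact h2
    have key := hS P.p (P.s * l) (gam P k l) (P.s * k - P.a * l) (P.p ^ (P.s * l / P.p))
      (SS P k l x0 y0) (fun z => zv P l x0 z.1.1) hg hne hfib
    refine le_trans (le_of_eq ?_) (key.trans ?_)
    · rfl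
    · push_cast
      gcongr
  · have hg1 : gam P k l = 1 := by unfold gam; rw [if_neg hd]
    have key := hS P.p (P.s * l) (gam P k l) (P.s * k - P.a * l) (Fintype.card (SS P k l x0 y0))
      (SS P k l x0 y0) (fun z => zv P l x0 z.1.1) hg hne (fun v => by
        refine (Finset.card_filter_le _ _).trans ?_
        rw [Finset.card_univ])
    refine le_trans (le_of_eq ?_) (key.trans ?_)
    · rfl
    · have e : gam P k l - 1 = 0 := by omega
      rw [e, pow_zero, pow_zero, mul_one, mul_one]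
      gcongr

open Classical in
theorem expect (hF : S_fresh) (hR : S_row) (hS : S_sum) (hM : S_mult) (hL : S_lc) (hFib : S_fib)
    (hub : S_ub) (P : Prm) : Expect P := by
  intro N U k l hD hN hUk hUl
  obtain ⟨hl1, hlk, hdang⟩ := hD
  have hp : (0:ℝ) < (P.p : ℝ) := by
    have := P.hp.pos
    positivity
  have fk := (hub P.p (P.d * k)).1
  have fl := (hub P.p (P.d * l)).1
  have cl := (hub P.p (P.d * l)).2
  set Pk := fk.toFinset with hPk
  set Pl := fl.toFinset with hPl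
  have hfinSS : ∀ x0 ∈ Pk, ∀ y0 ∈ Pl, (SS P k l x0 y0).Finite := fun x0 hx0 y0 hy0 =>
    (SS_fin hM P hlk (fk.mem_toFinset.1 hx0) (fl.mem_toFinset.1 hy0)).1
  -- the finite set of configurations
  let Cf : Polynomial (ZMod P.p) → Polynomial (ZMod P.p) → Finset (Polynomial (ZMod P.p) × Polynomial (ZMod P.p)) :=
    fun x0 y0 => if h : (SS P k l x0 y0).Finite then h.toFinset else ∅
  have hCf : ∀ x0 y0, (SS P k l x0 y0).Finite → ∀ z, z ∈ Cf x0 y0 ↔ z ∈ SS P k l x0 y0 := by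
    intro x0 y0 h z
    simp only [Cf, dif_pos h, Set.Finite.mem_toFinset]
  -- step 1: bound of BadL by number of configurations
  have step1 : ∀ ω : Om P.p N U, ((BadL P (toSt ω) k l).ncard : ℝ) ≤
      ∑ x0 ∈ Pk, ∑ y0 ∈ Pl, ∑ τ ∈ Fintype.piFinset (fun _ : Fin (gam P k l) => Cf x0 y0),
        (if BadT P (toSt ω) k l x0 y0 (fun t => (τ t).1) (fun t => (τ t).2) then (1:ℝ) else 0) := by
    intro ω
    have hB : BadL P (toSt ω) k l = ((Pk.filter (fun x0 => ∃ (y0 : Polynomial (ZMod P.p))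
        (x y : Fin (gam P k l) → Polynomial (ZMod P.p)), BadT P (toSt ω) k l x0 y0 x y) :
          Finset (Polynomial (ZMod P.p))) : Set (Polynomial (ZMod P.p))) := by
      ext x0
      rw [Finset.coe_filter, Set.mem_ofPred_eq, hPk, fk.mem_toFinset]
      rfl
    rw [hB, Set.ncard_coe_finset, Finset.card_filter]
    push_cast
    refine Finset.sum_le_sum (fun x0 hx0 => ?_)
    by_cases h : ∃ (y0 : Polynomial (ZMod P.p))
        (x y : Fin (gam P k l) → Polynomial (ZMod P.p)), BadT P (toSt ω) k l x0 y0 x y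
    · rw [if_pos h]
      obtain ⟨y0, x, y, hb⟩ := h
      have hy0 : y0 ∈ Pl := fl.mem_toFinset.2 hb.hy0
      have hτ : (fun t => (x t, y t)) ∈ Fintype.piFinset (fun _ : Fin (gam P k l) => Cf x0 y0) := by
        rw [Fintype.mem_piFinset]
        intro t
        rw [hCf x0 y0 (hfinSS x0 hx0 y0 hy0)]
        exact ⟨⟨hb.hx t, hb.hy t, hb.dv t⟩, hb.ny t⟩
      refine le_trans ?_ (Finset.single_le_sum (f := fun y0 =>
        ∑ τ ∈ Fintype.piFinset (fun _ : Fin (gam P k l) => Cf x0 y0),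
        (if BadT P (toSt ω) k l x0 y0 (fun t => (τ t).1) (fun t => (τ t).2) then (1:ℝ) else 0))
        (fun _ _ => Finset.sum_nonneg (fun _ _ => by split_ifs <;> norm_num)) hy0)
      refine le_trans ?_ (Finset.single_le_sum (f := fun τ : Fin (gam P k l) → Polynomial (ZMod P.p) × Polynomial (ZMod P.p) =>
        (if BadT P (toSt ω) k l x0 y0 (fun t => (τ t).1) (fun t => (τ t).2) then (1:ℝ) else 0))
        (fun _ _ => by split_ifs <;> norm_num) hτ)
      simp only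
      rw [if_pos hb]
    · rw [if_neg h]
      refine Finset.sum_nonneg (fun _ _ =>
        Finset.sum_nonneg (fun _ _ => by split_ifs <;> norm_num))
  -- step 2: exchange
  have step2 : ∑ ω : Om P.p N U, ((BadL P (toSt ω) k l).ncard : ℝ) ≤
      ∑ x0 ∈ Pk, ∑ y0 ∈ Pl, ∑ τ ∈ Fintype.piFinset (fun _ : Fin (gam P k l) => Cf x0 y0),
        (((Finset.univ : Finset (Om P.p N U)).filter
        (fun ω => BadT P (toSt ω) k l x0 y0 (fun t => (τ t).1) (fun t => (τ t).2))).card : ℝ) := by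
    refine (Finset.sum_le_sum (fun ω _ => step1 ω)).trans (le_of_eq ?_)
    rw [Finset.sum_comm]
    refine Finset.sum_congr rfl (fun x0 _ => ?_)
    rw [Finset.sum_comm]
    refine Finset.sum_congr rfl (fun y0 _ => ?_)
    rw [Finset.sum_comm]
    refine Finset.sum_congr rfl (fun τ _ => ?_)
    rw [Finset.card_filter]
    push_cast
    rfl
  refine step2.trans ?_
  -- step 3: bound for each (x0, y0)
  have step3 : ∀ x0 ∈ Pk, ∀ y0 ∈ Pl,
      ∑ τ ∈ Fintype.piFinset (fun _ : Fin (gam P k l) => Cf x0 y0),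
        (((Finset.univ : Finset (Om P.p N U)).filter
        (fun ω => BadT P (toSt ω) k l x0 y0 (fun t => (τ t).1) (fun t => (τ t).2))).card : ℝ) ≤
      (Fintype.card (Om P.p N U) : ℝ) * ((1 / (P.p : ℝ) ^ (gam P k l)) ^ (ex1 P k l) *
      (((P.p : ℝ) ^ (P.d * (k + l) - P.s * l) / (P.p : ℝ) ^ (P.s * k - P.a * l)) *
      ((P.p : ℝ) ^ (gam P k l) * (P.p : ℝ) ^ (P.s * l / P.p) +
        (P.p : ℝ) ^ (P.d * (k + l) - P.s * l) / (P.p : ℝ) ^ (P.s * k - P.a * l)) ^
          (gam P k l - 1))) := by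
    intro x0 hx0 y0 hy0
    have hx0' := fk.mem_toFinset.1 hx0
    have hy0' := fl.mem_toFinset.1 hy0
    have : Fintype (SS P k l x0 y0) := (hfinSS x0 hx0 y0 hy0).fintype
    have e : ∑ τ ∈ Fintype.piFinset (fun _ : Fin (gam P k l) => Cf x0 y0),
        (frac P l x0 (fun t => (τ t).1)) ^ (P.s * k - P.a * l)
        = ∑ τ : Fin (gam P k l) → SS P k l x0 y0,
          (frac P l x0 (fun t => (τ t).1.1)) ^ (P.s * k - P.a * l) := by
      symm
      refine Finset.sum_bij (fun τ _ => fun t => (τ t).1) ?_ ?_ ?_ ?_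
      · intro τ _
        rw [Fintype.mem_piFinset]
        intro t
        rw [hCf x0 y0 (hfinSS x0 hx0 y0 hy0)]
        exact (τ t).2
      · intro τ _ τ' _ h
        funext t
        exact Subtype.ext (congrFun h t)
      · intro τ hτ
        rw [Fintype.mem_piFinset] at hτ
        refine ⟨fun t => ⟨τ t, (hCf x0 y0 (hfinSS x0 hx0 y0 hy0) _).1 (hτ t)⟩, Finset.mem_univ _, rfl⟩
      · intro τ _
        rfl
    have hsb := sum_bound hS hM hL hFib P hlk hx0' hy0'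
    calc _ ≤ ∑ τ ∈ Fintype.piFinset (fun _ : Fin (gam P k l) => Cf x0 y0),
          ((1 / (P.p : ℝ) ^ (gam P k l)) ^ (ex1 P k l) *
            (frac P l x0 (fun t => (τ t).1)) ^ (P.s * k - P.a * l)) *
          (Fintype.card (Om P.p N U) : ℝ) :=
          Finset.sum_le_sum (fun τ _ => prob_tuple hF hR P hlk hN hUk hUl x0 y0 _ _)
      _ = (Fintype.card (Om P.p N U) : ℝ) * ((1 / (P.p : ℝ) ^ (gam P k l)) ^ (ex1 P k l) *
          ∑ τ ∈ Fintype.piFinset (fun _ : Fin (gam P k l) => Cf x0 y0),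
            (frac P l x0 (fun t => (τ t).1)) ^ (P.s * k - P.a * l)) := by
          rw [Finset.mul_sum, Finset.mul_sum]
          refine Finset.sum_congr rfl (fun τ _ => ?_)
          ring
      _ ≤ _ := by
          rw [e]
          refine mul_le_mul_of_nonneg_left ?_ (by positivity)
          exact mul_le_mul_of_nonneg_left hsb (by positivity)
  calc _ ≤ ∑ x0 ∈ Pk, ∑ y0 ∈ Pl, (Fintype.card (Om P.p N U) : ℝ) *
        ((1 / (P.p : ℝ) ^ (gam P k l)) ^ (ex1 P k l) *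
      (((P.p : ℝ) ^ (P.d * (k + l) - P.s * l) / (P.p : ℝ) ^ (P.s * k - P.a * l)) *
      ((P.p : ℝ) ^ (gam P k l) * (P.p : ℝ) ^ (P.s * l / P.p) +
        (P.p : ℝ) ^ (P.d * (k + l) - P.s * l) / (P.p : ℝ) ^ (P.s * k - P.a * l)) ^
          (gam P k l - 1))) :=
        Finset.sum_le_sum (fun x0 hx0 => Finset.sum_le_sum (fun y0 hy0 => step3 x0 hx0 y0 hy0))
    _ = (Pk.card : ℝ) * ((Pl.card : ℝ) * ((Fintype.card (Om P.p N U) : ℝ) *
        ((1 / (P.p : ℝ) ^ (gam P k l)) ^ (ex1 P k l) *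
      (((P.p : ℝ) ^ (P.d * (k + l) - P.s * l) / (P.p : ℝ) ^ (P.s * k - P.a * l)) *
      ((P.p : ℝ) ^ (gam P k l) * (P.p : ℝ) ^ (P.s * l / P.p) +
        (P.p : ℝ) ^ (P.d * (k + l) - P.s * l) / (P.p : ℝ) ^ (P.s * k - P.a * l)) ^
          (gam P k l - 1))))) := by
        rw [Finset.sum_const, Finset.sum_const, nsmul_eq_mul, nsmul_eq_mul]
    _ ≤ (Pk.card : ℝ) * ((P.p : ℝ) ^ (P.d * l) * ((Fintype.card (Om P.p N U) : ℝ) *
        ((1 / (P.p : ℝ) ^ (gam P k l)) ^ (ex1 P k l) *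
      (((P.p : ℝ) ^ (P.d * (k + l) - P.s * l) / (P.p : ℝ) ^ (P.s * k - P.a * l)) *
      ((P.p : ℝ) ^ (gam P k l) * (P.p : ℝ) ^ (P.s * l / P.p) +
        (P.p : ℝ) ^ (P.d * (k + l) - P.s * l) / (P.p : ℝ) ^ (P.s * k - P.a * l)) ^
          (gam P k l - 1))))) := by
        have hPlc : (Pl.card : ℝ) ≤ (P.p : ℝ) ^ (P.d * l) := by
          have : Pl.card ≤ P.p ^ (P.d * l) := by
            rw [hPl, ← Set.ncard_eq_toFinset_card _ fl]
            exact cl
          exact_mod_cast this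
        gcongr
    _ = _ := by
        have hPkc : (Pk.card : ℝ) = ((Pr P.p (P.d * k)).ncard : ℝ) := by
          rw [hPk, ← Set.ncard_eq_toFinset_card _ fk]
        rw [hPkc]
        unfold BB ex1
        rw [one_div, inv_pow]
        ring

end Pool.Agent.H601.FP
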